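import Pool.Agent.Helper10.Ram.Lib

set_option autoImplicit false

/-!
# Wirtinger inequality on flat tori, square and hexagonal case
-/

namespace Pool.Agent.Helper44.Ram

open Pool.Agent.Helper10.Ram
open Complex MeasureTheory Topology

/-- normalised Lebesgue measure on `[0,1]` -/
noncomputable abbrev mu : Measure ℝ := volume.restrict (Set.Icc (0 : ℝ) 1)

instance : IsProbabilityMeasure mu := ⟨by simp [mu]⟩

theorem int_mu {E : Type*} [NormedAddCommGroup E] [NormedSpace ℝ E] (f : ℝ → E) :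
    ∫ x, f x ∂mu = ∫ x in (0 : ℝ)..1, f x := by
  rw [intervalIntegral.integral_of_le zero_le_one, ← integral_Icc_eq_integral_Ioc]

theorem ic {E : Type*} [NormedAddCommGroup E] {f : ℝ → E} (hf : Continuous f) :
    Integrable f mu := hf.integrableOn_Icc

theorem ic2 {E : Type*} [NormedAddCommGroup E] {f : ℝ → ℝ → E}
    (hf : Continuous (Function.uncurry f)) : Integrable (Function.uncurry f) (mu.prod mu) := by
  unfold mu
  rw [Measure.prod_restrict]
  exact hf.continuousOn.integrableOn_compact (isCompact_Icc.prod isCompact_Icc)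

theorem cpar {E : Type*} [NormedAddCommGroup E] [NormedSpace ℝ E] {f : ℝ → ℝ → E}
    (hf : Continuous (Function.uncurry f)) : Continuous (fun x => ∫ y, f x y ∂mu) :=
  continuous_parametric_integral_of_continuous hf isCompact_Icc

theorem swap {E : Type*} [NormedAddCommGroup E] [NormedSpace ℝ E] {f : ℝ → ℝ → E}
    (hf : Continuous (Function.uncurry f)) :
    ∫ x, ∫ y, f x y ∂mu ∂mu = ∫ y, ∫ x, f x y ∂mu ∂mu := integral_integral_swap (ic2 hf)

theorem shift {E : Type*} [NormedAddCommGroup E] [NormedSpace ℝ E] {f : ℝ → E}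
    (hp : ∀ x, f (x + 1) = f x) (c : ℝ) : ∫ x, f (x + c) ∂mu = ∫ x, f x ∂mu := by
  rw [int_mu, int_mu, intervalIntegral.integral_comp_add_right]
  have hp' : Function.Periodic f 1 := hp
  have := hp'.intervalIntegral_add_eq (0 + c) 0
  rw [zero_add, zero_add] at this
  rw [zero_add, add_comm 1 c]
  exact this

/-- one-dimensional Wirtinger inequality -/
theorem wirt1 {f f' : ℝ → ℂ} (hf : ∀ x, HasDerivAt f (f' x) x) (hf' : Continuous f')
    (hper : f 1 = f 0) :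
    4 * Real.pi ^ 2 * (∫ x, ‖f x‖ ^ 2 ∂mu)
      ≤ (∫ x, ‖f' x‖ ^ 2 ∂mu) + 4 * Real.pi ^ 2 * ‖∫ x, f x ∂mu‖ ^ 2 := by
  have hfc : Continuous f := continuous_iff_continuousAt.2 fun x => (hf x).continuousAt
  have h01 : (0 : ℝ) < 1 := one_pos
  have hm : ∀ g : ℝ → ℂ, Continuous g → MemLp g 2 (volume.restrict (Set.Ioc (0 : ℝ) 1)) := by
    intro g hg
    have h1 : ContinuousOn g (Set.Icc 0 1) := hg.continuousOn
    obtain ⟨C, hC⟩ := isCompact_Icc.exists_bound_of_continuousOn h1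
    refine MemLp.of_bound hg.aestronglyMeasurable.restrict C ?_
    filter_upwards [ae_restrict_mem measurableSet_Ioc] with x hx
    exact hC x (Set.Ioc_subset_Icc_self hx)
  have s1 := hasSum_sq_fourierCoeffOn h01 (hm f hfc)
  have s2 := hasSum_sq_fourierCoeffOn h01 (hm f' hf')
  rw [← int_mu] at s1 s2
  have s3 : HasSum (fun n : ℤ => if n = 0 then 4 * Real.pi ^ 2 * ‖∫ x, f x ∂mu‖ ^ 2 else 0)
      (4 * Real.pi ^ 2 * ‖∫ x, f x ∂mu‖ ^ 2) := hasSum_ite_eq 0 _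
  have key : ∀ n : ℤ, 4 * Real.pi ^ 2 * ‖fourierCoeffOn h01 f n‖ ^ 2 ≤
      ‖fourierCoeffOn h01 f' n‖ ^ 2 +
        (if n = 0 then 4 * Real.pi ^ 2 * ‖∫ x, f x ∂mu‖ ^ 2 else 0) := by
    intro n
    by_cases hn : n = 0
    · subst hn
      rw [if_pos rfl]
      have e : fourierCoeffOn h01 f 0 = ∫ x, f x ∂mu := by
        rw [fourierCoeffOn_eq_integral, int_mu]
        simp
      rw [e]
      have := sq_nonneg ‖fourierCoeffOn h01 f' 0‖
      linarith
    · rw [if_neg hn, add_zero]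
      have e := fourierCoeffOn_of_hasDerivAt h01 hn (fun x _ => hf x)
        (hf'.intervalIntegrable 0 1)
      rw [hper, sub_self, mul_zero, zero_sub] at e
      have e2 : fourierCoeffOn h01 f' n = (2 * Real.pi * I * n) * fourierCoeffOn h01 f n := by
        rw [e]
        have : (n : ℂ) ≠ 0 := by exact_mod_cast hn
        have hpi : (Real.pi : ℂ) ≠ 0 := by exact_mod_cast Real.pi_ne_zero
        field_simp
        push_cast
        ring
      rw [e2, norm_mul, mul_pow]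
      have e3 : ‖(2 * Real.pi * I * n : ℂ)‖ ^ 2 = 4 * Real.pi ^ 2 * (n : ℝ) ^ 2 := by
        rw [norm_mul, norm_mul, norm_mul, Complex.norm_I]
        simp only [Complex.norm_real, Complex.norm_ofNat, Complex.norm_intCast, Real.norm_eq_abs]
        rw [mul_one, mul_pow, mul_pow, sq_abs, sq_abs]
        norm_num
      rw [e3]
      have h1 : (1 : ℝ) ≤ (n : ℝ) ^ 2 := by
        have : 1 ≤ n ^ 2 := by
          have := sq_pos_of_ne_zero hn
          omega
        exact_mod_cast this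
      have h2 : 0 ≤ 4 * Real.pi ^ 2 * ‖fourierCoeffOn h01 f n‖ ^ 2 := by positivity
      nlinarith
  have := hasSum_le key (s1.mul_left (4 * Real.pi ^ 2)) (s2.add s3)
  simpa using this

/-- variance identity -/
theorem var1 {h : ℝ → ℂ} (hh : Continuous h) :
    ∫ x, ‖h x‖ ^ 2 ∂mu = ∫ x, ‖h x - ∫ y, h y ∂mu‖ ^ 2 ∂mu + ‖∫ y, h y ∂mu‖ ^ 2 := by
  set m := ∫ y, h y ∂mu with hm
  have e : ∀ x, ‖h x - m‖ ^ 2 = ‖h x‖ ^ 2 - 2 * (h x * (starRingEnd ℂ) m).re + ‖m‖ ^ 2 := by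
    intro x
    rw [← Complex.normSq_eq_norm_sq, ← Complex.normSq_eq_norm_sq, ← Complex.normSq_eq_norm_sq,
      Complex.normSq_sub]
    ring
  have i1 : Integrable (fun x => ‖h x‖ ^ 2) mu := ic (by fun_prop)
  have i2 : Integrable (fun x => 2 * (h x * (starRingEnd ℂ) m).re) mu := ic (by fun_prop)
  have i3 : Integrable (fun x => h x * (starRingEnd ℂ) m) mu := ic (by fun_prop)
  have e2 : ∫ x, 2 * (h x * (starRingEnd ℂ) m).re ∂mu = 2 * ‖m‖ ^ 2 := by
    rw [integral_const_mul]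
    have : ∫ x, (h x * (starRingEnd ℂ) m).re ∂mu = (∫ x, h x * (starRingEnd ℂ) m ∂mu).re := by
      exact integral_re i3
    rw [this, integral_mul_const, ← hm, Complex.mul_conj, Complex.ofReal_re,
      Complex.normSq_eq_norm_sq]
  have e4 : ∫ x, (‖h x‖ ^ 2 - 2 * (h x * (starRingEnd ℂ) m).re + ‖m‖ ^ 2) ∂mu =
      (∫ x, ‖h x‖ ^ 2 ∂mu) - 2 * ‖m‖ ^ 2 + ‖m‖ ^ 2 := by
    have e5 := integral_add (f := fun x => ‖h x‖ ^ 2 - 2 * (h x * (starRingEnd ℂ) m).re)
      (g := fun _ => ‖m‖ ^ 2) (i1.sub i2) (ic continuous_const)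
    rw [e5, integral_sub i1 i2, e2]
    simp
  simp_rw [e]
  rw [e4]
  ring

/-- the shear change of variables -/
theorem skew {F : ℝ → ℝ → ℝ} (hF : Continuous (Function.uncurry F))
    (hp : ∀ x y, F (x + 1) y = F x y) :
    ∫ x, ∫ y, F (x - y) y ∂mu ∂mu = ∫ x, ∫ y, F x y ∂mu ∂mu := by
  have h1 : Continuous (Function.uncurry fun x y : ℝ => F (x - y) y) := by
    have : (Function.uncurry fun x y : ℝ => F (x - y) y) =
      (Function.uncurry F) ∘ (fun p : ℝ × ℝ => (p.1 - p.2, p.2)) := by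
      ext p; rfl
    rw [this]
    exact hF.comp (by fun_prop)
  rw [swap h1, swap hF]
  congr 1
  funext y
  have := shift (f := fun x => F x y) (fun x => hp x y) (-y)
  simpa [sub_eq_add_neg] using this

section TwoD

variable {G : ℝ → ℝ → ℂ}

theorem cnorm {G : ℝ → ℝ → ℂ} (hG : Continuous (Function.uncurry G)) :
    Continuous (Function.uncurry fun s t => ‖G s t‖ ^ 2) := by
  have : (Function.uncurry fun s t => ‖G s t‖ ^ 2) = fun p : ℝ × ℝ => ‖Function.uncurry G p‖ ^ 2 := by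
    ext p; rfl
  rw [this]
  fun_prop

theorem cflip {E : Type*} [TopologicalSpace E] {G : ℝ → ℝ → E}
    (hG : Continuous (Function.uncurry G)) : Continuous (Function.uncurry fun t s => G s t) := by
  have : (Function.uncurry fun t s => G s t) = (Function.uncurry G) ∘ Prod.swap := by
    ext p; rfl
  rw [this]
  exact hG.comp continuous_swap

theorem cskew {E : Type*} [TopologicalSpace E] {G : ℝ → ℝ → E}
    (hG : Continuous (Function.uncurry G)) :
    Continuous (Function.uncurry fun x y => G (x - y) y) := by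
  have : (Function.uncurry fun x y : ℝ => G (x - y) y) =
      (Function.uncurry G) ∘ (fun p : ℝ × ℝ => (p.1 - p.2, p.2)) := by
    ext p; rfl
  rw [this]
  exact hG.comp (by fun_prop)

theorem cfix {E : Type*} [TopologicalSpace E] {G : ℝ → ℝ → E}
    (hG : Continuous (Function.uncurry G)) (s : ℝ) : Continuous (G s) := by
  have : G s = (Function.uncurry G) ∘ (fun t : ℝ => (s, t)) := by
    ext p; rfl
  rw [this]
  exact hG.comp (by fun_prop)

theorem cfix2 {E : Type*} [TopologicalSpace E] {G : ℝ → ℝ → E}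
    (hG : Continuous (Function.uncurry G)) (t : ℝ) : Continuous (fun s => G s t) :=
  cfix (cflip hG) t

/-- variance identity, integrated -/
theorem var2 (hG : Continuous (Function.uncurry G)) :
    ∫ s, ∫ t, ‖G s t‖ ^ 2 ∂mu ∂mu =
      ∫ s, ∫ t, ‖G s t - ∫ y, G s y ∂mu‖ ^ 2 ∂mu ∂mu + ∫ s, ‖∫ y, G s y ∂mu‖ ^ 2 ∂mu := by
  have hA : Continuous (fun s => ∫ y, G s y ∂mu) := cpar hG
  have hH : Continuous (Function.uncurry fun s t => G s t - ∫ y, G s y ∂mu) := by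
    have : (Function.uncurry fun s t => G s t - ∫ y, G s y ∂mu) =
        fun p : ℝ × ℝ => Function.uncurry G p - (fun s => ∫ y, G s y ∂mu) p.1 := by
      ext p; rfl
    rw [this]
    exact hG.sub (hA.comp continuous_fst)
  rw [← integral_add (ic (cpar (cnorm hH))) (ic (by fun_prop))]
  congr 1
  funext s
  exact var1 (cfix hG s)

/-- Bessel inequality for the three averages -/
theorem bessel (hG : Continuous (Function.uncurry G)) (hp1 : ∀ s t, G (s + 1) t = G s t)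
    (hp2 : ∀ s t, G s (t + 1) = G s t) (hm : ∫ s, ∫ t, G s t ∂mu ∂mu = 0) :
    ∫ s, ‖∫ t, G s t ∂mu‖ ^ 2 ∂mu + ∫ t, ‖∫ s, G s t ∂mu‖ ^ 2 ∂mu
      + ∫ x, ‖∫ y, G (x - y) y ∂mu‖ ^ 2 ∂mu ≤ ∫ s, ∫ t, ‖G s t‖ ^ 2 ∂mu ∂mu := by
  -- first projection
  have hA : Continuous (fun s => ∫ y, G s y ∂mu) := cpar hG
  set A : ℝ → ℂ := fun s => ∫ y, G s y ∂mu with hAdef
  have hApd : ∀ s, A (s + 1) = A s := fun s => by simp only [hAdef, hp1]
  have hB : Continuous (fun t => ∫ s, G s t ∂mu) := cpar (cflip hG)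
  set B : ℝ → ℂ := fun t => ∫ s, G s t ∂mu with hBdef
  have hBpd : ∀ s, B (s + 1) = B s := fun s => by simp only [hBdef, hp2]
  have hC : Continuous (fun x => ∫ y, G (x - y) y ∂mu) := cpar (cskew hG)
  have hA0 : ∫ s, A s ∂mu = 0 := hm
  have hB0 : ∫ t, B t ∂mu = 0 := by
    have := swap hG
    rw [hm] at this
    exact this.symm
  -- G1 = G - A
  have h1 := var2 hG
  have hG1 : Continuous (Function.uncurry fun s t => G s t - A s) := by
    have : (Function.uncurry fun s t => G s t - A s) =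
        fun p : ℝ × ℝ => Function.uncurry G p - A p.1 := by
      ext p; rfl
    rw [this]
    exact hG.sub (hA.comp continuous_fst)
  have hG2 : Continuous (Function.uncurry fun s t => G s t - A s - B t) := by
    have : (Function.uncurry fun s t => G s t - A s - B t) =
        fun p : ℝ × ℝ => Function.uncurry G p - A p.1 - B p.2 := by
      ext p; rfl
    rw [this]
    exact (hG.sub (hA.comp continuous_fst)).sub (hB.comp continuous_snd)
  have h2 := var2 (cflip hG1)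
  have e2 : ∀ t, ∫ s, (G s t - A s) ∂mu = B t := by
    intro t
    rw [integral_sub (ic (cfix2 hG t)) (ic hA), hA0, sub_zero]
  simp only [e2] at h2
  have h3 := var2 (cskew hG2)
  have e3 : ∀ x, ∫ y, (G (x - y) y - A (x - y) - B y) ∂mu = ∫ y, G (x - y) y ∂mu := by
    intro x
    have i1 : Integrable (fun y => G (x - y) y) mu := ic (cfix (cskew hG) x)
    have i2 : Integrable (fun y => A (x - y)) mu := ic (hA.comp (by fun_prop))
    have i3 : Integrable B mu := ic hB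
    have e4 : ∫ y, A (x - y) ∂mu = 0 := by
      rw [int_mu, intervalIntegral.integral_comp_sub_left]
      have hp' : Function.Periodic A 1 := hApd
      have h5 := hp'.intervalIntegral_add_eq (x - 1) 0
      rw [zero_add, sub_add_cancel] at h5
      rw [sub_zero, h5, ← int_mu]
      exact hA0
    have e5 : ∫ y, (G (x - y) y - A (x - y) - B y) ∂mu
        = ∫ y, (G (x - y) y - A (x - y)) ∂mu - ∫ y, B y ∂mu := integral_sub (i1.sub i2) i3
    rw [e5, integral_sub i1 i2, e4, hB0, sub_zero, sub_zero]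
  simp only [e3] at h3
  have h4 := skew (F := fun s t => ‖G s t - A s - B t‖ ^ 2) (cnorm hG2) (fun x y => by
    simp only [hp1, hApd])
  have h5 : 0 ≤ ∫ s, ∫ t, ‖G (s - t) t - A (s - t) - B t - ∫ y, G (s - y) y ∂mu‖ ^ 2 ∂mu ∂mu :=
    integral_nonneg fun s => integral_nonneg fun t => by positivity
  have h6 := swap (cnorm hG1)
  have h7 := swap (cnorm hG2)
  linarith

/-- Wirtinger, integrated over a parameter -/
theorem wirt2 {F F' : ℝ → ℝ → ℂ} (hF : Continuous (Function.uncurry F))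
    (hF' : Continuous (Function.uncurry F'))
    (hd : ∀ x y, HasDerivAt (F x) (F' x y) y) (hp : ∀ x, F x 1 = F x 0) :
    4 * Real.pi ^ 2 * ∫ x, ∫ y, ‖F x y‖ ^ 2 ∂mu ∂mu ≤
      ∫ x, ∫ y, ‖F' x y‖ ^ 2 ∂mu ∂mu + 4 * Real.pi ^ 2 * ∫ x, ‖∫ y, F x y ∂mu‖ ^ 2 ∂mu := by
  have hA : Continuous (fun s => ∫ y, F s y ∂mu) := cpar hF
  have i1 : Integrable (fun x => ∫ y, ‖F' x y‖ ^ 2 ∂mu) mu := ic (cpar (cnorm hF'))
  have i2 : Integrable (fun x => 4 * Real.pi ^ 2 * ‖∫ y, F x y ∂mu‖ ^ 2) mu :=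
    ic (by fun_prop)
  have i3 : Integrable (fun x => 4 * Real.pi ^ 2 * ∫ y, ‖F x y‖ ^ 2 ∂mu) mu :=
    ic (continuous_const.mul (cpar (cnorm hF)))
  rw [← integral_const_mul, ← integral_const_mul, ← integral_add i1 i2]
  exact integral_mono i3 (i1.add i2) fun x => wirt1 (hd x) (cfix hF' x) (hp x)

/-- square torus -/
theorem torus2 {Gs Gt : ℝ → ℝ → ℂ} (hG : Continuous (Function.uncurry G))
    (hGs : Continuous (Function.uncurry Gs)) (hGt : Continuous (Function.uncurry Gt))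
    (hs : ∀ s t, HasDerivAt (fun s => G s t) (Gs s t) s)
    (ht : ∀ s t, HasDerivAt (fun t => G s t) (Gt s t) t)
    (hp1 : ∀ s t, G (s + 1) t = G s t) (hp2 : ∀ s t, G s (t + 1) = G s t)
    (hm : ∫ s, ∫ t, G s t ∂mu ∂mu = 0) :
    4 * Real.pi ^ 2 * ∫ s, ∫ t, ‖G s t‖ ^ 2 ∂mu ∂mu ≤
      ∫ s, ∫ t, ‖Gs s t‖ ^ 2 ∂mu ∂mu + ∫ s, ∫ t, ‖Gt s t‖ ^ 2 ∂mu ∂mu := by
  have h1 := wirt2 hG hGt ht (fun x => by simpa using hp2 x 0)
  have h2 := wirt2 (cflip hG) (cflip hGs) (fun t s => hs s t) (fun x => by simpa using hp1 0 x)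
  have h3 := bessel hG hp1 hp2 hm
  have h4 := swap (cnorm hG)
  have h5 := swap (cnorm hGs)
  have h6 : 0 ≤ ∫ x, ‖∫ y, G (x - y) y ∂mu‖ ^ 2 ∂mu := integral_nonneg fun s => by positivity
  have hpi : 0 < 4 * Real.pi ^ 2 := by positivity
  have h7 : 4 * Real.pi ^ 2 * (∫ s, ‖∫ t, G s t ∂mu‖ ^ 2 ∂mu + ∫ t, ‖∫ s, G s t ∂mu‖ ^ 2 ∂mu)
      ≤ 4 * Real.pi ^ 2 * ∫ s, ∫ t, ‖G s t‖ ^ 2 ∂mu ∂mu :=
    mul_le_mul_of_nonneg_left (by linarith) hpi.le
  rw [← h4, ← h5] at h2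
  linarith

/-- hexagonal torus -/
theorem torus3 {Gs Gt Gd : ℝ → ℝ → ℂ} (hG : Continuous (Function.uncurry G))
    (hGs : Continuous (Function.uncurry Gs)) (hGt : Continuous (Function.uncurry Gt))
    (hGd : Continuous (Function.uncurry Gd))
    (hs : ∀ s t, HasDerivAt (fun s => G s t) (Gs s t) s)
    (ht : ∀ s t, HasDerivAt (fun t => G s t) (Gt s t) t)
    (hd : ∀ x y, HasDerivAt (fun y => G (x - y) y) (Gd (x - y) y) y)
    (hp1 : ∀ s t, G (s + 1) t = G s t) (hp2 : ∀ s t, G s (t + 1) = G s t)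
    (hp3 : ∀ s t, Gd (s + 1) t = Gd s t)
    (hm : ∫ s, ∫ t, G s t ∂mu ∂mu = 0) :
    8 * Real.pi ^ 2 * ∫ s, ∫ t, ‖G s t‖ ^ 2 ∂mu ∂mu ≤
      ∫ s, ∫ t, ‖Gs s t‖ ^ 2 ∂mu ∂mu + ∫ s, ∫ t, ‖Gt s t‖ ^ 2 ∂mu ∂mu
        + ∫ s, ∫ t, ‖Gd s t‖ ^ 2 ∂mu ∂mu := by
  have h1 := wirt2 hG hGt ht (fun x => by simpa using hp2 x 0)
  have h2 := wirt2 (cflip hG) (cflip hGs) (fun t s => hs s t) (fun x => by simpa using hp1 0 x)
  have h8 := wirt2 (cskew hG) (cskew hGd) hd (fun x => by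
    have e1 := hp1 (x - 1) 1
    have e2 := hp2 x 0
    rw [sub_add_cancel] at e1
    rw [zero_add] at e2
    simp only [sub_zero]
    rw [← e1, e2])
  have h3 := bessel hG hp1 hp2 hm
  have h4 := swap (cnorm hG)
  have h5 := swap (cnorm hGs)
  have h9 := skew (F := fun s t => ‖G s t‖ ^ 2) (cnorm hG) (fun x y => by simp only [hp1])
  have h10 := skew (F := fun s t => ‖Gd s t‖ ^ 2) (cnorm hGd) (fun x y => by simp only [hp3])
  have hpi : 0 < 4 * Real.pi ^ 2 := by positivity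
  have h7 : 4 * Real.pi ^ 2 * (∫ s, ‖∫ t, G s t ∂mu‖ ^ 2 ∂mu + ∫ t, ‖∫ s, G s t ∂mu‖ ^ 2 ∂mu
      + ∫ x, ‖∫ y, G (x - y) y ∂mu‖ ^ 2 ∂mu)
      ≤ 4 * Real.pi ^ 2 * ∫ s, ∫ t, ‖G s t‖ ^ 2 ∂mu ∂mu :=
    mul_le_mul_of_nonneg_left h3 hpi.le
  rw [← h4, ← h5] at h2
  rw [h9, h10] at h8
  linarith

end TwoD

/-! ### translation -/

theorem cellInt_ofReal {τ ν : ℂ} {φ : Pt → ℝ} {r : ℝ} (h0 : ∀ p, 0 ≤ φ p)
    (hc : Continuous (Function.uncurry fun s t : ℝ => φ (ν * (s + t * τ), r))) :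
    cellInt τ ν (fun p => ENNReal.ofReal (φ p)) r
      = ENNReal.ofReal (∫ s, ∫ t, φ (ν * (s + t * τ), r) ∂mu ∂mu) := by
  unfold cellInt
  rw [ofReal_integral_eq_lintegral_ofReal (ic (cpar hc))
    (Filter.Eventually.of_forall fun s => integral_nonneg fun t => h0 _)]
  congr 1
  funext s
  rw [ofReal_integral_eq_lintegral_ofReal (ic (cfix hc s))
    (Filter.Eventually.of_forall fun t => h0 _)]

theorem add3 {f g h : ℝ → ℝ} (hf : Continuous f) (hg : Continuous g) (hh : Continuous h) :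
    ∫ x, f x ∂mu + ∫ x, g x ∂mu + ∫ x, h x ∂mu = ∫ x, (f x + g x + h x) ∂mu := by
  rw [integral_add (f := fun x => f x + g x) (ic (hf.add hg)) (ic hh), integral_add (ic hf) (ic hg)]

theorem isOpen_UH : IsOpen UH := isOpen_lt continuous_const continuous_snd

section Tr

variable {u : Pt → ℂ} (hu : ContDiffOn ℝ 1 u UH) {ν τ : ℂ} {r : ℝ} (hr : 0 < r)

/-- the parametrisation of the cell -/
noncomputable def cp (ν τ : ℂ) (r : ℝ) (s t : ℝ) : Pt := (ν * (s + t * τ), r)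

theorem cp_mem {ν τ : ℂ} {r : ℝ} (hr : 0 < r) (s t : ℝ) : cp ν τ r s t ∈ UH := hr

theorem cp_cont (ν τ : ℂ) (r : ℝ) : Continuous (fun p : ℝ × ℝ => cp ν τ r p.1 p.2) := by
  unfold cp
  fun_prop

include hu hr in
theorem u_cont : Continuous (Function.uncurry fun s t => u (cp ν τ r s t)) := by
  have : (Function.uncurry fun s t => u (cp ν τ r s t)) =
      u ∘ (fun p : ℝ × ℝ => cp ν τ r p.1 p.2) := by ext p; rfl
  rw [this]
  exact hu.continuousOn.comp_continuous (cp_cont ν τ r) (fun p => cp_mem hr _ _)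

include hu hr in
theorem du_cont (w : Pt) :
    Continuous (Function.uncurry fun s t => fderiv ℝ u (cp ν τ r s t) w) := by
  have h1 : Continuous (fun p : ℝ × ℝ => fderiv ℝ u (cp ν τ r p.1 p.2)) :=
    (hu.continuousOn_fderiv_of_isOpen isOpen_UH le_rfl).comp_continuous (cp_cont ν τ r)
      (fun p => cp_mem hr _ _)
  have : (Function.uncurry fun s t => fderiv ℝ u (cp ν τ r s t) w) =
      (fun p : ℝ × ℝ => fderiv ℝ u (cp ν τ r p.1 p.2) w) := by ext p; rfl
  rw [this]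
  exact h1.clm_apply continuous_const

include hu hr in
theorem du_hasFDerivAt (s t : ℝ) :
    HasFDerivAt u (fderiv ℝ u (cp ν τ r s t)) (cp ν τ r s t) :=
  ((hu.contDiffAt (isOpen_UH.mem_nhds (cp_mem hr s t))).differentiableAt
    (by norm_num)).hasFDerivAt

include hu hr in
theorem du_s (s t : ℝ) : HasDerivAt (fun s => u (cp ν τ r s t))
    (fderiv ℝ u (cp ν τ r s t) (ν, 0)) s := by
  have h1 : HasDerivAt (fun s : ℝ => cp ν τ r s t) (ν, 0) s := by
    unfold cp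
    have h2 : HasDerivAt (fun s : ℝ => ν * ((s : ℂ) + t * τ)) ν s := by
      have := ((Complex.ofRealCLM.hasDerivAt (x := s)).add_const ((t : ℂ) * τ)).const_mul ν
      simpa using this
    exact h2.prodMk (hasDerivAt_const s r)
  exact (du_hasFDerivAt hu hr s t).comp_hasDerivAt s h1

include hu hr in
theorem du_t (s t : ℝ) : HasDerivAt (fun t => u (cp ν τ r s t))
    (fderiv ℝ u (cp ν τ r s t) (ν * τ, 0)) t := by
  have h1 : HasDerivAt (fun t : ℝ => cp ν τ r s t) (ν * τ, 0) t := by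
    unfold cp
    have h2 : HasDerivAt (fun t : ℝ => ν * ((s : ℂ) + t * τ)) (ν * τ) t := by
      have := (((Complex.ofRealCLM.hasDerivAt (x := t)).mul_const τ).const_add
        (s : ℂ)).const_mul ν
      simpa using this
    exact h2.prodMk (hasDerivAt_const t r)
  exact (du_hasFDerivAt hu hr s t).comp_hasDerivAt t h1

include hu hr in
theorem du_d (x y : ℝ) : HasDerivAt (fun y => u (cp ν τ r (x - y) y))
    (fderiv ℝ u (cp ν τ r (x - y) y) (ν * (τ - 1), 0)) y := by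
  have h1 : HasDerivAt (fun y : ℝ => cp ν τ r (x - y) y) (ν * (τ - 1), 0) y := by
    unfold cp
    have h2 : HasDerivAt (fun y : ℝ => ν * (((x - y : ℝ) : ℂ) + y * τ)) (ν * (τ - 1)) y := by
      have h3 := ((Complex.ofRealCLM.hasDerivAt (x := y)).const_sub (x : ℂ)).add
        ((Complex.ofRealCLM.hasDerivAt (x := y)).mul_const τ)
      have h4 := h3.const_mul ν
      have e : (fun y : ℝ => ν * (((x - y : ℝ) : ℂ) + y * τ)) =
          fun y : ℝ => ν * (((x : ℂ) - Complex.ofRealCLM y) + Complex.ofRealCLM y * τ) := by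
        funext y; simp
      rw [e]
      have e2 : ν * (τ - 1) = ν * (-(Complex.ofRealCLM 1) + Complex.ofRealCLM 1 * τ) := by
        rw [Complex.ofRealCLM_apply]; push_cast; ring
      rw [e2]
      exact h4
    exact h2.prodMk (hasDerivAt_const y r)
  exact HasFDerivAt.comp_hasDerivAt (f := fun y => cp ν τ r (x - y) y) y
    (du_hasFDerivAt hu hr (x - y) y) h1

theorem du_dir (p : Pt) (w : ℂ) :
    fderiv ℝ u p (w, 0) = (w.re : ℂ) * pd e1 u p + (w.im : ℂ) * pd e2 u p := by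
  have : ((w, 0) : Pt) = w.re • e1 + w.im • e2 := by
    unfold e1 e2
    ext
    · simp
    · simp
  rw [this, map_add, map_smul, map_smul]
  unfold pd
  simp

end Tr

theorem per_s {τ ν : ℂ} {u : Pt → ℂ} (hper : ∀ x ∈ intRing τ, ∀ p ∈ UH, u (p.1 + ν * x, p.2) = u p)
    {r : ℝ} (hr : 0 < r) (s t : ℝ) : u (cp ν τ r (s + 1) t) = u (cp ν τ r s t) := by
  have := hper 1 (intRing τ).one_mem (cp ν τ r s t) (cp_mem hr s t)
  rw [← this]
  unfold cp
  congr 2
  push_cast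
  ring

theorem per_t {τ ν : ℂ} {u : Pt → ℂ} (hper : ∀ x ∈ intRing τ, ∀ p ∈ UH, u (p.1 + ν * x, p.2) = u p)
    {r : ℝ} (hr : 0 < r) (s t : ℝ) : u (cp ν τ r s (t + 1)) = u (cp ν τ r s t) := by
  have := hper τ (Subring.subset_closure (Set.mem_singleton τ)) (cp ν τ r s t) (cp_mem hr s t)
  rw [← this]
  unfold cp
  congr 2
  push_cast
  ring

theorem per_du {τ ν : ℂ} {u : Pt → ℂ}
    (hper : ∀ x ∈ intRing τ, ∀ p ∈ UH, u (p.1 + ν * x, p.2) = u p)
    {r : ℝ} (hr : 0 < r) (s t : ℝ) :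
    fderiv ℝ u (cp ν τ r (s + 1) t) = fderiv ℝ u (cp ν τ r s t) := by
  have h1 : (fun p : Pt => u (p + (ν, 0))) =ᶠ[𝓝 (cp ν τ r s t)] u := by
    filter_upwards [isOpen_UH.mem_nhds (cp_mem hr s t)] with p hp
    have := hper 1 (intRing τ).one_mem p hp
    rw [← this]
    congr 1
    ext <;> simp
  have h2 := h1.fderiv_eq (𝕜 := ℝ)
  rw [fderiv_comp_add_right] at h2
  rw [← h2]
  congr 1
  unfold cp
  simp only [Prod.mk_add_mk, add_zero]
  congr 1
  push_cast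
  ring

theorem wirtinger_gauss {ν : ℂ} (hν0 : ν ≠ 0) {u : Pt → ℂ} (hu : ContDiffOn ℝ 1 u UH)
    (hper : ∀ x ∈ intRing I, ∀ p ∈ UH, u (p.1 + ν * x, p.2) = u p) {r : ℝ} (hr : 0 < r)
    (hmean : ∫ s in (0 : ℝ)..1, ∫ t in (0 : ℝ)..1, u (ν * (s + t * I), r) = 0) :
    ENNReal.ofReal (4 * Real.pi ^ 2 / ‖ν‖ ^ 2) *
        cellInt I ν (fun p => ENNReal.ofReal (‖u p‖ ^ 2)) r
      ≤ cellInt I ν (fun p => ENNReal.ofReal (‖pd e1 u p‖ ^ 2 + ‖pd e2 u p‖ ^ 2)) r := by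
  have hν : 0 < ‖ν‖ ^ 2 := by positivity
  have c0 := u_cont hu hr (ν := ν) (τ := I)
  have c1 := du_cont hu hr (ν := ν) (τ := I) (ν, 0)
  have c2 := du_cont hu hr (ν := ν) (τ := I) (ν * I, 0)
  have ce1 := du_cont hu hr (ν := ν) (τ := I) e1
  have ce2 := du_cont hu hr (ν := ν) (τ := I) e2
  have c3 : Continuous (Function.uncurry fun s t : ℝ =>
      ‖pd e1 u (cp ν I r s t)‖ ^ 2 + ‖pd e2 u (cp ν I r s t)‖ ^ 2) :=
    (cnorm ce1).add (cnorm ce2)
  have hm : ∫ s, ∫ t, u (cp ν I r s t) ∂mu ∂mu = 0 := by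
    simp only [int_mu]
    exact hmean
  have key := torus2 c0 c1 c2 (fun s t => du_s hu hr s t) (fun s t => du_t hu hr s t)
    (fun s t => per_s hper hr s t) (fun s t => per_t hper hr s t) hm
  have e : ∫ s, ∫ t, ‖fderiv ℝ u (cp ν I r s t) (ν, 0)‖ ^ 2 ∂mu ∂mu
      + ∫ s, ∫ t, ‖fderiv ℝ u (cp ν I r s t) (ν * I, 0)‖ ^ 2 ∂mu ∂mu
      = ‖ν‖ ^ 2 * ∫ s, ∫ t, (‖pd e1 u (cp ν I r s t)‖ ^ 2 + ‖pd e2 u (cp ν I r s t)‖ ^ 2)
        ∂mu ∂mu := by
    rw [← integral_add (ic (cpar (cnorm c1))) (ic (cpar (cnorm c2))), ← integral_const_mul]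
    congr 1
    funext s
    rw [← integral_add (ic (cfix (cnorm c1) s)) (ic (cfix (cnorm c2) s)), ← integral_const_mul]
    congr 1
    funext t
    rw [du_dir, du_dir]
    simp only [← Complex.normSq_eq_norm_sq, Complex.normSq_apply, Complex.add_re, Complex.add_im,
      Complex.mul_re, Complex.mul_im, Complex.ofReal_re, Complex.ofReal_im, Complex.I_re,
      Complex.I_im]
    ring
  rw [e] at key
  rw [cellInt_ofReal (φ := fun p => ‖u p‖ ^ 2) (fun p => by positivity) (cnorm c0),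
    cellInt_ofReal (φ := fun p => ‖pd e1 u p‖ ^ 2 + ‖pd e2 u p‖ ^ 2) (fun p => by positivity) c3,
    ← ENNReal.ofReal_mul (by positivity)]
  apply ENNReal.ofReal_le_ofReal
  rw [div_mul_eq_mul_div, div_le_iff₀ hν]
  calc _ ≤ _ := key
    _ = _ := by rw [mul_comm]; rfl

theorem wirtinger_eisenstein {ν : ℂ} (hν0 : ν ≠ 0) {u : Pt → ℂ} (hu : ContDiffOn ℝ 1 u UH)
    (hper : ∀ x ∈ intRing omega, ∀ p ∈ UH, u (p.1 + ν * x, p.2) = u p) {r : ℝ} (hr : 0 < r)
    (hmean : ∫ s in (0 : ℝ)..1, ∫ t in (0 : ℝ)..1, u (ν * (s + t * omega), r) = 0) :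
    ENNReal.ofReal (4 / 3 * (4 * Real.pi ^ 2) / ‖ν‖ ^ 2) *
        cellInt omega ν (fun p => ENNReal.ofReal (‖u p‖ ^ 2)) r
      ≤ cellInt omega ν (fun p => ENNReal.ofReal (‖pd e1 u p‖ ^ 2 + ‖pd e2 u p‖ ^ 2)) r := by
  have hν : 0 < ‖ν‖ ^ 2 := by positivity
  have c0 := u_cont hu hr (ν := ν) (τ := omega)
  have c1 := du_cont hu hr (ν := ν) (τ := omega) (ν, 0)
  have c2 := du_cont hu hr (ν := ν) (τ := omega) (ν * omega, 0)
  have c4 := du_cont hu hr (ν := ν) (τ := omega) (ν * (omega - 1), 0)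
  have ce1 := du_cont hu hr (ν := ν) (τ := omega) e1
  have ce2 := du_cont hu hr (ν := ν) (τ := omega) e2
  have c3 : Continuous (Function.uncurry fun s t : ℝ =>
      ‖pd e1 u (cp ν omega r s t)‖ ^ 2 + ‖pd e2 u (cp ν omega r s t)‖ ^ 2) :=
    (cnorm ce1).add (cnorm ce2)
  have hm : ∫ s, ∫ t, u (cp ν omega r s t) ∂mu ∂mu = 0 := by
    simp only [int_mu]
    exact hmean
  have key := torus3 c0 c1 c2 c4 (fun s t => du_s hu hr s t) (fun s t => du_t hu hr s t)
    (fun x y => du_d hu hr x y) (fun s t => per_s hper hr s t) (fun s t => per_t hper hr s t)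
    (fun s t => by rw [per_du hper hr s t]) hm
  have ore : omega.re = 1 / 2 := by simp [omega]
  have oim : omega.im = Real.sqrt 3 / 2 := by simp [omega]
  have h3 : Real.sqrt 3 ^ 2 = 3 := Real.sq_sqrt (by norm_num)
  have e : ∫ s, ∫ t, ‖fderiv ℝ u (cp ν omega r s t) (ν, 0)‖ ^ 2 ∂mu ∂mu
      + ∫ s, ∫ t, ‖fderiv ℝ u (cp ν omega r s t) (ν * omega, 0)‖ ^ 2 ∂mu ∂mu
      + ∫ s, ∫ t, ‖fderiv ℝ u (cp ν omega r s t) (ν * (omega - 1), 0)‖ ^ 2 ∂mu ∂mu
      = (3 / 2 * ‖ν‖ ^ 2) * ∫ s, ∫ t, (‖pd e1 u (cp ν omega r s t)‖ ^ 2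
        + ‖pd e2 u (cp ν omega r s t)‖ ^ 2) ∂mu ∂mu := by
    rw [add3 (cpar (cnorm c1)) (cpar (cnorm c2)) (cpar (cnorm c4)), ← integral_const_mul]
    congr 1
    funext s
    rw [add3 (cfix (cnorm c1) s) (cfix (cnorm c2) s) (cfix (cnorm c4) s), ← integral_const_mul]
    congr 1
    funext t
    rw [du_dir, du_dir, du_dir]
    simp only [← Complex.normSq_eq_norm_sq, Complex.normSq_apply, Complex.add_re, Complex.add_im,
      Complex.mul_re, Complex.mul_im, Complex.ofReal_re, Complex.ofReal_im, Complex.sub_re,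
      Complex.sub_im, Complex.one_re, Complex.one_im, ore, oim]
    linear_combination (ν.im ^ 2 / 2 * ((pd e1 u (cp ν omega r s t)).re ^ 2
      + (pd e1 u (cp ν omega r s t)).im ^ 2) + ν.re ^ 2 / 2 *
      ((pd e2 u (cp ν omega r s t)).re ^ 2 + (pd e2 u (cp ν omega r s t)).im ^ 2)
      - ν.re * ν.im * ((pd e1 u (cp ν omega r s t)).re * (pd e2 u (cp ν omega r s t)).re
      + (pd e1 u (cp ν omega r s t)).im * (pd e2 u (cp ν omega r s t)).im)) * h3
  rw [e] at key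
  rw [cellInt_ofReal (φ := fun p => ‖u p‖ ^ 2) (fun p => by positivity) (cnorm c0),
    cellInt_ofReal (φ := fun p => ‖pd e1 u p‖ ^ 2 + ‖pd e2 u p‖ ^ 2) (fun p => by positivity) c3,
    ← ENNReal.ofReal_mul (by positivity)]
  apply ENNReal.ofReal_le_ofReal
  rw [div_mul_eq_mul_div, div_le_iff₀ hν]
  have key2 : 8 * Real.pi ^ 2 * ∫ s, ∫ t, ‖u (ν * (s + t * omega), r)‖ ^ 2 ∂mu ∂mu ≤
      (3 / 2 * ‖ν‖ ^ 2) * ∫ s : ℝ, ∫ t : ℝ, (‖pd e1 u (ν * (s + t * omega), r)‖ ^ 2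
        + ‖pd e2 u (ν * (s + t * omega), r)‖ ^ 2) ∂mu ∂mu := key
  linarith

end Pool.Agent.Helper44.Ram
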