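import Pool.Agent.Helper44.JefMain

open MeasureTheory Set Filter Topology
open scoped ENNReal ContDiff Convolution

namespace Pool.Agent.Helper44.Jef
open Pool.Agent.Helper42.Jef

/-- M12 of the blueprint: variance inequality from the representation; the part of `tv_main` (M3)
which is needed is the hypothesis `tv_main`. -/
theorem star_of_tv (n : ℕ) (tv_main : ∀ (u : ℕ → ST n → Mt n) (U : ST n → Mt n)
      (uk : ℕ → ST n → Mt n) (ak : ℕ → ST n → ℝ), TV volume u U uk ak →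
      (∀ k, Integrable (ak k)) ∧
      Tendsto (fun k => eLpNorm (fun x => uk k x - U x) 2 volume) atTop (𝓝 0))
    (A : ℝ) (C : ℝ → ℝ) : ∃ A' : ℝ, 0 ≤ A' ∧
    ∀ (g : ℕ → ST n → Mt n) (gl : ST n → Mt n) (gk : ℕ → ST n → Mt n) (ga : ℕ → ST n → ℝ)
      (t : ℕ → ST n → Mt n) (tl : ST n → Mt n) (tk : ℕ → ST n → Mt n) (ta : ℕ → ST n → ℝ)
      (V θ : ST n → ℝ),
    TV volume g gl gk ga → TV volume t tl tk ta → Integrable V → Integrable θ →
    Tendsto (fun k => ∫ z, |ga k z - ‖gk k z‖ ^ 2 - V z|) atTop (𝓝 0) →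
    Tendsto (fun k => ∫ z, |ta k z - ‖tk k z‖ ^ 2 - θ z|) atTop (𝓝 0) →
    ∀ (χ : ST n → ℝ), Continuous χ → HasCompactSupport χ →
    ∀ κ : ℕ → (Fin n × Fin n) → (Fin n × Fin n) → ST n → ℝ,
    (∀ m p q, Integrable (κ m p q)) →
    (∀ m p q, ∀ u : ST n → ℝ, Integrable u → MemLp u 2 →
      eLpNorm (cv (κ m p q) u) 2 volume ≤ ENNReal.ofReal A * eLpNorm u 2 volume) →
    (∀ m p q, ∀ u : ST n → ℝ, Integrable u → MemLp u 2 → ∫ z, |u z| ≤ 1 → ∀ s > 0,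
      volume {z | s < |cv (κ m p q) u z|} ≤ ENNReal.ofReal (C s * ∫ z, |u z|)) →
    (∀ s : ℝ, 0 < s → Tendsto (fun m => volume {z | χ z ≠ 0 ∧
      s < ‖χ z • (g m z - gl z) - KK (κ m) (fun y => χ y • (t m y - tl y)) z‖})
      atTop (𝓝 0)) →
    ∫ z, χ z ^ 2 * V z ≤ A' * ∫ z, χ z ^ 2 * θ z := by
  refine ⟨(n * n : ℝ) ^ 2 * (max A 0) ^ 2, by positivity, ?_⟩
  intro g gl gk ga t tl tk ta V θ hg ht hV hθ hVc hθc χ hχ hχc κ hκ hA hC hrest
  obtain ⟨hgai, hgL2⟩ := tv_main _ _ _ _ hg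
  obtain ⟨htai, htL2⟩ := tv_main _ _ _ _ ht
  obtain ⟨B0, hB0⟩ := hχ.bounded_above_of_compact_support hχc
  set B := max B0 0 with hBdef
  have hBnn : 0 ≤ B := le_max_right _ _
  have hB : ∀ z, |χ z| ≤ B := fun z => by
    rw [← Real.norm_eq_abs]; exact (hB0 z).trans (le_max_left _ _)
  have hχm : AEStronglyMeasurable χ volume := hχ.aestronglyMeasurable
  have hχL2 : MemLp χ 2 volume := hχ.memLp_of_hasCompactSupport hχc
  have hχ2 : MemLp (fun x => χ x ^ 2) 2 volume := by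
    have h1 : (fun x => χ x ^ 2) = fun x => χ x • χ x := by
      funext x; rw [smul_eq_mul, sq]
    rw [h1]
    exact memLp_wt hχL2 hχm hB
  obtain ⟨C0, hC0⟩ := ht.w.bdd
  set c0 := B * (max C0 0) ^ 2 with hc0def
  have hc0 : ∀ m, B * ∫ z, ‖t m z‖ ^ 2 ≤ c0 := fun m =>
    mul_le_mul_of_nonneg_left (int_sq_le (ht.w.mem m) (hC0 m)) hBnn
  set A1 := (n * n : ℝ) ^ 2 * (max A 0) ^ 2 with hA1
  set Θ := ∫ z, χ z ^ 2 * θ z with hΘ
  set v0 := (volume {z | χ z ≠ 0}).toReal with hv0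
  obtain ⟨hLt, -⟩ := quad_lim ht hχm hB hθ htai htL2 hθc
  obtain ⟨-, hPg⟩ := quad_lim hg hχm hB hV hgai hgL2 hVc
  have hglm : MemLp gl 2 volume := hg.w.memU
  have htlm : MemLp tl 2 volume := ht.w.memU
  -- step A
  have stepA : ∀ (i j : ℕ), c0 ≤ (j : ℝ) + 1 → ∀ (s l : ℝ), 0 < s → 0 < l →
      ∫ x, χ x ^ 2 * (ga i x - ‖gk i x‖ ^ 2) ≤
      (1 + l) * (A1 * ((∫ x, χ x ^ 2 * ta j x) -
        2 * (∫ x, χ x ^ 2 * inner ℝ (tk j x) (tl x)) + ∫ x, χ x ^ 2 * ‖tl x‖ ^ 2)) +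
      (1 + 1 / l) * (4 * s ^ 2) * v0 +
      (2 * ((i : ℝ) + 1) * B) ^ 2 * ((n * n : ℝ) ^ 2 *
        (max (C (s / ((n * n : ℝ) ^ 2 + 1))) 0 * (c0 / ((j : ℝ) + 1))) + 0) := by
    intro i j hj s l hs hl
    have hw := bk_mem hglm ((i : ℝ) + 1)
    refine (quad_lower hg hχm hB hw hgai i).trans ?_
    have hlim1 := quad_conv hg hχ2 hχm hB hw i
    have hlim2 := quad_conv ht hχ2 hχm hB htlm j
    have hlim3 : Tendsto (fun m => (volume {z | χ z ≠ 0 ∧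
      s < ‖χ z • (g m z - gl z) - KK (κ m) (fun y => χ y • (t m y - tl y)) z‖}).toReal)
      atTop (𝓝 0) := by
      have := (ENNReal.tendsto_toReal ENNReal.zero_ne_top).comp (hrest s hs)
      exact this
    have hrhs := ((((hlim2.const_mul A1).const_mul (1 + l))).add_const
      ((1 + 1 / l) * (4 * s ^ 2) * v0)).add ((hlim3.const_add ((n * n : ℝ) ^ 2 *
        (max (C (s / ((n * n : ℝ) ^ 2 + 1))) 0 * (c0 / ((j : ℝ) + 1))))).const_mul
        ((2 * ((i : ℝ) + 1) * B) ^ 2))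
    refine le_of_tendsto_of_tendsto' hlim1 hrhs fun m => ?_
    exact main_ineq (hκ m) (hA m) (hC m) (hg.w.mem m) hglm (ht.w.mem m) htlm hχ hχc hBnn hB i j
      (hc0 m) hj hs hl
  -- step B
  have stepB : ∀ (i : ℕ) (s l : ℝ), 0 < s → 0 < l →
      ∫ x, χ x ^ 2 * (ga i x - ‖gk i x‖ ^ 2) ≤
      (1 + l) * (A1 * Θ) + (1 + 1 / l) * (4 * s ^ 2) * v0 := by
    intro i s l hs hl
    have hD : Tendsto (fun j : ℕ => c0 / ((j : ℝ) + 1)) atTop (𝓝 0) :=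
      tendsto_const_div_atTop_nhds_zero_nat c0 |>.comp (tendsto_add_atTop_nat 1) |>.congr
        fun j => by simp
    have h1 := (((hLt.const_mul A1).const_mul (1 + l)).add_const
      ((1 + 1 / l) * (4 * s ^ 2) * v0)).add ((((hD.const_mul
        (max (C (s / ((n * n : ℝ) ^ 2 + 1))) 0)).const_mul ((n * n : ℝ) ^ 2)).add_const
        0).const_mul ((2 * ((i : ℝ) + 1) * B) ^ 2))
    have h2 : ∀ᶠ j : ℕ in atTop, c0 ≤ (j : ℝ) + 1 := by
      obtain ⟨N, hN⟩ := exists_nat_ge c0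
      filter_upwards [eventually_ge_atTop N] with j hj
      have : (N : ℝ) ≤ j := by exact_mod_cast hj
      linarith
    have h3 := ge_of_tendsto h1 (h2.mono fun j hj => stepA i j hj s l hs hl)
    simpa using h3
  -- step C
  have hseq : Tendsto (fun k : ℕ => 1 / ((k : ℝ) + 1)) atTop (𝓝 0) :=
    tendsto_one_div_add_atTop_nhds_zero_nat
  have stepC : ∀ (i : ℕ) (l : ℝ), 0 < l →
      ∫ x, χ x ^ 2 * (ga i x - ‖gk i x‖ ^ 2) ≤ (1 + l) * (A1 * Θ) := by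
    intro i l hl
    have h1 : Tendsto (fun k : ℕ => (1 + l) * (A1 * Θ) +
        (1 + 1 / l) * (4 * (1 / ((k : ℝ) + 1)) ^ 2) * v0) atTop (𝓝 ((1 + l) * (A1 * Θ) +
        (1 + 1 / l) * (4 * 0 ^ 2) * v0)) :=
      ((((hseq.pow 2).const_mul 4).const_mul (1 + 1 / l)).mul_const v0).const_add _
    have h2 := ge_of_tendsto' h1 fun k => stepB i (1 / ((k : ℝ) + 1)) l (by positivity) hl
    simpa using h2
  -- step D
  have stepD : ∀ i : ℕ, ∫ x, χ x ^ 2 * (ga i x - ‖gk i x‖ ^ 2) ≤ A1 * Θ := by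
    intro i
    have h1 : Tendsto (fun k : ℕ => (1 + 1 / ((k : ℝ) + 1)) * (A1 * Θ)) atTop
        (𝓝 ((1 + 0) * (A1 * Θ))) := (hseq.const_add 1).mul_const _
    have h2 := ge_of_tendsto' h1 fun k => stepC i (1 / ((k : ℝ) + 1)) (by positivity)
    simpa using h2
  exact le_of_tendsto' hPg stepD

end Pool.Agent.Helper44.Jef
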