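import Pool.Agent.Helper42.Jef.Weak
import Pool.Agent.Helper42.Jef.Defs4

/-! # Diagonal weak compactness on growing time intervals -/

open MeasureTheory Set Filter Topology
open scoped ENNReal ContDiff

namespace Pool.Agent.Helper44.Diag
open Pool.Agent.Helper42.Jef

variable {n : ℕ}

theorem rs_eq {E : Type*} [NormedAddCommGroup E] [NormedSpace ℝ E] (T : ℝ) (u : ST n → E) :
    rs T u = fun z => (Ioo 0 T).indicator (fun _ => (1 : ℝ)) z.1 • u z := by
  funext z
  by_cases h : z.1 ∈ Ioo 0 T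
  · simp only [rs, indicator_of_mem h, one_smul, Prod.mk.eta]
  · simp only [rs, indicator_of_notMem h, zero_smul]

theorem rs_rs {E : Type*} [Zero E] {S T : ℝ} (h : S ≤ T) (u : ST n → E) :
    rs S (rs T u) = rs S u := by
  funext z
  by_cases hz : z.1 ∈ Ioo 0 S
  · have hz' : z.1 ∈ Ioo 0 T := ⟨hz.1, hz.2.trans_le h⟩
    simp only [rs, indicator_of_mem hz, indicator_of_mem hz']
  · simp only [rs, indicator_of_notMem hz]

theorem rs_mem {E : Type*} [Zero E] {T : ℝ} {z : ST n} (h : z.1 ∈ Ioo 0 T) (u : ST n → E) :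
    rs T u z = u z := by
  simp only [rs, indicator_of_mem h, Prod.mk.eta]

theorem rs_notMem {E : Type*} [Zero E] {T : ℝ} {z : ST n} (h : z.1 ∉ Ioo 0 T) (u : ST n → E) :
    rs T u z = 0 := by
  simp only [rs, indicator_of_notMem h]

theorem wc_rs {E : Type*} [NormedAddCommGroup E] [InnerProductSpace ℝ E] [FiniteDimensional ℝ E]
    {us : ℕ → ST n → E} {U : ST n → E} (h : WC volume us U) (S : ℝ) :
    WC volume (fun m => rs S (us m)) (rs S U) := by
  have h1 := wc_weight h (ζ := fun z => (Ioo 0 S).indicator (fun _ => (1 : ℝ)) z.1)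
    (((measurable_const.indicator measurableSet_Ioo).comp measurable_fst).aestronglyMeasurable)
    (C := 1) (fun z => by
      by_cases hz : z.1 ∈ Ioo 0 S
      · simp only [indicator_of_mem hz, abs_one, le_refl]
      · simp only [indicator_of_notMem hz, abs_zero, zero_le_one])
  rw [rs_eq]
  simpa only [rs_eq] using h1

/-- F2: diagonal weak compactness on growing time intervals -/
theorem diag_compact {ι : Type*} [Finite ι] {E : ι → Type*} [∀ i, NormedAddCommGroup (E i)]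
    [∀ i, InnerProductSpace ℝ (E i)] [∀ i, FiniteDimensional ℝ (E i)]
    (u : (i : ι) → ℕ → ST n → E i) (hm : ∀ i (T : ℕ) m, MemLp (rs (T : ℝ) (u i m)) 2 volume)
    (hb : ∀ i (T : ℕ), ∃ C : ℝ, ∀ m, eLpNorm (rs (T : ℝ) (u i m)) 2 volume ≤ ENNReal.ofReal C) :
    ∃ φ : ℕ → ℕ, StrictMono φ ∧ ∃ U : (i : ι) → ST n → E i, ∀ i (T : ℕ),
      WC volume (fun m => rs (T : ℝ) (u i (φ m))) (rs (T : ℝ) (U i)) := by
  classical
  have := Fintype.ofFinite ι
  have : ∀ i, CompleteSpace (E i) := fun i => FiniteDimensional.complete ℝ (E i)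
  let J : (i : ι) → E i →L[ℝ] PiLp 2 E := fun i =>
    ((PiLp.continuousLinearEquiv 2 ℝ E).symm : (∀ i, E i) →L[ℝ] PiLp 2 E).comp
      (ContinuousLinearMap.single ℝ E i)
  let P : (i : ι) → PiLp 2 E →L[ℝ] E i := fun i =>
    (ContinuousLinearMap.proj i : (∀ i, E i) →L[ℝ] E i).comp
      ((PiLp.continuousLinearEquiv 2 ℝ E) : PiLp 2 E →L[ℝ] (∀ i, E i))
  have hPJ : ∀ i (x : E i), P i (J i x) = x := by
    intro i x
    simp [P, J]
  obtain ⟨φ, hφ, h⟩ := wc_compact (ι := ι × ℕ)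
    (fun p m z => J p.1 (rs (p.2 : ℝ) (u p.1 m) z))
    (fun p m => (J p.1).comp_memLp' (hm p.1 p.2 m)) (μ := (volume : Measure (ST n))) (by
      intro p
      obtain ⟨C, hC⟩ := hb p.1 p.2
      have hJ0 : 0 ≤ ‖J p.1‖ := ContinuousLinearMap.opNorm_nonneg _
      refine ⟨‖J p.1‖ * max C 0, fun m => ?_⟩
      rw [ENNReal.ofReal_mul hJ0]
      refine (eLpNorm_le_mul_eLpNorm_of_ae_le_mul (c := ‖J p.1‖)
        (Eventually.of_forall fun x => (J p.1).le_opNorm _) 2).trans ?_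
      exact mul_le_mul' le_rfl ((hC m).trans (ENNReal.ofReal_le_ofReal (le_max_left _ _))))
  have h' : ∀ i (T : ℕ), ∃ V : ST n → E i,
      WC volume (fun m => rs (T : ℝ) (u i (φ m))) V := by
    intro i T
    obtain ⟨V, hV⟩ := h (i, T)
    refine ⟨fun z => P i (V z), ?_⟩
    have h2 := wc_clm hV (P i)
    simp only [hPJ] at h2
    exact h2
  choose V hV using h'
  have hcons : ∀ i (S T : ℕ), S ≤ T → V i S =ᵐ[volume] rs (S : ℝ) (V i T) := by
    intro i S T hST
    have h2 := wc_rs (hV i T) (S : ℝ)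
    simp only [rs_rs (n := n) (E := E i) (show (S : ℝ) ≤ T by exact_mod_cast hST)] at h2
    exact wc_unique (hV i S) h2
  refine ⟨φ, hφ, fun i z => V i (⌊z.1⌋₊ + 1) z, fun i T => ?_⟩
  refine (hV i T).congr ?_
  have hall : ∀ᵐ z, ∀ S T : ℕ, S ≤ T → V i S z = rs (S : ℝ) (V i T) z := by
    rw [ae_all_iff]
    intro S
    rw [ae_all_iff]
    intro T'
    by_cases h3 : S ≤ T'
    · filter_upwards [hcons i S T' h3] with z hz _
      exact hz
    · exact Eventually.of_forall fun z h4 => absurd h4 h3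
  filter_upwards [hall] with z hz
  by_cases h3 : z.1 ∈ Ioo 0 (T : ℝ)
  · rw [rs_mem h3]
    have h4 : ⌊z.1⌋₊ + 1 ≤ T := (Nat.floor_lt h3.1.le).2 h3.2
    rw [hz _ _ h4, rs_mem]
    refine ⟨h3.1, ?_⟩
    push_cast
    exact Nat.lt_floor_add_one z.1
  · rw [rs_notMem h3, hz T T le_rfl, rs_notMem h3]

end Pool.Agent.Helper44.Diag
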