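import Pool.Agent.Helper42.Jef.Defs2

open MeasureTheory Set Filter Topology
open scoped ENNReal ContDiff

namespace Pool.Agent.Helper44.Jef
open Pool.Agent.Helper42.Jef

section bk
variable {E : Type*} [NormedAddCommGroup E] [InnerProductSpace ℝ E]

theorem sq_nn (k : ℝ) (a : ℝ) : 1 ≤ Real.sqrt (1 + a ^ 2 / k ^ 2) := by
  rw [show (1 : ℝ) = Real.sqrt 1 by simp]
  apply Real.sqrt_le_sqrt
  have : 0 ≤ a ^ 2 / k ^ 2 := by positivity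
  simp only [Real.sqrt_one]; linarith

theorem inv_le_one' (k a : ℝ) : (Real.sqrt (1 + a ^ 2 / k ^ 2))⁻¹ ≤ 1 :=
  inv_le_one_of_one_le₀ (sq_nn k a)

theorem inv_pos' (k a : ℝ) : 0 < (Real.sqrt (1 + a ^ 2 / k ^ 2))⁻¹ :=
  inv_pos.mpr (lt_of_lt_of_le one_pos (sq_nn k a))

theorem bk_norm (k : ℝ) (x : E) : ‖bk k x‖ = (Real.sqrt (1 + ‖x‖ ^ 2 / k ^ 2))⁻¹ * ‖x‖ := by
  unfold bk
  rw [norm_smul, Real.norm_eq_abs, abs_of_pos (inv_pos' k ‖x‖)]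

theorem bk_norm_le' (k : ℝ) (x : E) : ‖bk k x‖ ≤ ‖x‖ := by
  rw [bk_norm]
  calc _ ≤ 1 * ‖x‖ := mul_le_mul_of_nonneg_right (inv_le_one' k _) (norm_nonneg _)
    _ = ‖x‖ := one_mul _

theorem div_le_sqrt (k : ℝ) (a : ℝ) : a / k ≤ Real.sqrt (1 + a ^ 2 / k ^ 2) := by
  apply Real.le_sqrt_of_sq_le
  rw [div_pow]; linarith

theorem bk_norm_le_k' {k : ℝ} (hk : 0 < k) (x : E) : ‖bk k x‖ ≤ k := by
  rw [bk_norm]
  have h1 := div_le_sqrt k ‖x‖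
  have h2 : (0 : ℝ) < Real.sqrt (1 + ‖x‖ ^ 2 / k ^ 2) := lt_of_lt_of_le one_pos (sq_nn k _)
  rw [inv_mul_le_iff₀ h2]
  rw [div_le_iff₀ hk] at h1
  linarith

/-- scalar version: monotone and 1-Lipschitz -/
theorem sc_lip (k : ℝ) {a b : ℝ} (hb : 0 ≤ b) (hab : b ≤ a) :
    |(Real.sqrt (1 + a ^ 2 / k ^ 2))⁻¹ * a - (Real.sqrt (1 + b ^ 2 / k ^ 2))⁻¹ * b| ≤ a - b := by
  have ha : 0 ≤ a := hb.trans hab
  have hsq : b ^ 2 ≤ a ^ 2 := by nlinarith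
  have hmono : Real.sqrt (1 + b ^ 2 / k ^ 2) ≤ Real.sqrt (1 + a ^ 2 / k ^ 2) := by
    apply Real.sqrt_le_sqrt
    have : b ^ 2 / k ^ 2 ≤ a ^ 2 / k ^ 2 := div_le_div_of_nonneg_right hsq (by positivity)
    linarith
  have hinv : (Real.sqrt (1 + a ^ 2 / k ^ 2))⁻¹ ≤ (Real.sqrt (1 + b ^ 2 / k ^ 2))⁻¹ :=
    inv_anti₀ (lt_of_lt_of_le one_pos (sq_nn k _)) hmono
  rw [abs_le]
  constructor
  · -- nonnegativity
    have h0 : (Real.sqrt (1 + b ^ 2 / k ^ 2))⁻¹ * b ≤ (Real.sqrt (1 + a ^ 2 / k ^ 2))⁻¹ * a := by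
      have hA : (0 : ℝ) < Real.sqrt (1 + a ^ 2 / k ^ 2) := lt_of_lt_of_le one_pos (sq_nn k _)
      have hB : (0 : ℝ) < Real.sqrt (1 + b ^ 2 / k ^ 2) := lt_of_lt_of_le one_pos (sq_nn k _)
      rw [inv_mul_eq_div, inv_mul_eq_div, div_le_div_iff₀ hB hA]
      -- b * √(1+a²/k²) ≤ a * √(1+b²/k²)
      have e1 : b * Real.sqrt (1 + a ^ 2 / k ^ 2) = Real.sqrt (b ^ 2 * (1 + a ^ 2 / k ^ 2)) := by
        rw [Real.sqrt_mul (sq_nonneg b), Real.sqrt_sq hb]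
      have e2 : a * Real.sqrt (1 + b ^ 2 / k ^ 2) = Real.sqrt (a ^ 2 * (1 + b ^ 2 / k ^ 2)) := by
        rw [Real.sqrt_mul (sq_nonneg a), Real.sqrt_sq ha]
      rw [e1, e2]
      apply Real.sqrt_le_sqrt
      have : b ^ 2 * (a ^ 2 / k ^ 2) = a ^ 2 * (b ^ 2 / k ^ 2) := by ring
      nlinarith
    linarith
  · have h1 : (Real.sqrt (1 + a ^ 2 / k ^ 2))⁻¹ * a ≤ (Real.sqrt (1 + b ^ 2 / k ^ 2))⁻¹ * a :=
      mul_le_mul_of_nonneg_right hinv ha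
    have h2 : (Real.sqrt (1 + b ^ 2 / k ^ 2))⁻¹ * (a - b) ≤ 1 * (a - b) :=
      mul_le_mul_of_nonneg_right (inv_le_one' k b) (by linarith)
    nlinarith

theorem bk_lip' (k : ℝ) (x y : E) : ‖bk k x - bk k y‖ ≤ ‖x - y‖ := by
  set α := (Real.sqrt (1 + ‖x‖ ^ 2 / k ^ 2))⁻¹ with hα
  set β := (Real.sqrt (1 + ‖y‖ ^ 2 / k ^ 2))⁻¹ with hβ
  have hα1 : α ≤ 1 := inv_le_one' k _
  have hβ1 : β ≤ 1 := inv_le_one' k _
  have hα0 : 0 < α := inv_pos' k _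
  have hβ0 : 0 < β := inv_pos' k _
  have hsc : (α * ‖x‖ - β * ‖y‖) ^ 2 ≤ (‖x‖ - ‖y‖) ^ 2 := by
    rcases le_total ‖y‖ ‖x‖ with h | h
    · have := sc_lip k (norm_nonneg y) h
      rw [← hα, ← hβ] at this
      rw [← sq_abs]
      exact pow_le_pow_left₀ (abs_nonneg _) this 2
    · have := sc_lip k (norm_nonneg x) h
      rw [← hα, ← hβ] at this
      rw [← sq_abs, abs_sub_comm, show (‖x‖ - ‖y‖) ^ 2 = (‖y‖ - ‖x‖) ^ 2 by ring]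
      exact pow_le_pow_left₀ (abs_nonneg _) this 2
  have hcs : inner ℝ x y ≤ ‖x‖ * ‖y‖ := real_inner_le_norm x y
  have hαβ : α * β ≤ 1 := by nlinarith
  have h1 : ‖bk k x - bk k y‖ ^ 2 ≤ ‖x - y‖ ^ 2 := by
    unfold bk
    rw [← hα, ← hβ, @norm_sub_sq_real, @norm_sub_sq_real, norm_smul, norm_smul, Real.norm_eq_abs,
      Real.norm_eq_abs, abs_of_pos hα0, abs_of_pos hβ0, real_inner_smul_left, real_inner_smul_right]
    nlinarith [mul_le_mul_of_nonneg_left hcs (sub_nonneg.mpr hαβ)]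
  exact le_of_sq_le_sq h1 (norm_nonneg _)

theorem bk_sub_le' {k : ℝ} (hk : 0 < k) (x : E) : ‖x - bk k x‖ ≤ ‖x‖ ^ 2 / k := by
  set α := (Real.sqrt (1 + ‖x‖ ^ 2 / k ^ 2))⁻¹ with hα
  have hα1 : α ≤ 1 := inv_le_one' k _
  have e : x - bk k x = (1 - α) • x := by
    unfold bk; rw [← hα, sub_smul, one_smul]
  rw [e, norm_smul, Real.norm_eq_abs, abs_of_nonneg (by linarith)]
  have h2 : Real.sqrt (1 + ‖x‖ ^ 2 / k ^ 2) ≤ 1 + ‖x‖ / k := by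
    rw [Real.sqrt_le_left (by positivity)]
    have : (‖x‖ / k) ^ 2 = ‖x‖ ^ 2 / k ^ 2 := by rw [div_pow]
    have h3 : 0 ≤ ‖x‖ / k := by positivity
    nlinarith
  have h3 : (1 + ‖x‖ / k)⁻¹ ≤ α := inv_anti₀ (lt_of_lt_of_le one_pos (sq_nn k _)) h2
  have h4 : 1 - ‖x‖ / k ≤ (1 + ‖x‖ / k)⁻¹ := by
    have h5 : 0 ≤ ‖x‖ / k := by positivity
    rw [inv_eq_one_div, le_div_iff₀ (by positivity)]
    nlinarith
  have h5 : 1 - α ≤ ‖x‖ / k := by linarith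
  calc (1 - α) * ‖x‖ ≤ ‖x‖ / k * ‖x‖ := mul_le_mul_of_nonneg_right h5 (norm_nonneg _)
    _ = ‖x‖ ^ 2 / k := by ring

theorem bk_cont (k : ℝ) : Continuous (bk k : E → E) := by
  unfold bk
  apply Continuous.smul _ continuous_id
  apply Continuous.inv₀
  · fun_prop
  · intro x; exact (lt_of_lt_of_le one_pos (sq_nn k ‖x‖)).ne'

end bk

end Pool.Agent.Helper44.Jef
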