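import Pool.Agent.Helper44.JefBk

open MeasureTheory Set Filter Topology
open scoped ENNReal ContDiff Convolution

namespace Pool.Agent.Helper44.Jef
open Pool.Agent.Helper42.Jef

variable {n : ℕ}

instance stHaar : (volume : Measure (ST n)).IsAddHaarMeasure :=
  inferInstanceAs ((volume : Measure ℝ).prod (volume : Measure (Eu n))).IsAddHaarMeasure

theorem cv_eq_conv (k u : ST n → ℝ) :
    cv k u = (u ⋆[ContinuousLinearMap.mul ℝ ℝ, volume] k) := by
  funext z
  rw [convolution_def]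
  unfold cv
  congr 1
  funext y
  simp [mul_comm]

theorem cv_integrable {k u : ST n → ℝ} (hk : Integrable k) (hu : Integrable u) :
    Integrable (cv k u) := by
  rw [cv_eq_conv]
  exact hu.integrable_convolution _ hk

theorem cv_exists {k u : ST n → ℝ} (hk : Integrable k) (hu : Integrable u) :
    ∀ᵐ z : ST n, Integrable (fun y => k (z - y) * u y) := by
  have := hu.ae_convolution_exists (ContinuousLinearMap.mul ℝ ℝ) hk
  filter_upwards [this] with z hz
  have h2 : Integrable (fun y => ContinuousLinearMap.mul ℝ ℝ (u y) (k (z - y))) := hz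
  refine h2.congr (Eventually.of_forall fun y => ?_)
  simp [mul_comm]

theorem cv_add {k u w : ST n → ℝ} (hk : Integrable k) (hu : Integrable u) (hw : Integrable w) :
    ∀ᵐ z : ST n, cv k (fun y => u y + w y) z = cv k u z + cv k w z := by
  filter_upwards [cv_exists hk hu, cv_exists hk hw] with z h1 h2
  unfold cv
  rw [← integral_add h1 h2]
  congr 1
  funext y; ring

theorem KK_apply (κ : (Fin n × Fin n) → (Fin n × Fin n) → ST n → ℝ) (u : ST n → Mt n)
    (z : ST n) (p : Fin n × Fin n) :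
    KK κ u z p = ∑ q, cv (κ p q) (fun y => u y q) z := rfl

theorem KK_add {κ : (Fin n × Fin n) → (Fin n × Fin n) → ST n → ℝ} {u w : ST n → Mt n}
    (hκ : ∀ p q, Integrable (κ p q)) (hu : ∀ q, Integrable (fun y => u y q))
    (hw : ∀ q, Integrable (fun y => w y q)) :
    ∀ᵐ z : ST n, KK κ (fun y => u y + w y) z = KK κ u z + KK κ w z := by
  have h : ∀ p q, ∀ᵐ z : ST n, cv (κ p q) (fun y => u y q + w y q) z =
      cv (κ p q) (fun y => u y q) z + cv (κ p q) (fun y => w y q) z :=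
    fun p q => cv_add (hκ p q) (hu q) (hw q)
  have h2 : ∀ᵐ z : ST n, ∀ p q, cv (κ p q) (fun y => u y q + w y q) z =
      cv (κ p q) (fun y => u y q) z + cv (κ p q) (fun y => w y q) z := by
    rw [ae_all_iff]; intro p; rw [ae_all_iff]; exact h p
  filter_upwards [h2] with z hz
  ext p
  rw [PiLp.add_apply, KK_apply, KK_apply, KK_apply, ← Finset.sum_add_distrib]
  exact Finset.sum_congr rfl fun q _ => hz p q

theorem KK_meas {κ : (Fin n × Fin n) → (Fin n × Fin n) → ST n → ℝ} {u : ST n → Mt n}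
    (hκ : ∀ p q, Integrable (κ p q)) (hu : ∀ q, Integrable (fun y => u y q)) :
    AEStronglyMeasurable (KK κ u) volume := by
  have h : ∀ p, AEStronglyMeasurable (fun z => ∑ q, cv (κ p q) (fun y => u y q) z) volume :=
    fun p => by
      have := Finset.aestronglyMeasurable_fun_sum (μ := (volume : Measure (ST n)))
        (Finset.univ : Finset (Fin n × Fin n))
        (f := fun q z => cv (κ p q) (fun y => u y q) z)
        (fun q _ => (cv_integrable (hκ p q) (hu q)).aestronglyMeasurable)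
      exact this
  have h2 : AEStronglyMeasurable (fun z => (fun p => ∑ q, cv (κ p q) (fun y => u y q) z)) volume :=
    (aemeasurable_pi_lambda _ fun p => (h p).aemeasurable).aestronglyMeasurable
  exact (PiLp.continuous_toLp 2 (fun _ : Fin n × Fin n => ℝ)).comp_aestronglyMeasurable h2

theorem enorm_sq_eq {ι : Type*} [Fintype ι] (x : EuclideanSpace ℝ ι) :
    ‖x‖ₑ ^ 2 = ∑ i, ‖x i‖ₑ ^ 2 := by
  have h := EuclideanSpace.norm_sq_eq x
  have h1 : ‖x‖ₑ ^ 2 = ENNReal.ofReal (‖x‖ ^ 2) := by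
    rw [ENNReal.ofReal_pow (norm_nonneg _), ofReal_norm]
  rw [h1, h, ENNReal.ofReal_sum_of_nonneg (fun i _ => by positivity)]
  refine Finset.sum_congr rfl fun i _ => ?_
  rw [ENNReal.ofReal_pow (norm_nonneg _), ofReal_norm]

theorem enorm_sum_sq_le {ι : Type*} [Fintype ι] (a : ι → ℝ) :
    ‖∑ i, a i‖ₑ ^ 2 ≤ (Fintype.card ι : ℝ≥0∞) * ∑ i, ‖a i‖ₑ ^ 2 := by
  have h := sq_sum_le_card_mul_sum_sq (s := (Finset.univ : Finset ι)) (f := a)
  have h1 : ∀ y : ℝ, ‖y‖ₑ ^ 2 = ENNReal.ofReal (y ^ 2) := fun y => by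
    rw [← ofReal_norm, ← ENNReal.ofReal_pow (norm_nonneg _), Real.norm_eq_abs, sq_abs]
  rw [h1]
  simp only [h1]
  rw [← ENNReal.ofReal_sum_of_nonneg (fun i _ => sq_nonneg _), ← ENNReal.ofReal_natCast,
    ← ENNReal.ofReal_mul (by positivity)]
  apply ENNReal.ofReal_le_ofReal
  simpa using h

theorem lsq {α : Type*} [MeasurableSpace α] {μ : Measure α} {E : Type*} [NormedAddCommGroup E]
    (f : α → E) : ∫⁻ z, ‖f z‖ₑ ^ 2 ∂μ = (eLpNorm f 2 μ) ^ 2 := by
  rw [eLpNorm_eq_lintegral_rpow_enorm_toReal two_ne_zero ENNReal.ofNat_ne_top]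
  simp only [ENNReal.toReal_ofNat]
  rw [← ENNReal.rpow_natCast, ← ENNReal.rpow_mul]
  simp

/-- `L²` bound for the matrix convolution -/
theorem KK_L2 {κ : (Fin n × Fin n) → (Fin n × Fin n) → ST n → ℝ} {u : ST n → Mt n} {A : ℝ}
    (hκ : ∀ p q, Integrable (κ p q)) (hu : ∀ q, Integrable (fun y => u y q))
    (hu2 : ∀ q, MemLp (fun y => u y q) 2 volume)
    (hA : ∀ p q, ∀ u : ST n → ℝ, Integrable u → MemLp u 2 volume →
      eLpNorm (cv (κ p q) u) 2 volume ≤ ENNReal.ofReal A * eLpNorm u 2 volume) :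
    ∫⁻ z, ‖KK κ u z‖ₑ ^ 2 ≤ ENNReal.ofReal ((n * n : ℝ) ^ 2 * (max A 0) ^ 2) *
      ∫⁻ z, ‖u z‖ₑ ^ 2 := by
  have hcard : (Fintype.card (Fin n × Fin n) : ℝ≥0∞) = ENNReal.ofReal (n * n : ℝ) := by
    rw [← ENNReal.ofReal_natCast]; simp
  have hAmax : ENNReal.ofReal A = ENNReal.ofReal (max A 0) := by
    rcases le_total A 0 with h | h
    · rw [max_eq_right h, ENNReal.ofReal_of_nonpos h]; simp
    · rw [max_eq_left h]
  have hm : ∀ p q, AEMeasurable (fun z => ‖cv (κ p q) (fun y => u y q) z‖ₑ ^ 2) volume :=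
    fun p q => ((cv_integrable (hκ p q) (hu q)).aestronglyMeasurable.enorm).pow_const 2
  have hmu : ∀ q, AEMeasurable (fun z => ‖u z q‖ₑ ^ 2) volume :=
    fun q => ((hu q).aestronglyMeasurable.enorm).pow_const 2
  have step1 : ∀ z, ‖KK κ u z‖ₑ ^ 2 ≤
      ∑ p, (Fintype.card (Fin n × Fin n) : ℝ≥0∞) *
        ∑ q, ‖cv (κ p q) (fun y => u y q) z‖ₑ ^ 2 := by
    intro z
    rw [enorm_sq_eq]
    exact Finset.sum_le_sum fun p _ => enorm_sum_sq_le _
  calc ∫⁻ z, ‖KK κ u z‖ₑ ^ 2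
      ≤ ∫⁻ z, ∑ p, (Fintype.card (Fin n × Fin n) : ℝ≥0∞) *
        ∑ q, ‖cv (κ p q) (fun y => u y q) z‖ₑ ^ 2 := lintegral_mono step1
    _ = ∑ p, (Fintype.card (Fin n × Fin n) : ℝ≥0∞) *
        ∑ q, ∫⁻ z, ‖cv (κ p q) (fun y => u y q) z‖ₑ ^ 2 := by
      rw [lintegral_finsetSum' _ (fun p _ => by
        exact (Finset.aemeasurable_fun_sum _ (fun q _ => hm p q)).const_mul _)]
      refine Finset.sum_congr rfl fun p _ => ?_
      rw [lintegral_const_mul'' _ (Finset.aemeasurable_fun_sum _ (fun q _ => hm p q)),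
        lintegral_finsetSum' _ (fun q _ => hm p q)]
    _ ≤ ∑ p : Fin n × Fin n, (Fintype.card (Fin n × Fin n) : ℝ≥0∞) *
        ∑ q, (ENNReal.ofReal (max A 0) ^ 2 * ∫⁻ z, ‖u z q‖ₑ ^ 2) := by
      refine Finset.sum_le_sum fun p _ => ?_
      gcongr with q _
      rw [lsq, lsq (fun z => u z q), ← mul_pow, ← hAmax]
      exact pow_le_pow_left' (hA p q _ (hu q) (hu2 q)) 2
    _ = (Fintype.card (Fin n × Fin n) : ℝ≥0∞) * ((Fintype.card (Fin n × Fin n) : ℝ≥0∞) *
        (ENNReal.ofReal (max A 0) ^ 2 * ∑ q, ∫⁻ z, ‖u z q‖ₑ ^ 2)) := by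
      rw [Finset.sum_const, nsmul_eq_mul, Finset.card_univ, ← Finset.mul_sum]
    _ = ENNReal.ofReal ((n * n : ℝ) ^ 2 * (max A 0) ^ 2) * ∫⁻ z, ‖u z‖ₑ ^ 2 := by
      have e : ∫⁻ z, ‖u z‖ₑ ^ 2 = ∑ q, ∫⁻ z, ‖u z q‖ₑ ^ 2 := by
        rw [← lintegral_finsetSum' _ (fun q _ => hmu q)]
        exact lintegral_congr fun z => enorm_sq_eq _
      rw [e, hcard, ENNReal.ofReal_mul (p := (n * n : ℝ) ^ 2) (by positivity),
        ENNReal.ofReal_pow (p := (n * n : ℝ)) (by positivity),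
        ENNReal.ofReal_pow (le_max_right _ _)]
      ring

/-- weak type bound for the matrix convolution -/
theorem KK_weak {κ : (Fin n × Fin n) → (Fin n × Fin n) → ST n → ℝ} {u : ST n → Mt n} {C : ℝ → ℝ}
    (hu : ∀ q, Integrable (fun y => u y q))
    (hu2 : ∀ q, MemLp (fun y => u y q) 2 volume)
    (hC : ∀ p q, ∀ u : ST n → ℝ, Integrable u → MemLp u 2 → ∫ z, |u z| ≤ 1 → ∀ s > 0,
      volume {z | s < |cv (κ p q) u z|} ≤ ENNReal.ofReal (C s * ∫ z, |u z|))
    (δ : ℝ) (hδ : δ ≤ 1) (hs : ∀ q, ∫ z, |u z q| ≤ δ) (s : ℝ) (hs0 : 0 < s) :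
    volume {z | s < ‖KK κ u z‖} ≤ ENNReal.ofReal ((n * n : ℝ) ^ 2 *
      (max (C (s / ((n * n : ℝ) ^ 2 + 1))) 0 * δ)) := by
  set s' := s / ((n * n : ℝ) ^ 2 + 1) with hs'
  have hs'0 : 0 < s' := by positivity
  have hsub : {z | s < ‖KK κ u z‖} ⊆
      ⋃ p ∈ (Finset.univ : Finset (Fin n × Fin n)), ⋃ q ∈ (Finset.univ : Finset (Fin n × Fin n)),
        {z | s' < |cv (κ p q) (fun y => u y q) z|} := by
    intro z hz
    simp only [mem_ofPred_eq] at hz
    by_contra hcon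
    simp only [Finset.mem_univ, iUnion_true, mem_iUnion, mem_ofPred_eq, not_exists, not_lt] at hcon
    have h1 : ‖KK κ u z‖ ≤ ∑ p, |KK κ u z p| := by
      have h2 := EuclideanSpace.norm_eq (KK κ u z)
      rw [h2]
      rw [Real.sqrt_le_left (Finset.sum_nonneg fun i _ => abs_nonneg _)]
      simp only [Real.norm_eq_abs]
      exact Finset.sum_sq_le_sq_sum_of_nonneg fun i _ => abs_nonneg _
    have h3 : ∑ p, |KK κ u z p| ≤ ∑ p : Fin n × Fin n, ∑ q : Fin n × Fin n, s' := by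
      refine Finset.sum_le_sum fun p _ => ?_
      rw [KK_apply]
      exact (Finset.abs_sum_le_sum_abs _ _).trans (Finset.sum_le_sum fun q _ => hcon p q)
    have h4 : ∑ p : Fin n × Fin n, ∑ q : Fin n × Fin n, s' = (n * n : ℝ) ^ 2 * s' := by
      simp; ring
    have h5 : (n * n : ℝ) ^ 2 * s' < s := by
      rw [hs', mul_div_assoc', div_lt_iff₀ (by positivity)]
      nlinarith
    linarith
  have h0 : ∀ p q, volume {z | s' < |cv (κ p q) (fun y => u y q) z|} ≤
      ENNReal.ofReal (max (C s') 0 * δ) := by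
    intro p q
    refine (hC p q _ (hu q) (hu2 q) ((hs q).trans hδ) s' hs'0).trans ?_
    apply ENNReal.ofReal_le_ofReal
    have hnn : 0 ≤ ∫ z, |u z q| := integral_nonneg fun z => abs_nonneg _
    calc C s' * ∫ z, |u z q| ≤ max (C s') 0 * ∫ z, |u z q| :=
          mul_le_mul_of_nonneg_right (le_max_left _ _) hnn
      _ ≤ max (C s') 0 * δ := mul_le_mul_of_nonneg_left (hs q) (le_max_right _ _)
  calc volume {z | s < ‖KK κ u z‖}
      ≤ volume (⋃ p ∈ (Finset.univ : Finset (Fin n × Fin n)),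
        ⋃ q ∈ (Finset.univ : Finset (Fin n × Fin n)),
        {z | s' < |cv (κ p q) (fun y => u y q) z|}) := measure_mono hsub
    _ ≤ ∑ p : Fin n × Fin n, ∑ q : Fin n × Fin n,
        volume {z | s' < |cv (κ p q) (fun y => u y q) z|} :=
      (measure_biUnion_finset_le _ _).trans (Finset.sum_le_sum fun p _ =>
        measure_biUnion_finset_le _ _)
    _ ≤ ∑ p : Fin n × Fin n, ∑ q : Fin n × Fin n, ENNReal.ofReal (max (C s') 0 * δ) :=
      Finset.sum_le_sum fun p _ => Finset.sum_le_sum fun q _ => h0 p q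
    _ = ENNReal.ofReal ((n * n : ℝ) ^ 2 * (max (C s') 0 * δ)) := by
      simp only [Finset.sum_const, Finset.card_univ, Fintype.card_prod, Fintype.card_fin,
        nsmul_eq_mul]
      rw [ENNReal.ofReal_mul (p := (n * n : ℝ) ^ 2) (by positivity),
        ENNReal.ofReal_pow (p := (n * n : ℝ)) (by positivity), ← Nat.cast_mul,
        ENNReal.ofReal_natCast]
      ring

end Pool.Agent.Helper44.Jef
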