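import Pool.Agent.Helper44.JefKK

open MeasureTheory Set Filter Topology
open scoped ENNReal ContDiff Convolution

namespace Pool.Agent.Helper44.Jef
open Pool.Agent.Helper42.Jef

section gen
variable {α : Type*} [MeasurableSpace α] {μ : Measure α}
variable {E : Type*} [NormedAddCommGroup E] [InnerProductSpace ℝ E]

theorem int_comb {f g h : α → ℝ} (hf : Integrable f μ) (hg : Integrable g μ)
    (hh : Integrable h μ) :
    (∫ x, f x ∂μ) - 2 * (∫ x, g x ∂μ) + ∫ x, h x ∂μ = ∫ x, (f x - 2 * g x + h x) ∂μ := by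
  have h2 : Integrable (fun x => 2 * g x) μ := hg.const_mul 2
  have h3 : Integrable (fun x => f x - 2 * g x) μ := hf.sub h2
  rw [integral_add h3 hh, integral_sub hf h2, integral_const_mul]

omit [InnerProductSpace ℝ E] in
theorem int_sq {f : α → E} (hf : MemLp f 2 μ) : Integrable (fun x => ‖f x‖ ^ 2) μ :=
  (memLp_two_iff_integrable_sq_norm hf.1).1 hf

theorem int_inner {f g : α → E} (hf : MemLp f 2 μ) (hg : MemLp g 2 μ) :
    Integrable (fun x => inner ℝ (f x) (g x)) μ := by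
  refine ((int_sq hf).add (int_sq hg)).mono' (hf.1.inner hg.1) (Eventually.of_forall fun x => ?_)
  have h1 := norm_inner_le_norm (𝕜 := ℝ) (f x) (g x)
  have h2 : ‖f x‖ * ‖g x‖ ≤ ‖f x‖ ^ 2 + ‖g x‖ ^ 2 := by
    nlinarith [sq_nonneg (‖f x‖ - ‖g x‖), sq_nonneg (‖f x‖), sq_nonneg (‖g x‖)]
  rw [Pi.add_apply]
  exact h1.trans h2

theorem int_wt {f : α → ℝ} (hf : Integrable f μ) {ζ : α → ℝ} (hζ : AEStronglyMeasurable ζ μ)
    {B : ℝ} (hB : ∀ x, |ζ x| ≤ B) : Integrable (fun x => ζ x * f x) μ :=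
  hf.bdd_mul hζ (Eventually.of_forall fun x => by rw [Real.norm_eq_abs]; exact hB x)

theorem memLp_wt {f : α → E} (hf : MemLp f 2 μ) {ζ : α → ℝ} (hζ : AEStronglyMeasurable ζ μ)
    {B : ℝ} (hB : ∀ x, |ζ x| ≤ B) : MemLp (fun x => ζ x • f x) 2 μ := by
  refine hf.of_le_mul (c := B) (hζ.smul hf.1) (Eventually.of_forall fun x => ?_)
  rw [norm_smul, Real.norm_eq_abs]
  exact mul_le_mul_of_nonneg_right (hB x) (norm_nonneg _)

theorem int_smul {f : α → E} (hf : MemLp f 2 μ) {χ : α → ℝ} (hχ : MemLp χ 2 μ) :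
    Integrable (fun x => χ x • f x) μ := by
  have h : MemLp (χ • f) 1 μ := hf.smul hχ
  exact memLp_one_iff_integrable.mp h

omit [InnerProductSpace ℝ E] in
/-- `∫ ‖f‖² ≤ C²` -/
theorem int_sq_le {f : α → E} (hf : MemLp f 2 μ) {C : ℝ} (hC : eLpNorm f 2 μ ≤ ENNReal.ofReal C) :
    ∫ x, ‖f x‖ ^ 2 ∂μ ≤ (max C 0) ^ 2 := by
  have h1 : ENNReal.ofReal (∫ x, ‖f x‖ ^ 2 ∂μ) = (eLpNorm f 2 μ) ^ 2 := by
    rw [← lsq, ofReal_integral_eq_lintegral_ofReal (int_sq hf)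
      (Eventually.of_forall fun x => by positivity)]
    refine lintegral_congr fun x => ?_
    rw [ENNReal.ofReal_pow (norm_nonneg _), ofReal_norm]
  have h2 : ENNReal.ofReal (∫ x, ‖f x‖ ^ 2 ∂μ) ≤ ENNReal.ofReal ((max C 0) ^ 2) := by
    rw [h1, ENNReal.ofReal_pow (le_max_right _ _)]
    exact pow_le_pow_left' (hC.trans (ENNReal.ofReal_le_ofReal (le_max_left _ _))) 2
  exact (ENNReal.ofReal_le_ofReal_iff (by positivity)).mp h2

omit [InnerProductSpace ℝ E] in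
theorem tendsto_int_sq {f : ℕ → α → E} (hf : ∀ k, MemLp (f k) 2 μ)
    (h : Tendsto (fun k => eLpNorm (f k) 2 μ) atTop (𝓝 0)) :
    Tendsto (fun k => ∫ x, ‖f k x‖ ^ 2 ∂μ) atTop (𝓝 0) := by
  have h1 : ∀ k, ∫ x, ‖f k x‖ ^ 2 ∂μ = ((eLpNorm (f k) 2 μ) ^ 2).toReal := fun k => by
    rw [← lsq, integral_eq_lintegral_of_nonneg_ae (Eventually.of_forall fun x => by positivity)
      (int_sq (hf k)).aestronglyMeasurable]
    congr 1
    refine lintegral_congr fun x => ?_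
    rw [ENNReal.ofReal_pow (norm_nonneg _), ofReal_norm]
  simp only [h1]
  have h2 : Tendsto (fun k => (eLpNorm (f k) 2 μ) ^ 2) atTop (𝓝 0) := by
    have := ENNReal.Tendsto.pow (n := 2) h
    simpa using this
  have := (ENNReal.tendsto_toReal ENNReal.zero_ne_top).comp h2
  exact this

variable {u : ℕ → α → E} {U : α → E} {uk : ℕ → α → E} {ak : ℕ → α → ℝ}

/-- convergence of weighted quadratic quantities -/
theorem quad_conv (h : TV μ u U uk ak) {χ : α → ℝ} (hχ2 : MemLp (fun x => χ x ^ 2) 2 μ)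
    (hχm : AEStronglyMeasurable χ μ) {B : ℝ} (hB : ∀ x, |χ x| ≤ B) {w : α → E}
    (hw : MemLp w 2 μ) (k : ℕ) :
    Tendsto (fun m => ∫ x, χ x ^ 2 * ‖bk ((k : ℝ) + 1) (u m x) - w x‖ ^ 2 ∂μ) atTop
      (𝓝 ((∫ x, χ x ^ 2 * ak k x ∂μ) - 2 * (∫ x, χ x ^ 2 * inner ℝ (uk k x) (w x) ∂μ) +
        ∫ x, χ x ^ 2 * ‖w x‖ ^ 2 ∂μ)) := by
  have hχ2m : AEStronglyMeasurable (fun x => χ x ^ 2) μ := hχm.pow 2
  have hχ2B : ∀ x, |χ x ^ 2| ≤ B ^ 2 := fun x => by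
    rw [abs_pow]; exact pow_le_pow_left₀ (abs_nonneg _) (hB x) 2
  have c1 : Tendsto (fun m => ∫ x, χ x ^ 2 * ‖bk ((k : ℝ) + 1) (u m x)‖ ^ 2 ∂μ) atTop
      (𝓝 (∫ x, χ x ^ 2 * ak k x ∂μ)) := by
    have := (h.wa k).conv (fun x => χ x ^ 2) hχ2
    simpa [real_inner_eq_re_inner, inner, mul_comm] using this
  have c2 : Tendsto (fun m => ∫ x, χ x ^ 2 * inner ℝ (bk ((k : ℝ) + 1) (u m x)) (w x) ∂μ) atTop
      (𝓝 (∫ x, χ x ^ 2 * inner ℝ (uk k x) (w x) ∂μ)) := by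
    have := (h.wk k).conv (fun x => χ x ^ 2 • w x) (memLp_wt hw hχ2m hχ2B)
    simpa only [real_inner_smul_right] using this
  have c3 := (c1.sub (c2.const_mul 2)).add_const (∫ x, χ x ^ 2 * ‖w x‖ ^ 2 ∂μ)
  refine c3.congr fun m => ?_
  have i1 : Integrable (fun x => χ x ^ 2 * ‖bk ((k : ℝ) + 1) (u m x)‖ ^ 2) μ :=
    int_wt (int_sq ((h.wk k).mem m)) hχ2m hχ2B
  have i2 : Integrable (fun x => χ x ^ 2 * inner ℝ (bk ((k : ℝ) + 1) (u m x)) (w x)) μ :=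
    int_wt (int_inner ((h.wk k).mem m) hw) hχ2m hχ2B
  have i3 : Integrable (fun x => χ x ^ 2 * ‖w x‖ ^ 2) μ := int_wt (int_sq hw) hχ2m hχ2B
  rw [int_comb i1 i2 i3]
  refine integral_congr_ae (Eventually.of_forall fun x => ?_)
  simp only
  rw [@norm_sub_sq_real]
  ring

/-- limit of the limits -/
theorem quad_lim (h : TV μ u U uk ak) {χ : α → ℝ} 
    (hχm : AEStronglyMeasurable χ μ) {B : ℝ} (hB : ∀ x, |χ x| ≤ B) {θ : α → ℝ}
    (hθ : Integrable θ μ) (hai : ∀ k, Integrable (ak k) μ)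
    (hL2 : Tendsto (fun k => eLpNorm (fun x => uk k x - U x) 2 μ) atTop (𝓝 0))
    (hconv : Tendsto (fun k => ∫ x, |ak k x - ‖uk k x‖ ^ 2 - θ x| ∂μ) atTop (𝓝 0)) :
    Tendsto (fun k => (∫ x, χ x ^ 2 * ak k x ∂μ) -
      2 * (∫ x, χ x ^ 2 * inner ℝ (uk k x) (U x) ∂μ) + ∫ x, χ x ^ 2 * ‖U x‖ ^ 2 ∂μ) atTop
      (𝓝 (∫ x, χ x ^ 2 * θ x ∂μ)) ∧
    Tendsto (fun k => ∫ x, χ x ^ 2 * (ak k x - ‖uk k x‖ ^ 2) ∂μ) atTop
      (𝓝 (∫ x, χ x ^ 2 * θ x ∂μ)) := by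
  have hχ2m : AEStronglyMeasurable (fun x => χ x ^ 2) μ := hχm.pow 2
  have hχ2B : ∀ x, |χ x ^ 2| ≤ B ^ 2 := fun x => by
    rw [abs_pow]; exact pow_le_pow_left₀ (abs_nonneg _) (hB x) 2
  have hmem : ∀ k, MemLp (uk k) 2 μ := fun k => (h.wk k).memU
  have hmemU : MemLp U 2 μ := h.w.memU
  have hmem2 : ∀ k, MemLp (fun x => uk k x - U x) 2 μ := fun k => (hmem k).sub hmemU
  have hsq := tendsto_int_sq hmem2 hL2
  -- second statement
  have second : Tendsto (fun k => ∫ x, χ x ^ 2 * (ak k x - ‖uk k x‖ ^ 2) ∂μ) atTop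
      (𝓝 (∫ x, χ x ^ 2 * θ x ∂μ)) := by
    rw [tendsto_iff_norm_sub_tendsto_zero]
    have hb : Tendsto (fun k => B ^ 2 * ∫ x, |ak k x - ‖uk k x‖ ^ 2 - θ x| ∂μ) atTop (𝓝 0) := by
      simpa using hconv.const_mul (B ^ 2)
    refine squeeze_zero (fun k => norm_nonneg _) (fun k => ?_) hb
    have i1 : Integrable (fun x => ak k x - ‖uk k x‖ ^ 2) μ := (hai k).sub (int_sq (hmem k))
    rw [← integral_sub (int_wt i1 hχ2m hχ2B) (int_wt hθ hχ2m hχ2B), ← integral_const_mul]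
    refine norm_integral_le_of_norm_le ((i1.sub hθ).abs.const_mul _)
      (Eventually.of_forall fun x => ?_)
    rw [← mul_sub, norm_mul, Real.norm_eq_abs, Real.norm_eq_abs]
    exact mul_le_mul_of_nonneg_right (hχ2B x) (abs_nonneg _)
  refine ⟨?_, second⟩
  have hsmall : Tendsto (fun k => ∫ x, χ x ^ 2 * ‖uk k x - U x‖ ^ 2 ∂μ) atTop (𝓝 0) := by
    have hb : Tendsto (fun k => B ^ 2 * ∫ x, ‖uk k x - U x‖ ^ 2 ∂μ) atTop (𝓝 0) := by
      simpa using hsq.const_mul (B ^ 2)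
    refine squeeze_zero (fun k => integral_nonneg fun x => by positivity) (fun k => ?_) hb
    rw [← integral_const_mul]
    refine integral_mono (int_wt (int_sq (hmem2 k)) hχ2m hχ2B) ((int_sq (hmem2 k)).const_mul _)
      fun x => ?_
    exact mul_le_mul_of_nonneg_right ((le_abs_self _).trans (hχ2B x)) (by positivity)
  have hsum := second.add hsmall
  rw [add_zero] at hsum
  refine hsum.congr fun k => ?_
  have i1 : Integrable (fun x => χ x ^ 2 * (ak k x - ‖uk k x‖ ^ 2)) μ :=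
    int_wt ((hai k).sub (int_sq (hmem k))) hχ2m hχ2B
  have i1' : Integrable (fun x => χ x ^ 2 * ak k x) μ := int_wt (hai k) hχ2m hχ2B
  have i2 : Integrable (fun x => χ x ^ 2 * inner ℝ (uk k x) (U x)) μ :=
    int_wt (int_inner (hmem k) hmemU) hχ2m hχ2B
  have i3 : Integrable (fun x => χ x ^ 2 * ‖U x‖ ^ 2) μ := int_wt (int_sq hmemU) hχ2m hχ2B
  have i4 : Integrable (fun x => χ x ^ 2 * ‖uk k x - U x‖ ^ 2) μ :=
    int_wt (int_sq (hmem2 k)) hχ2m hχ2B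
  rw [← integral_add i1 i4, int_comb i1' i2 i3]
  refine integral_congr_ae (Eventually.of_forall fun x => ?_)
  simp only
  rw [@norm_sub_sq_real]
  ring

/-- the limit dominates the truncated variance -/
theorem quad_lower (h : TV μ u U uk ak) {χ : α → ℝ}
    (hχm : AEStronglyMeasurable χ μ) {B : ℝ} (hB : ∀ x, |χ x| ≤ B) {w : α → E}
    (hw : MemLp w 2 μ) (hai : ∀ k, Integrable (ak k) μ) (k : ℕ) :
    ∫ x, χ x ^ 2 * (ak k x - ‖uk k x‖ ^ 2) ∂μ ≤ (∫ x, χ x ^ 2 * ak k x ∂μ) -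
      2 * (∫ x, χ x ^ 2 * inner ℝ (uk k x) (w x) ∂μ) + ∫ x, χ x ^ 2 * ‖w x‖ ^ 2 ∂μ := by
  have hχ2m : AEStronglyMeasurable (fun x => χ x ^ 2) μ := hχm.pow 2
  have hχ2B : ∀ x, |χ x ^ 2| ≤ B ^ 2 := fun x => by
    rw [abs_pow]; exact pow_le_pow_left₀ (abs_nonneg _) (hB x) 2
  have hmem : MemLp (uk k) 2 μ := (h.wk k).memU
  have i1 : Integrable (fun x => χ x ^ 2 * (ak k x - ‖uk k x‖ ^ 2)) μ :=
    int_wt ((hai k).sub (int_sq hmem)) hχ2m hχ2B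
  have i1' : Integrable (fun x => χ x ^ 2 * ak k x) μ := int_wt (hai k) hχ2m hχ2B
  have i2 : Integrable (fun x => χ x ^ 2 * inner ℝ (uk k x) (w x)) μ :=
    int_wt (int_inner hmem hw) hχ2m hχ2B
  have i3 : Integrable (fun x => χ x ^ 2 * ‖w x‖ ^ 2) μ := int_wt (int_sq hw) hχ2m hχ2B
  rw [int_comb i1' i2 i3]
  refine integral_mono i1 ((i1'.sub (i2.const_mul 2)).add i3) fun x => ?_
  have h1 := @norm_sub_sq_real E _ _ (uk k x) (w x)
  have h2 : 0 ≤ χ x ^ 2 * ‖uk k x - w x‖ ^ 2 := by positivity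
  rw [h1] at h2
  nlinarith

end gen

end Pool.Agent.Helper44.Jef
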