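import Pool.Agent.Helper44.JefLim

open MeasureTheory Set Filter Topology
open scoped ENNReal ContDiff Convolution

namespace Pool.Agent.Helper44.Jef
open Pool.Agent.Helper42.Jef

variable {n : ℕ}

theorem real_young {x y s l : ℝ} (hx : 0 ≤ x) (hl : 0 < l) (h : x ≤ y + 2 * s) :
    x ^ 2 ≤ (1 + l) * y ^ 2 + (1 + 1 / l) * (4 * s ^ 2) := by
  have h1 : x ^ 2 ≤ (y + 2 * s) ^ 2 := pow_le_pow_left₀ hx h 2
  have h2 : 4 * (y * s) ≤ l * y ^ 2 + 1 / l * (4 * s ^ 2) := by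
    have h3 : 0 ≤ (l * y - 2 * s) ^ 2 / l := by positivity
    have h4 : (l * y - 2 * s) ^ 2 / l = l * y ^ 2 - 4 * (y * s) + 1 / l * (4 * s ^ 2) := by
      field_simp; ring
    linarith
  nlinarith

theorem comp_int {u : ST n → Mt n} (hu : Integrable u) (q : Fin n × Fin n) :
    Integrable (fun y => u y q) :=
  (EuclideanSpace.proj q : Mt n →L[ℝ] ℝ).integrable_comp hu

theorem comp_mem {u : ST n → Mt n} (hu : MemLp u 2 volume) (q : Fin n × Fin n) :
    MemLp (fun y => u y q) 2 volume :=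
  (EuclideanSpace.proj q : Mt n →L[ℝ] ℝ).comp_memLp' hu

theorem lint_eq {E : Type*} [NormedAddCommGroup E] {f : ST n → E} (hf : MemLp f 2 volume) :
    ∫⁻ z, ‖f z‖ₑ ^ 2 = ENNReal.ofReal (∫ z, ‖f z‖ ^ 2) := by
  rw [ofReal_integral_eq_lintegral_ofReal (int_sq hf) (Eventually.of_forall fun x => by positivity)]
  refine lintegral_congr fun x => ?_
  rw [ENNReal.ofReal_pow (norm_nonneg _), ofReal_norm]

theorem bk_mem {E : Type*} [NormedAddCommGroup E] [InnerProductSpace ℝ E] {t : ST n → E}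
    (ht : MemLp t 2 volume) (k : ℝ) : MemLp (fun y => bk k (t y)) 2 volume :=
  ht.of_le ((bk_cont k).comp_aestronglyMeasurable ht.1) (Eventually.of_forall fun x => bk_norm_le' k _)

theorem main_ineq {κ : (Fin n × Fin n) → (Fin n × Fin n) → ST n → ℝ}
    (hκ : ∀ p q, Integrable (κ p q)) {A : ℝ}
    (hA : ∀ p q, ∀ u : ST n → ℝ, Integrable u → MemLp u 2 volume →
      eLpNorm (cv (κ p q) u) 2 volume ≤ ENNReal.ofReal A * eLpNorm u 2 volume)
    {C : ℝ → ℝ}
    (hC : ∀ p q, ∀ u : ST n → ℝ, Integrable u → MemLp u 2 → ∫ z, |u z| ≤ 1 → ∀ s > 0,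
      volume {z | s < |cv (κ p q) u z|} ≤ ENNReal.ofReal (C s * ∫ z, |u z|))
    {g gl t tl : ST n → Mt n} (hg : MemLp g 2 volume) (hgl : MemLp gl 2 volume)
    (ht : MemLp t 2 volume) (htl : MemLp tl 2 volume)
    {χ : ST n → ℝ} (hχ : Continuous χ) (hχc : HasCompactSupport χ) {B : ℝ} (hB0 : 0 ≤ B)
    (hB : ∀ z, |χ z| ≤ B) (i j : ℕ) {c0 : ℝ} (hc0 : B * ∫ z, ‖t z‖ ^ 2 ≤ c0)
    (hj : c0 ≤ (j : ℝ) + 1) {s l : ℝ} (hs : 0 < s) (hl : 0 < l) :
    ∫ z, χ z ^ 2 * ‖bk ((i : ℝ) + 1) (g z) - bk ((i : ℝ) + 1) (gl z)‖ ^ 2 ≤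
      (1 + l) * (((n * n : ℝ) ^ 2 * (max A 0) ^ 2) *
        ∫ z, χ z ^ 2 * ‖bk ((j : ℝ) + 1) (t z) - tl z‖ ^ 2) +
      (1 + 1 / l) * (4 * s ^ 2) * (volume {z | χ z ≠ 0}).toReal +
      (2 * ((i : ℝ) + 1) * B) ^ 2 * ((n * n : ℝ) ^ 2 *
        (max (C (s / ((n * n : ℝ) ^ 2 + 1))) 0 * (c0 / ((j : ℝ) + 1))) +
        (volume {z | χ z ≠ 0 ∧
          s < ‖χ z • (g z - gl z) - KK κ (fun y => χ y • (t y - tl y)) z‖}).toReal) := by
  have hi1 : (0 : ℝ) < (i : ℝ) + 1 := by positivity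
  have hj1 : (0 : ℝ) < (j : ℝ) + 1 := by positivity
  have hχm : AEStronglyMeasurable χ volume := hχ.aestronglyMeasurable
  have hχL2 : MemLp χ 2 volume := hχ.memLp_of_hasCompactSupport hχc
  have hbk : MemLp (fun y => bk ((j : ℝ) + 1) (t y)) 2 volume := bk_mem ht _
  have htb : MemLp (fun y => t y - bk ((j : ℝ) + 1) (t y)) 2 volume := ht.sub hbk
  have hbl : MemLp (fun y => bk ((j : ℝ) + 1) (t y) - tl y) 2 volume := hbk.sub htl
  set b : ST n → Mt n := fun y => χ y • (t y - bk ((j : ℝ) + 1) (t y)) with hb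
  set u1 : ST n → Mt n := fun y => χ y • (bk ((j : ℝ) + 1) (t y) - tl y) with hu1
  have hb2 : MemLp b 2 volume := memLp_wt htb hχm hB
  have hbI : Integrable b := int_smul htb hχL2
  have hu2 : MemLp u1 2 volume := memLp_wt hbl hχm hB
  have huI : Integrable u1 := int_smul hbl hχL2
  have hsum : (fun y => χ y • (t y - tl y)) = fun y => u1 y + b y := by
    funext y; simp only [hb, hu1, ← smul_add]; congr 1; abel
  have hadd := KK_add hκ (fun q => comp_int huI q) (fun q => comp_int hbI q)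
  rw [hsum]
  set Y := KK κ u1 with hY
  set Z := KK κ b with hZ
  have hYm : AEStronglyMeasurable Y volume := KK_meas hκ (fun q => comp_int huI q)
  have hZm : AEStronglyMeasurable Z volume := KK_meas hκ (fun q => comp_int hbI q)
  set rest : ST n → Mt n := fun z => χ z • (g z - gl z) - KK κ (fun y => u1 y + b y) z with hrest
  set Λ : ℝ := 2 * ((i : ℝ) + 1) * B with hΛ
  have hΛ0 : 0 ≤ Λ := by positivity
  -- the sets
  set S0 : Set (ST n) := {z | χ z ≠ 0} with hS0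
  have hS0o : IsOpen S0 := isOpen_ne_fun hχ continuous_const
  have hS0fin : volume S0 < ⊤ := by
    refine lt_of_le_of_lt (measure_mono ?_) hχc.measure_lt_top
    exact subset_tsupport χ
  set S1 : Set (ST n) := {z | s < ‖Z z‖} with hS1
  set S2 : Set (ST n) := {z | χ z ≠ 0 ∧ s < ‖rest z‖} with hS2
  have hS2fin : volume S2 < ⊤ := lt_of_le_of_lt (measure_mono fun z hz => hz.1) hS0fin
  have hS1n : NullMeasurableSet S1 volume :=
    nullMeasurableSet_lt aemeasurable_const hZm.norm.aemeasurable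
  -- weak type for Z
  have hδ1 : c0 / ((j : ℝ) + 1) ≤ 1 := by rw [div_le_one hj1]; exact hj
  have hbint : ∀ q, ∫ z, |b z q| ≤ c0 / ((j : ℝ) + 1) := by
    intro q
    have h1 : ∫ z, |b z q| ≤ ∫ z, (B / ((j : ℝ) + 1)) * ‖t z‖ ^ 2 := by
      refine integral_mono (comp_int hbI q).abs ((int_sq ht).const_mul _) fun z => ?_
      have h2 : |b z q| ≤ ‖b z‖ := by
        rw [← Real.norm_eq_abs]; exact PiLp.norm_apply_le (b z) q
      have h3 : ‖b z‖ ≤ B * (‖t z‖ ^ 2 / ((j : ℝ) + 1)) := by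
        rw [hb]
        simp only
        rw [norm_smul, Real.norm_eq_abs]
        exact mul_le_mul (hB z) (bk_sub_le' hj1 (t z)) (norm_nonneg _) hB0
      calc |b z q| ≤ _ := h2.trans h3
        _ = _ := by ring
    rw [integral_const_mul] at h1
    refine h1.trans ?_
    rw [div_mul_eq_mul_div]
    exact div_le_div_of_nonneg_right hc0 hj1.le
  have hS1v := KK_weak (κ := κ) (C := C) (fun q => comp_int hbI q) (fun q => comp_mem hb2 q) hC
    (c0 / ((j : ℝ) + 1)) hδ1 hbint s hs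
  -- pointwise inequality
  have hpt : ∀ᵐ z : ST n, ENNReal.ofReal (χ z ^ 2 *
      ‖bk ((i : ℝ) + 1) (g z) - bk ((i : ℝ) + 1) (gl z)‖ ^ 2) ≤
      ENNReal.ofReal (1 + l) * ‖Y z‖ₑ ^ 2 + (S0.indicator
        (fun _ => ENNReal.ofReal ((1 + 1 / l) * (4 * s ^ 2))) z + (S1.indicator
        (fun _ => ENNReal.ofReal (Λ ^ 2)) z + S2.indicator (fun _ => ENNReal.ofReal (Λ ^ 2)) z)) := by
    filter_upwards [hadd] with z hz
    by_cases hz0 : χ z = 0
    · simp [hz0]
    have hz0' : z ∈ S0 := hz0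
    have hbd : χ z ^ 2 * ‖bk ((i : ℝ) + 1) (g z) - bk ((i : ℝ) + 1) (gl z)‖ ^ 2 ≤ Λ ^ 2 := by
      rw [← mul_pow, ← sq_abs (χ z * _), abs_mul, abs_of_nonneg (norm_nonneg _)]
      have h1 : ‖bk ((i : ℝ) + 1) (g z) - bk ((i : ℝ) + 1) (gl z)‖ ≤ 2 * ((i : ℝ) + 1) := by
        calc _ ≤ ‖bk ((i : ℝ) + 1) (g z)‖ + ‖bk ((i : ℝ) + 1) (gl z)‖ := norm_sub_le _ _
          _ ≤ ((i : ℝ) + 1) + ((i : ℝ) + 1) := add_le_add (bk_norm_le_k' hi1 _) (bk_norm_le_k' hi1 _)
          _ = _ := by ring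
      refine pow_le_pow_left₀ (by positivity) ?_ 2
      calc |χ z| * _ ≤ B * (2 * ((i : ℝ) + 1)) := mul_le_mul (hB z) h1 (norm_nonneg _) hB0
        _ = Λ := by rw [hΛ]; ring
    by_cases hz1 : z ∈ S1
    · rw [indicator_of_mem hz1]
      calc _ ≤ ENNReal.ofReal (Λ ^ 2) := ENNReal.ofReal_le_ofReal hbd
        _ ≤ _ := by
          refine le_trans ?_ (self_le_add_left _ _)
          refine le_trans ?_ (self_le_add_left _ _)
          exact self_le_add_right _ _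
    by_cases hz2 : z ∈ S2
    · rw [indicator_of_mem hz2]
      calc _ ≤ ENNReal.ofReal (Λ ^ 2) := ENNReal.ofReal_le_ofReal hbd
        _ ≤ _ := by
          refine le_trans ?_ (self_le_add_left _ _)
          refine le_trans ?_ (self_le_add_left _ _)
          exact self_le_add_left _ _
    · rw [indicator_of_mem hz0']
      have hz1' : ‖Z z‖ ≤ s := not_lt.mp hz1
      have hz2' : ‖rest z‖ ≤ s := by
        by_contra hcon
        exact hz2 ⟨hz0, not_le.mp hcon⟩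
      have hd : χ z • (g z - gl z) = Y z + Z z + rest z := by
        rw [hrest]; simp only; rw [hz]; abel
      have hn : ‖χ z • (g z - gl z)‖ ≤ ‖Y z‖ + 2 * s := by
        rw [hd]
        calc ‖Y z + Z z + rest z‖ ≤ ‖Y z‖ + ‖Z z‖ + ‖rest z‖ := norm_add₃_le
          _ ≤ ‖Y z‖ + s + s := by gcongr
          _ = _ := by ring
      have hx : |χ z| * ‖bk ((i : ℝ) + 1) (g z) - bk ((i : ℝ) + 1) (gl z)‖ ≤ ‖Y z‖ + 2 * s := by
        refine le_trans ?_ hn
        rw [norm_smul, Real.norm_eq_abs]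
        exact mul_le_mul_of_nonneg_left (bk_lip' _ _ _) (abs_nonneg _)
      have hy := real_young (by positivity) hl hx
      rw [mul_pow, sq_abs] at hy
      calc _ ≤ ENNReal.ofReal ((1 + l) * ‖Y z‖ ^ 2 + (1 + 1 / l) * (4 * s ^ 2)) :=
            ENNReal.ofReal_le_ofReal hy
        _ = ENNReal.ofReal (1 + l) * ‖Y z‖ₑ ^ 2 +
            ENNReal.ofReal ((1 + 1 / l) * (4 * s ^ 2)) := by
          rw [ENNReal.ofReal_add (by positivity) (by positivity),
            ENNReal.ofReal_mul (by positivity), ENNReal.ofReal_pow (norm_nonneg _), ofReal_norm]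
        _ ≤ _ := by
          gcongr
          exact self_le_add_right _ _
  -- integrate
  have hint : Integrable (fun z => χ z ^ 2 *
      ‖bk ((i : ℝ) + 1) (g z) - bk ((i : ℝ) + 1) (gl z)‖ ^ 2) := by
    have h1 := int_sq ((bk_mem hg ((i : ℝ) + 1)).sub (bk_mem hgl ((i : ℝ) + 1)))
    refine int_wt (B := B ^ 2) h1 (hχm.pow 2) fun x => ?_
    rw [abs_pow]; exact pow_le_pow_left₀ (abs_nonneg _) (hB x) 2
  have hL : ENNReal.ofReal (∫ z, χ z ^ 2 *
      ‖bk ((i : ℝ) + 1) (g z) - bk ((i : ℝ) + 1) (gl z)‖ ^ 2) ≤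
      ENNReal.ofReal (1 + l) * (∫⁻ z, ‖Y z‖ₑ ^ 2) +
      (ENNReal.ofReal ((1 + 1 / l) * (4 * s ^ 2)) * volume S0 +
      (ENNReal.ofReal (Λ ^ 2) * volume S1 + ENNReal.ofReal (Λ ^ 2) * volume S2)) := by
    rw [ofReal_integral_eq_lintegral_ofReal hint (Eventually.of_forall fun x => by positivity)]
    refine (lintegral_mono_ae hpt).trans ?_
    have hYe : AEMeasurable (fun z => ‖Y z‖ₑ ^ 2) volume := hYm.enorm.pow_const 2
    rw [lintegral_add_left' (hYe.const_mul _), lintegral_const_mul'' _ hYe]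
    rw [lintegral_add_left' (aemeasurable_const.indicator₀ hS0o.measurableSet.nullMeasurableSet)]
    rw [lintegral_add_left' (aemeasurable_const.indicator₀ hS1n)]
    gcongr
    · exact lintegral_indicator_const_le _ _
    · exact lintegral_indicator_const_le _ _
    · exact lintegral_indicator_const_le _ _
  have hYb := KK_L2 hκ (fun q => comp_int huI q) (fun q => comp_mem hu2 q) hA
  have hu1e : ∫⁻ z, ‖u1 z‖ₑ ^ 2 = ENNReal.ofReal (∫ z, χ z ^ 2 *
      ‖bk ((j : ℝ) + 1) (t z) - tl z‖ ^ 2) := by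
    rw [lint_eq hu2]
    congr 1
    refine integral_congr_ae (Eventually.of_forall fun z => ?_)
    simp only [hu1]
    rw [norm_smul, mul_pow, Real.norm_eq_abs, sq_abs]
  rw [hu1e] at hYb
  have hI0 : 0 ≤ ∫ z, χ z ^ 2 * ‖bk ((j : ℝ) + 1) (t z) - tl z‖ ^ 2 :=
    integral_nonneg fun z => by positivity
  have hc00 : 0 ≤ c0 := by
    refine le_trans ?_ hc0
    exact mul_nonneg hB0 (integral_nonneg fun z => by positivity)
  set I := ∫ z, χ z ^ 2 * ‖bk ((j : ℝ) + 1) (t z) - tl z‖ ^ 2 with hI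
  set D := (n * n : ℝ) ^ 2 * (max (C (s / ((n * n : ℝ) ^ 2 + 1))) 0 * (c0 / ((j : ℝ) + 1))) with hD
  have hD0 : 0 ≤ D := by positivity
  set c1 := (1 + 1 / l) * (4 * s ^ 2) with hc1
  have hc10 : 0 ≤ c1 := by positivity
  have hl1 : (0 : ℝ) ≤ 1 + l := by positivity
  set A1 := (n * n : ℝ) ^ 2 * (max A 0) ^ 2 with hA1
  have hA10 : 0 ≤ A1 := by positivity
  have e : ENNReal.ofReal ((1 + l) * (A1 * I) + c1 * (volume S0).toReal +
      Λ ^ 2 * (D + (volume S2).toReal)) =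
      ENNReal.ofReal (1 + l) * (ENNReal.ofReal A1 * ENNReal.ofReal I) +
      (ENNReal.ofReal c1 * volume S0 + (ENNReal.ofReal (Λ ^ 2) * ENNReal.ofReal D +
        ENNReal.ofReal (Λ ^ 2) * volume S2)) := by
    rw [ENNReal.ofReal_add (by positivity) (by positivity),
      ENNReal.ofReal_add (by positivity) (by positivity),
      ENNReal.ofReal_mul hl1, ENNReal.ofReal_mul hA10, ENNReal.ofReal_mul hc10,
      ENNReal.ofReal_toReal hS0fin.ne, ENNReal.ofReal_mul (sq_nonneg Λ),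
      ENNReal.ofReal_add hD0 ENNReal.toReal_nonneg,
      ENNReal.ofReal_toReal hS2fin.ne, mul_add (ENNReal.ofReal (Λ ^ 2)), add_assoc]
  rw [← ENNReal.ofReal_le_ofReal_iff (by positivity), e]
  refine hL.trans ?_
  gcongr

end Pool.Agent.Helper44.Jef
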