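import Pool.Agent.Helper44.JefVortC

/-! # Vorticity identity of the difference of two solutions -/

open MeasureTheory Set Filter Topology
open scoped ENNReal ContDiff Convolution

namespace Pool.Agent.Helper44.Vort
open Pool.Agent.Helper42.Jef

variable {n : ℕ}

theorem slice_all {v : ST n → Eu n} {G τ : ST n → Mt n} (hv : MemLp v 2 volume)
    (hG : MemLp G 2 volume) (hτ : MemLp τ 2 volume) (μ c : ℝ) (i j : Fin n) {ψ : ST n → ℝ}
    (hψ : SC ψ) (b : ContDiffBump (0 : ℝ)) (s : ℝ) :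
    Integrable fun z : ST n => deriv (b.normed volume) (z.1 - s) *
        (v z i * dx j ψ (s, z.2) - v z j * dx i ψ (s, z.2)) +
      b.normed volume (z.1 - s) * ∑ l, (flux μ c v G τ i l z * dx l (dx j ψ) (s, z.2) -
        flux μ c v G τ j l z * dx l (dx i ψ) (s, z.2)) := by
  have hk : Continuous (b.normed volume) := b.continuous_normed
  have hkc : HasCompactSupport (b.normed volume) := b.hasCompactSupport_normed
  have hks : ContDiff ℝ 1 (b.normed (volume : Measure ℝ)) := b.contDiff_normed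
  have hk' : Continuous (deriv (b.normed (volume : Measure ℝ))) := hks.continuous_deriv le_rfl
  have hkc' : HasCompactSupport (deriv (b.normed (volume : Measure ℝ))) := hkc.deriv
  have S1 := slice_int (l2_loc (comp_mem hv i)) hk' hkc' (hψ.dx j).smooth.continuous
    (hψ.dx j).cpt s
  have S2 := slice_int (l2_loc (comp_mem hv j)) hk' hkc' (hψ.dx i).smooth.continuous
    (hψ.dx i).cpt s
  have S3 := fun l => slice_int (flux_loc hv hG hτ μ c i l) hk hkc
    ((hψ.dx j).dx l).smooth.continuous ((hψ.dx j).dx l).cpt s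
  have S4 := fun l => slice_int (flux_loc hv hG hτ μ c j l) hk hkc
    ((hψ.dx i).dx l).smooth.continuous ((hψ.dx i).dx l).cpt s
  refine ((S1.sub S2).add (integrable_finsetSum Finset.univ fun l _ => (S3 l).sub (S4 l))).congr
    (Eventually.of_forall fun z => ?_)
  simp only [Pi.add_apply, Pi.sub_apply]
  rw [Finset.mul_sum]
  congr 1
  · ring
  · exact Finset.sum_congr rfl fun l _ => by ring

theorem isTime_bump {T δ0 s : ℝ} {K : Set ℝ} (hδ : Metric.cthickening δ0 K ⊆ Ioo 0 T)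
    (hs : s ∈ K) (b : ContDiffBump (0 : ℝ)) (hb : b.rOut < δ0) :
    IsTime 0 T fun t => b.normed volume (t - s) := by
  have hsub : Metric.closedBall s b.rOut ⊆ Ioo 0 T := by
    refine Subset.trans ?_ hδ
    refine (Metric.closedBall_subset_cthickening hs _).trans ?_
    exact Metric.cthickening_mono hb.le _
  have hsupp : tsupport (fun t => b.normed (volume : Measure ℝ) (t - s)) ⊆
      Metric.closedBall s b.rOut := by
    refine closure_minimal ?_ Metric.isClosed_closedBall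
    intro t ht
    have h1 : t - s ∈ Function.support (b.normed (volume : Measure ℝ)) := ht
    rw [b.support_normed_eq, mem_ball_zero_iff] at h1
    rw [Metric.mem_closedBall, dist_eq_norm]
    exact h1.le
  refine ⟨b.contDiff_normed.comp (contDiff_id.sub contDiff_const), ?_, hsupp.trans hsub⟩
  exact (isCompact_closedBall s b.rOut).of_isClosed_subset (isClosed_tsupport _) hsupp

theorem dx_notMem {ψ : ST n → ℝ} {z : ST n} (hz : z ∉ tsupport ψ) (i : Fin n) : dx i ψ z = 0 :=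
  image_eq_zero_of_notMem_tsupport fun h0 => hz (dv_tsupport ψ _ h0)

theorem dxx_notMem {ψ : ST n → ℝ} {z : ST n} (hz : z ∉ tsupport ψ) (l i : Fin n) :
    dx l (dx i ψ) z = 0 := dx_notMem (fun h0 => hz (dv_tsupport ψ _ h0)) l

/-- the identity before integration by parts -/
theorem pre_vort {Ω : Set (Eu n)} {T μ c : ℝ}
    {v1 v2 : ST n → Eu n} {G1 G2 τ1 τ2 : ST n → Mt n}
    (h1 : IsVel Ω T v1 G1) (h2 : IsVel Ω T v2 G2) (hτ1 : MemLp τ1 2 volume)
    (hτ2 : MemLp τ2 2 volume)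
    (hm : ∀ (η : ℝ → ℝ) (φ : Eu n → Eu n), IsTime 0 T η → IsVT Ω φ →
      ∫ z : ST n, (deriv η z.1 * inner ℝ (v1 z) (φ z.2) +
        η z.1 * (inner ℝ (v1 z) (fderiv ℝ φ z.2 (v1 z)) - μ * inner ℝ (G1 z) (grad φ z.2) -
          c * inner ℝ (τ1 z) (sy (grad φ z.2)))) =
      ∫ z : ST n, (deriv η z.1 * inner ℝ (v2 z) (φ z.2) +
        η z.1 * (inner ℝ (v2 z) (fderiv ℝ φ z.2 (v2 z)) - μ * inner ℝ (G2 z) (grad φ z.2) -
          c * inner ℝ (τ2 z) (sy (grad φ z.2)))))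
    (i j : Fin n) {ψ : ST n → ℝ} (hψ : IsTestST Ω T ψ) :
    (∫ z, (v1 z i - v2 z i) * dt (dx j ψ) z) - (∫ z, (v1 z j - v2 z j) * dt (dx i ψ) z) +
      ∑ l, ((∫ z, (flux μ c v1 G1 τ1 i l z - flux μ c v2 G2 τ2 i l z) * dx l (dx j ψ) z) -
        ∫ z, (flux μ c v1 G1 τ1 j l z - flux μ c v2 G2 τ2 j l z) * dx l (dx i ψ) z) = 0 := by
  have hS : SC ψ := ⟨hψ.smooth, hψ.cpt⟩
  have hK : IsCompact (Prod.fst '' tsupport ψ) := hψ.cpt.isCompact.image continuous_fst
  have hKT : Prod.fst '' tsupport ψ ⊆ Ioo 0 T := by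
    rintro _ ⟨z, hz, rfl⟩
    exact (hψ.supp hz).1
  obtain ⟨δ0, hδ0, hδ⟩ := hK.exists_cthickening_subset_open isOpen_Ioo hKT
  refine diag (f1 := fun z => v1 z i - v2 z i) (f2 := fun z => v1 z j - v2 z j)
    (l2_loc ((comp_mem h1.memv i).sub (comp_mem h2.memv i)))
    (l2_loc ((comp_mem h1.memv j).sub (comp_mem h2.memv j))) (hS.dx j) (hS.dx i)
    (g1 := fun l z => flux μ c v1 G1 τ1 i l z - flux μ c v2 G2 τ2 i l z)
    (g2 := fun l z => flux μ c v1 G1 τ1 j l z - flux μ c v2 G2 τ2 j l z)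
    (fun l => (flux_loc h1.memv h1.memG hτ1 μ c i l).sub (flux_loc h2.memv h2.memG hτ2 μ c i l))
    (fun l => (flux_loc h1.memv h1.memG hτ1 μ c j l).sub (flux_loc h2.memv h2.memG hτ2 μ c j l))
    (ξ1 := fun l => dx l (dx j ψ)) (ξ2 := fun l => dx l (dx i ψ))
    (fun l => (hS.dx j).dx l) (fun l => (hS.dx i).dx l) hδ0 ?_
  intro b hb s
  by_cases hs : s ∈ Prod.fst '' tsupport ψ
  · have hη := isTime_bump hδ hs b hb
    have hmom := hm _ _ hη (vph_isVT hψ i j s)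
    rw [integral_congr_ae (Eventually.of_forall fun z => mom_eval hψ.smooth i j s μ c v1 G1 τ1
        (fun t => b.normed volume (t - s)) z),
      integral_congr_ae (Eventually.of_forall fun z => mom_eval hψ.smooth i j s μ c v2 G2 τ2
        (fun t => b.normed volume (t - s)) z)] at hmom
    simp only [deriv_comp_sub_const] at hmom
    have I1 := slice_all h1.memv h1.memG hτ1 μ c i j hS b s
    have I2 := slice_all h2.memv h2.memG hτ2 μ c i j hS b s
    have h3 := sub_eq_zero.2 hmom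
    rw [← integral_sub I1 I2] at h3
    refine Eq.trans ?_ h3
    refine integral_congr_ae (Eventually.of_forall fun z => ?_)
    simp only
    rw [add_sub_add_comm, ← mul_sub, ← mul_sub, ← Finset.sum_sub_distrib]
    congr 1
    · ring
    · congr 1
      exact Finset.sum_congr rfl fun l _ => by ring
  · have hn : ∀ x : Eu n, ((s, x) : ST n) ∉ tsupport ψ := fun x h0 => hs ⟨(s, x), h0, rfl⟩
    refine integral_eq_zero_of_ae (Eventually.of_forall fun z => ?_)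
    simp only [dx_notMem (hn z.2), dxx_notMem (hn z.2), Pi.zero_apply]
    simp

/-- N1: vorticity identity of the difference of two solutions -/
theorem vorticity {Ω : Set (Eu n)} (hΩ : IsOpen Ω) {T μ c : ℝ} (hT : 0 < T)
    {v1 v2 : ST n → Eu n} {G1 G2 τ1 τ2 : ST n → Mt n}
    (h1 : IsVel Ω T v1 G1) (h2 : IsVel Ω T v2 G2) (hτ1 : MemLp τ1 2 volume)
    (hτ2 : MemLp τ2 2 volume)
    (hm : ∀ (η : ℝ → ℝ) (φ : Eu n → Eu n), IsTime 0 T η → IsVT Ω φ →
      ∫ z : ST n, (deriv η z.1 * inner ℝ (v1 z) (φ z.2) +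
        η z.1 * (inner ℝ (v1 z) (fderiv ℝ φ z.2 (v1 z)) - μ * inner ℝ (G1 z) (grad φ z.2) -
          c * inner ℝ (τ1 z) (sy (grad φ z.2)))) =
      ∫ z : ST n, (deriv η z.1 * inner ℝ (v2 z) (φ z.2) +
        η z.1 * (inner ℝ (v2 z) (fderiv ℝ φ z.2 (v2 z)) - μ * inner ℝ (G2 z) (grad φ z.2) -
          c * inner ℝ (τ2 z) (sy (grad φ z.2))))) :
    ∀ i j : Fin n, ∀ ψ, IsTestST Ω T ψ →
      ∫ z, ((G1 z - G2 z) (i, j) - (G1 z - G2 z) (j, i)) *
        (dt ψ z + μ * ∑ l, dx l (dx l ψ) z) =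
      ∫ z, (-((hvec v1 G1 z - hvec v2 G2 z) i * dx j ψ z) +
        (hvec v1 G1 z - hvec v2 G2 z) j * dx i ψ z - c * ∑ l,
        (sy (τ1 z - τ2 z) (l, i) * dx l (dx j ψ) z - sy (τ1 z - τ2 z) (l, j) * dx l (dx i ψ) z)) := by
  intro i j ψ hψ
  have hS : SC ψ := ⟨hψ.smooth, hψ.cpt⟩
  have hpre := pre_vort h1 h2 hτ1 hτ2 hm i j hψ
  -- basic integrals
  have hw : IsVel Ω T (v1 - v2) (G1 - G2) := h1.sub h2
  -- flux terms
  have F : ∀ p l : Fin n, ∀ χ : ST n → ℝ, SC χ →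
      ∫ z, (flux μ c v1 G1 τ1 p l z - flux μ c v2 G2 τ2 p l z) * χ z =
      ((∫ z, χ z * (v1 z l * v1 z p)) - ∫ z, χ z * (v2 z l * v2 z p)) -
        μ * ((∫ z, G1 z (p, l) * χ z) - ∫ z, G2 z (p, l) * χ z) -
        c * ((∫ z, sy (τ1 z) (p, l) * χ z) - ∫ z, sy (τ2 z) (p, l) * χ z) := by
    intro p l χ hχ
    obtain ⟨a1, e1⟩ := flux_split h1.memv h1.memG hτ1 μ c p l hχ
    obtain ⟨a2, e2⟩ := flux_split h2.memv h2.memG hτ2 μ c p l hχ
    have e3 : ∫ z, (flux μ c v1 G1 τ1 p l z - flux μ c v2 G2 τ2 p l z) * χ z =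
        (∫ z, flux μ c v1 G1 τ1 p l z * χ z) - ∫ z, flux μ c v2 G2 τ2 p l z * χ z := by
      rw [← integral_sub a1 a2]
      exact integral_congr_ae (Eventually.of_forall fun z => by simp only; ring)
    rw [e3, e1, e2]
    ring
  have S1 : ∑ l, (∫ z, (flux μ c v1 G1 τ1 i l z - flux μ c v2 G2 τ2 i l z) *
      dx l (dx j ψ) z) = (-(∫ z, hvec v1 G1 z i * dx j ψ z) + ∫ z, hvec v2 G2 z i * dx j ψ z) -
      μ * ∑ l, ((∫ z, G1 z (i, j) * dx l (dx l ψ) z) - ∫ z, G2 z (i, j) * dx l (dx l ψ) z) -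
      c * ∑ l, ((∫ z, sy (τ1 z) (i, l) * dx l (dx j ψ) z) -
        ∫ z, sy (τ2 z) (i, l) * dx l (dx j ψ) z) := by
    have c1 := conv_eq h1 (hS.dx j) i
    have c2 := conv_eq h2 (hS.dx j) i
    rw [show (-(∫ z, hvec v1 G1 z i * dx j ψ z) + ∫ z, hvec v2 G2 z i * dx j ψ z) =
      (-(∫ z, hvec v1 G1 z i * dx j ψ z)) - (-∫ z, hvec v2 G2 z i * dx j ψ z) by ring,
      ← c1, ← c2, ← Finset.sum_sub_distrib, Finset.mul_sum, Finset.mul_sum,
      ← Finset.sum_sub_distrib, ← Finset.sum_sub_distrib]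
    refine Finset.sum_congr rfl fun l _ => ?_
    rw [F i l _ ((hS.dx j).dx l), visc_eq h1 hS i j l, visc_eq h2 hS i j l]
  have S2 : ∑ l, (∫ z, (flux μ c v1 G1 τ1 j l z - flux μ c v2 G2 τ2 j l z) *
      dx l (dx i ψ) z) = (-(∫ z, hvec v1 G1 z j * dx i ψ z) + ∫ z, hvec v2 G2 z j * dx i ψ z) -
      μ * ∑ l, ((∫ z, G1 z (j, i) * dx l (dx l ψ) z) - ∫ z, G2 z (j, i) * dx l (dx l ψ) z) -
      c * ∑ l, ((∫ z, sy (τ1 z) (j, l) * dx l (dx i ψ) z) -
        ∫ z, sy (τ2 z) (j, l) * dx l (dx i ψ) z) := by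
    have c1 := conv_eq h1 (hS.dx i) j
    have c2 := conv_eq h2 (hS.dx i) j
    rw [show (-(∫ z, hvec v1 G1 z j * dx i ψ z) + ∫ z, hvec v2 G2 z j * dx i ψ z) =
      (-(∫ z, hvec v1 G1 z j * dx i ψ z)) - (-∫ z, hvec v2 G2 z j * dx i ψ z) by ring,
      ← c1, ← c2, ← Finset.sum_sub_distrib, Finset.mul_sum, Finset.mul_sum,
      ← Finset.sum_sub_distrib, ← Finset.sum_sub_distrib]
    refine Finset.sum_congr rfl fun l _ => ?_
    rw [F j l _ ((hS.dx i).dx l), visc_eq h1 hS j i l, visc_eq h2 hS j i l]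
  have D1 : ∀ p q : Fin n, ∫ z, (v1 z p - v2 z p) * dt (dx q ψ) z =
      -((∫ z, G1 z (p, q) * dt ψ z) - ∫ z, G2 z (p, q) * dt ψ z) := by
    intro p q
    have e1 := time_eq hw hS p q
    rw [← integral_sub (int2 (comp_mem h1.memG (p, q)) (hS.dt.memLp 2))
      (int2 (comp_mem h2.memG (p, q)) (hS.dt.memLp 2))]
    refine e1.trans ?_
    congr 1
    exact integral_congr_ae (Eventually.of_forall fun z => by
      simp only [Pi.sub_apply, PiLp.sub_apply]; ring)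
  rw [Finset.sum_sub_distrib, S1, S2, D1, D1] at hpre
  -- the left side of the goal
  have gI : ∀ p : Fin n × Fin n, ∀ χ : ST n → ℝ, SC χ → Integrable (fun z => G1 z p * χ z) :=
    fun p χ hχ => int2 (comp_mem h1.memG p) (hχ.memLp 2)
  have gI2 : ∀ p : Fin n × Fin n, ∀ χ : ST n → ℝ, SC χ → Integrable (fun z => G2 z p * χ z) :=
    fun p χ hχ => int2 (comp_mem h2.memG p) (hχ.memLp 2)
  have tI : ∀ p : Fin n × Fin n, ∀ χ : ST n → ℝ, SC χ →
      Integrable (fun z => sy (τ1 z) p * χ z) :=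
    fun p χ hχ => int2 (comp_mem (sy_mem hτ1) p) (hχ.memLp 2)
  have tI2 : ∀ p : Fin n × Fin n, ∀ χ : ST n → ℝ, SC χ →
      Integrable (fun z => sy (τ2 z) p * χ z) :=
    fun p χ hχ => int2 (comp_mem (sy_mem hτ2) p) (hχ.memLp 2)
  have om : ∀ χ : ST n → ℝ, SC χ → (Integrable fun z => ((G1 z - G2 z) (i, j) -
      (G1 z - G2 z) (j, i)) * χ z) ∧ ∫ z, ((G1 z - G2 z) (i, j) - (G1 z - G2 z) (j, i)) * χ z =
      ((∫ z, G1 z (i, j) * χ z) - ∫ z, G2 z (i, j) * χ z) -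
      ((∫ z, G1 z (j, i) * χ z) - ∫ z, G2 z (j, i) * χ z) := by
    intro χ hχ
    have a1 : Integrable fun z => G1 z (i, j) * χ z - G2 z (i, j) * χ z :=
      (gI _ χ hχ).sub (gI2 _ χ hχ)
    have a2 : Integrable fun z => G1 z (j, i) * χ z - G2 z (j, i) * χ z :=
      (gI _ χ hχ).sub (gI2 _ χ hχ)
    have e : ∀ z, ((G1 z - G2 z) (i, j) - (G1 z - G2 z) (j, i)) * χ z =
        (G1 z (i, j) * χ z - G2 z (i, j) * χ z) - (G1 z (j, i) * χ z - G2 z (j, i) * χ z) := by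
      intro z
      simp only [PiLp.sub_apply]
      ring
    simp only [e]
    refine ⟨a1.sub a2, ?_⟩
    rw [integral_sub a1 a2, integral_sub (gI _ χ hχ) (gI2 _ χ hχ),
      integral_sub (gI _ χ hχ) (gI2 _ χ hχ)]
  have L : ∫ z, ((G1 z - G2 z) (i, j) - (G1 z - G2 z) (j, i)) *
        (dt ψ z + μ * ∑ l, dx l (dx l ψ) z) =
      (((∫ z, G1 z (i, j) * dt ψ z) - ∫ z, G2 z (i, j) * dt ψ z) -
      ((∫ z, G1 z (j, i) * dt ψ z) - ∫ z, G2 z (j, i) * dt ψ z)) + μ * ∑ l,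
      (((∫ z, G1 z (i, j) * dx l (dx l ψ) z) - ∫ z, G2 z (i, j) * dx l (dx l ψ) z) -
      ((∫ z, G1 z (j, i) * dx l (dx l ψ) z) - ∫ z, G2 z (j, i) * dx l (dx l ψ) z)) := by
    have o1 := om _ hS.dt
    have o2 := fun l => om _ ((hS.dx l).dx l)
    rw [← o1.2, ← Finset.sum_congr rfl fun l _ => (o2 l).2,
      ← integral_finsetSum _ fun l _ => (o2 l).1, ← integral_const_mul,
      ← integral_add o1.1 ((integrable_finsetSum _ fun l _ => (o2 l).1).const_mul μ)]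
    refine integral_congr_ae (Eventually.of_forall fun z => ?_)
    simp only
    rw [← Finset.mul_sum]
    ring
  -- the right side of the goal
  have sI : ∀ l, Integrable fun z => sy (τ1 z) (i, l) * dx l (dx j ψ) z -
      sy (τ2 z) (i, l) * dx l (dx j ψ) z - (sy (τ1 z) (j, l) * dx l (dx i ψ) z -
      sy (τ2 z) (j, l) * dx l (dx i ψ) z) := fun l =>
    ((tI (i, l) _ ((hS.dx j).dx l)).sub (tI2 (i, l) _ ((hS.dx j).dx l))).sub
      ((tI (j, l) _ ((hS.dx i).dx l)).sub (tI2 (j, l) _ ((hS.dx i).dx l)))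
  have sV : ∀ l, ∫ z, (sy (τ1 z) (i, l) * dx l (dx j ψ) z -
      sy (τ2 z) (i, l) * dx l (dx j ψ) z - (sy (τ1 z) (j, l) * dx l (dx i ψ) z -
      sy (τ2 z) (j, l) * dx l (dx i ψ) z)) = ((∫ z, sy (τ1 z) (i, l) * dx l (dx j ψ) z) -
        ∫ z, sy (τ2 z) (i, l) * dx l (dx j ψ) z) - ((∫ z, sy (τ1 z) (j, l) * dx l (dx i ψ) z) -
        ∫ z, sy (τ2 z) (j, l) * dx l (dx i ψ) z) := by
    intro l
    have a1 : Integrable fun z => sy (τ1 z) (i, l) * dx l (dx j ψ) z -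
      sy (τ2 z) (i, l) * dx l (dx j ψ) z :=
      (tI (i, l) _ ((hS.dx j).dx l)).sub (tI2 (i, l) _ ((hS.dx j).dx l))
    have a2 : Integrable fun z => sy (τ1 z) (j, l) * dx l (dx i ψ) z -
      sy (τ2 z) (j, l) * dx l (dx i ψ) z :=
      (tI (j, l) _ ((hS.dx i).dx l)).sub (tI2 (j, l) _ ((hS.dx i).dx l))
    rw [integral_sub a1 a2,
      integral_sub (tI (i, l) _ ((hS.dx j).dx l)) (tI2 (i, l) _ ((hS.dx j).dx l)),
      integral_sub (tI (j, l) _ ((hS.dx i).dx l)) (tI2 (j, l) _ ((hS.dx i).dx l))]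
  have b1 := hvec_int h1 (hS.dx j) i
  have b2 := hvec_int h2 (hS.dx j) i
  have b3 := hvec_int h1 (hS.dx i) j
  have b4 := hvec_int h2 (hS.dx i) j
  have R : ∫ z, (-((hvec v1 G1 z - hvec v2 G2 z) i * dx j ψ z) +
        (hvec v1 G1 z - hvec v2 G2 z) j * dx i ψ z - c * ∑ l,
        (sy (τ1 z - τ2 z) (l, i) * dx l (dx j ψ) z -
          sy (τ1 z - τ2 z) (l, j) * dx l (dx i ψ) z)) =
      -((∫ z, hvec v1 G1 z i * dx j ψ z) - ∫ z, hvec v2 G2 z i * dx j ψ z) +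
      ((∫ z, hvec v1 G1 z j * dx i ψ z) - ∫ z, hvec v2 G2 z j * dx i ψ z) - c * ∑ l,
      (((∫ z, sy (τ1 z) (i, l) * dx l (dx j ψ) z) - ∫ z, sy (τ2 z) (i, l) * dx l (dx j ψ) z) -
      ((∫ z, sy (τ1 z) (j, l) * dx l (dx i ψ) z) -
        ∫ z, sy (τ2 z) (j, l) * dx l (dx i ψ) z)) := by
    have a12 : Integrable fun z => hvec v1 G1 z i * dx j ψ z - hvec v2 G2 z i * dx j ψ z :=
      b1.sub b2
    have a34 : Integrable fun z => hvec v1 G1 z j * dx i ψ z - hvec v2 G2 z j * dx i ψ z :=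
      b3.sub b4
    have a12n : Integrable fun z => -(hvec v1 G1 z i * dx j ψ z - hvec v2 G2 z i * dx j ψ z) :=
      a12.neg
    have a5 : Integrable fun z => -(hvec v1 G1 z i * dx j ψ z - hvec v2 G2 z i * dx j ψ z) +
        (hvec v1 G1 z j * dx i ψ z - hvec v2 G2 z j * dx i ψ z) := a12n.add a34
    rw [← integral_sub b1 b2, ← integral_sub b3 b4, ← integral_neg,
      ← Finset.sum_congr rfl fun l _ => sV l, ← integral_finsetSum _ fun l _ => sI l,
      ← integral_const_mul, ← integral_add a12n a34,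
      ← integral_sub a5 ((integrable_finsetSum _ fun l _ => sI l).const_mul c)]
    refine integral_congr_ae (Eventually.of_forall fun z => ?_)
    simp only [PiLp.sub_apply]
    congr 1
    · ring
    · congr 1
      refine Finset.sum_congr rfl fun l _ => ?_
      simp only [sy_apply, PiLp.sub_apply, Prod.swap_prod_mk]
      ring
  rw [L, R]
  rw [Finset.sum_sub_distrib (f := fun l => (∫ z, G1 z (i, j) * dx l (dx l ψ) z) -
      ∫ z, G2 z (i, j) * dx l (dx l ψ) z),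
    Finset.sum_sub_distrib (f := fun l => (∫ z, sy (τ1 z) (i, l) * dx l (dx j ψ) z) -
      ∫ z, sy (τ2 z) (i, l) * dx l (dx j ψ) z)]
  linear_combination -hpre

end Pool.Agent.Helper44.Vort
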