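import Pool.Agent.Helper42.Jef.Vel2
import Pool.Agent.Helper42.Jef.Defs3

/-! # Scalar tests on space-time -/

open MeasureTheory Set Filter Topology
open scoped ENNReal ContDiff

namespace Pool.Agent.Helper44.Vort
open Pool.Agent.Helper42.Jef

variable {n : ℕ}

/-- smooth functions of compact support on space-time -/
structure SC (χ : ST n → ℝ) : Prop where
  smooth : ContDiff ℝ ∞ χ
  cpt : HasCompactSupport χ

/-- derivative in a fixed direction -/
noncomputable def dv (w : ST n) (χ : ST n → ℝ) (z : ST n) : ℝ := fderiv ℝ χ z w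

theorem dt_eq (χ : ST n → ℝ) : dt χ = dv (1, 0) χ := rfl
theorem dx_eq (i : Fin n) (χ : ST n → ℝ) : dx i χ = dv (0, bv i) χ := rfl

theorem dv_smooth {χ : ST n → ℝ} (h : ContDiff ℝ ∞ χ) (w : ST n) : ContDiff ℝ ∞ (dv w χ) :=
  (h.fderiv_right (m := ∞) (by simp)).clm_apply contDiff_const

theorem dv_tsupport (χ : ST n → ℝ) (w : ST n) : tsupport (dv w χ) ⊆ tsupport χ := by
  refine (closure_minimal ?_ (isClosed_tsupport _)).trans (tsupport_fderiv_subset ℝ (f := χ))
  intro z hz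
  refine subset_closure ?_
  intro h0
  exact hz (by show fderiv ℝ χ z w = 0; rw [h0]; rfl)

theorem SC.dv {χ : ST n → ℝ} (h : SC χ) (w : ST n) : SC (dv w χ) :=
  ⟨dv_smooth h.smooth w, h.cpt.of_isClosed_subset (isClosed_tsupport _) (dv_tsupport χ w)⟩

theorem SC.dx {χ : ST n → ℝ} (h : SC χ) (i : Fin n) : SC (dx i χ) := h.dv _
theorem SC.dt {χ : ST n → ℝ} (h : SC χ) : SC (dt χ) := h.dv _

theorem dv_comm {χ : ST n → ℝ} (h : ContDiff ℝ ∞ χ) (w w' : ST n) (z : ST n) :
    Vort.dv w (Vort.dv w' χ) z = Vort.dv w' (Vort.dv w χ) z := by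
  have hd : DifferentiableAt ℝ (fderiv ℝ χ) z :=
    (h.fderiv_right (m := ∞) (by simp)).differentiable (by simp) z
  have e : ∀ a b : ST n, Vort.dv a (Vort.dv b χ) z = fderiv ℝ (fderiv ℝ χ) z a b := by
    intro a b
    show fderiv ℝ (fun y => fderiv ℝ χ y b) z a = _
    rw [fderiv_clm_apply hd (differentiableAt_const b)]
    simp
  have hs : IsSymmSndFDerivAt ℝ χ z := h.contDiffAt.isSymmSndFDerivAt (by
    rw [minSmoothness_of_isRCLikeNormedField]; exact WithTop.coe_le_coe.2 le_top)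
  rw [e, e]
  exact hs w w'

theorem dv_line {χ : ST n → ℝ} (h : ContDiff ℝ ∞ χ) (w z : ST n) :
    HasLineDerivAt ℝ χ (Vort.dv w χ z) z w :=
  (h.differentiable (by simp) z).hasFDerivAt.hasLineDerivAt w

theorem SC.memLp {χ : ST n → ℝ} (h : SC χ) (p : ℝ≥0∞) : MemLp χ p volume :=
  h.smooth.continuous.memLp_of_hasCompactSupport h.cpt

theorem SC.bdd {χ : ST n → ℝ} (h : SC χ) : ∃ C : ℝ, ∀ z, |χ z| ≤ C := by
  obtain ⟨C, hC⟩ := h.smooth.continuous.bounded_above_of_compact_support h.cpt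
  exact ⟨C, fun z => by simpa using hC z⟩

theorem SC.aesm {χ : ST n → ℝ} (h : SC χ) : AEStronglyMeasurable χ volume :=
  h.smooth.continuous.aestronglyMeasurable

/-- slices of scalar tests -/
theorem slice_smooth {χ : ST n → ℝ} (h : ContDiff ℝ ∞ χ) (s : ℝ) :
    ContDiff ℝ ∞ (fun x : Eu n => χ (s, x)) := h.comp (contDiff_prodMk_right s)

theorem slice_fderiv {χ : ST n → ℝ} (h : ContDiff ℝ ∞ χ) (s : ℝ) (x v : Eu n) :
    fderiv ℝ (fun x : Eu n => χ (s, x)) x v = Vort.dv (0, v) χ (s, x) := by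
  have h1 : HasFDerivAt (fun x : Eu n => ((s, x) : ST n))
      ((0 : Eu n →L[ℝ] ℝ).prod (ContinuousLinearMap.id ℝ (Eu n))) x :=
    (hasFDerivAt_const s x).prodMk (hasFDerivAt_id x)
  have h2 : HasFDerivAt χ (fderiv ℝ χ (s, x)) (s, x) :=
    (h.differentiable (by simp) _).hasFDerivAt
  have h3 : HasFDerivAt (fun x : Eu n => χ (s, x)) ((fderiv ℝ χ (s, x)).comp
      ((0 : Eu n →L[ℝ] ℝ).prod (ContinuousLinearMap.id ℝ (Eu n)))) x := h2.comp x h1
  rw [h3.fderiv]
  rfl

theorem dv_sum {χ : ST n → ℝ} (z : ST n) (v : Eu n) :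
    Vort.dv (0, v) χ z = ∑ l, v l * dx l χ z := by
  have h1 : ((0 : ℝ), v) = ∑ l, v l • ((0 : ℝ), (bv l : Eu n)) := by
    refine Prod.ext ?_ ?_
    · simp [Prod.fst_sum]
    · rw [Prod.snd_sum]
      ext k
      simp [bv, Pi.single_apply]
  show fderiv ℝ χ z (0, v) = _
  rw [h1, map_sum]
  refine Finset.sum_congr rfl fun l _ => ?_
  rw [map_smul, smul_eq_mul]
  rfl

/-- the velocity test field built from `ψ` at time `s` -/
noncomputable def vph (ψ : ST n → ℝ) (i j : Fin n) (s : ℝ) (x : Eu n) : Eu n :=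
  dx j ψ (s, x) • bv i - dx i ψ (s, x) • bv j

theorem vph_fderiv {ψ : ST n → ℝ} (h : ContDiff ℝ ∞ ψ) (i j : Fin n) (s : ℝ) (x v : Eu n) :
    fderiv ℝ (vph ψ i j s) x v =
      Vort.dv (0, v) (dx j ψ) (s, x) • bv i - Vort.dv (0, v) (dx i ψ) (s, x) • bv j := by
  have ha := slice_smooth (dv_smooth h (0, bv j)) s
  have hb := slice_smooth (dv_smooth h (0, bv i)) s
  have da : HasFDerivAt (fun x : Eu n => dx j ψ (s, x))
    (fderiv ℝ (fun x : Eu n => dx j ψ (s, x)) x) x := (ha.differentiable (by simp) x).hasFDerivAt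
  have db : HasFDerivAt (fun x : Eu n => dx i ψ (s, x))
    (fderiv ℝ (fun x : Eu n => dx i ψ (s, x)) x) x := (hb.differentiable (by simp) x).hasFDerivAt
  have h1 := (da.smul_const (bv i)).sub (db.smul_const (bv j))
  have h2 : fderiv ℝ (vph ψ i j s) x = _ := h1.fderiv
  rw [h2]
  simp only [sub_apply, ContinuousLinearMap.smulRight_apply]
  have e1 : fderiv ℝ (fun x : Eu n => dx j ψ (s, x)) x v = Vort.dv (0, v) (dx j ψ) (s, x) :=
    slice_fderiv (dv_smooth h _) s x v
  have e2 : fderiv ℝ (fun x : Eu n => dx i ψ (s, x)) x v = Vort.dv (0, v) (dx i ψ) (s, x) :=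
    slice_fderiv (dv_smooth h _) s x v
  rw [e1, e2]

theorem bv_apply (i k : Fin n) : (bv i : Eu n) k = if k = i then 1 else 0 := by
  simp [bv]

theorem bv_inner (v : Eu n) (i : Fin n) : inner ℝ v (bv i) = v i := by
  simp [bv, EuclideanSpace.inner_single_right]

theorem vph_grad {ψ : ST n → ℝ} (h : ContDiff ℝ ∞ ψ) (i j : Fin n) (s : ℝ) (x : Eu n)
    (p l : Fin n) : grad (vph ψ i j s) x (p, l) =
      (if p = i then dx l (dx j ψ) (s, x) else 0) - (if p = j then dx l (dx i ψ) (s, x) else 0) := by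
  rw [grad_apply, vph_fderiv h]
  simp only [PiLp.sub_apply, PiLp.smul_apply, bv_apply, smul_eq_mul]
  show dx l (dx j ψ) (s, x) * _ - dx l (dx i ψ) (s, x) * _ = _
  split_ifs <;> simp

theorem vph_isVT {Ω : Set (Eu n)} {T : ℝ} {ψ : ST n → ℝ} (h : IsTestST Ω T ψ) (i j : Fin n)
    (s : ℝ) : IsVT Ω (vph ψ i j s) := by
  have hK : IsCompact (Prod.snd '' tsupport ψ) := h.cpt.isCompact.image continuous_snd
  have hKΩ : Prod.snd '' tsupport ψ ⊆ Ω := by
    rintro _ ⟨z, hz, rfl⟩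
    exact (h.supp hz).2
  have hsupp : tsupport (vph ψ i j s) ⊆ Prod.snd '' tsupport ψ := by
    refine closure_minimal ?_ hK.isClosed
    intro x hx
    by_contra hc
    apply hx
    have hn : ((s, x) : ST n) ∉ tsupport ψ := fun h0 => hc ⟨(s, x), h0, rfl⟩
    have h1 : dx j ψ (s, x) = 0 :=
      image_eq_zero_of_notMem_tsupport fun h0 => hn (dv_tsupport ψ _ h0)
    have h2 : dx i ψ (s, x) = 0 :=
      image_eq_zero_of_notMem_tsupport fun h0 => hn (dv_tsupport ψ _ h0)
    show dx j ψ (s, x) • bv i - dx i ψ (s, x) • bv j = 0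
    rw [h1, h2]; simp
  refine ⟨?_, ?_, hsupp.trans hKΩ, ?_⟩
  · exact ((slice_smooth (dv_smooth h.smooth (0, bv j)) s).smul contDiff_const).sub
      ((slice_smooth (dv_smooth h.smooth (0, bv i)) s).smul contDiff_const)
  · exact hK.of_isClosed_subset (isClosed_tsupport _) hsupp
  · intro x
    rw [dvg_eq_grad]
    simp only [vph_grad h.smooth]
    rw [Finset.sum_sub_distrib]
    simp only [Finset.sum_ite_eq', Finset.mem_univ, if_true]
    rw [sub_eq_zero]
    exact dv_comm h.smooth _ _ _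

/-- the flux of the momentum equation -/
noncomputable def flux (μ c : ℝ) (v : ST n → Eu n) (G τ : ST n → Mt n) (p l : Fin n) (z : ST n) :
    ℝ := v z p * v z l - μ * G z (p, l) - c * sy (τ z) (p, l)

/-- evaluation of the integrand of the momentum identity at the test field `vph` -/
theorem mom_eval {ψ : ST n → ℝ} (h : ContDiff ℝ ∞ ψ) (i j : Fin n) (s : ℝ) (μ c : ℝ)
    (v : ST n → Eu n) (G τ : ST n → Mt n) (η : ℝ → ℝ) (z : ST n) :
    (deriv η z.1 * inner ℝ (v z) (vph ψ i j s z.2) +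
        η z.1 * (inner ℝ (v z) (fderiv ℝ (vph ψ i j s) z.2 (v z)) -
          μ * inner ℝ (G z) (grad (vph ψ i j s) z.2) -
          c * inner ℝ (τ z) (sy (grad (vph ψ i j s) z.2)))) =
    deriv η z.1 * (v z i * dx j ψ (s, z.2) - v z j * dx i ψ (s, z.2)) +
      η z.1 * ∑ l, (flux μ c v G τ i l z * dx l (dx j ψ) (s, z.2) -
        flux μ c v G τ j l z * dx l (dx i ψ) (s, z.2)) := by
  have e1 : inner ℝ (v z) (vph ψ i j s z.2) =
      v z i * dx j ψ (s, z.2) - v z j * dx i ψ (s, z.2) := by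
    show inner ℝ (v z) (dx j ψ (s, z.2) • bv i - dx i ψ (s, z.2) • bv j) = _
    rw [inner_sub_right, inner_smul_right, inner_smul_right, bv_inner, bv_inner]
    ring
  have e2 : inner ℝ (v z) (fderiv ℝ (vph ψ i j s) z.2 (v z)) =
      ∑ l, (v z i * v z l * dx l (dx j ψ) (s, z.2) - v z j * v z l * dx l (dx i ψ) (s, z.2)) := by
    rw [vph_fderiv h, inner_sub_right, inner_smul_right, inner_smul_right, bv_inner, bv_inner,
      dv_sum, dv_sum, Finset.sum_sub_distrib, Finset.sum_mul, Finset.sum_mul]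
    congr 1 <;> exact Finset.sum_congr rfl fun l _ => by ring
  have e3 : ∀ A : Mt n, inner ℝ A (grad (vph ψ i j s) z.2) =
      ∑ l, (A (i, l) * dx l (dx j ψ) (s, z.2) - A (j, l) * dx l (dx i ψ) (s, z.2)) := by
    intro A
    rw [PiLp.inner_apply, Fintype.sum_prod_type, Finset.sum_comm]
    refine Finset.sum_congr rfl fun l _ => ?_
    simp only [vph_grad h, RCLike.inner_apply, conj_trivial, sub_mul, ite_mul, zero_mul]
    rw [Finset.sum_sub_distrib]
    simp only [Finset.sum_ite_eq', Finset.mem_univ, if_true]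
    ring
  rw [e1, e2, e3, ← inner_sy_left, e3]
  congr 1
  rw [Finset.mul_sum (a := μ), Finset.mul_sum (a := c), ← Finset.sum_sub_distrib,
    ← Finset.sum_sub_distrib]
  congr 1
  refine Finset.sum_congr rfl fun l _ => ?_
  unfold flux
  ring

end Pool.Agent.Helper44.Vort
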