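import Pool.Agent.Helper44.JefVortA

/-! # Mollification in time of product tests -/

open MeasureTheory Set Filter Topology
open scoped ENNReal ContDiff Convolution

namespace Pool.Agent.Helper44.Vort
open Pool.Agent.Helper42.Jef

variable {n : ℕ}

theorem cpt_ball {E : Type*} [NormedAddCommGroup E] {k : E → ℝ} (h : HasCompactSupport k) :
    ∃ R : ℝ, 0 < R ∧ ∀ x, R < ‖x‖ → k x = 0 := by
  obtain ⟨R, hR⟩ := h.isCompact.isBounded.subset_closedBall (0 : E)
  refine ⟨max R 1, lt_of_lt_of_le one_pos (le_max_right _ _), fun x hx => ?_⟩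
  refine image_eq_zero_of_notMem_tsupport fun hc => ?_
  have := hR hc
  rw [mem_closedBall_zero_iff] at this
  exact absurd ((le_max_left R 1).trans_lt hx) (not_lt.2 this)

theorem cc_bdd {E : Type*} [NormedAddCommGroup E] {k : E → ℝ} (hk : Continuous k)
    (h : HasCompactSupport k) : ∃ C : ℝ, 0 ≤ C ∧ ∀ x, |k x| ≤ C := by
  obtain ⟨C, hC⟩ := hk.bounded_above_of_compact_support h
  exact ⟨max C 0, le_max_right _ _, fun x => ((hC x).trans (le_max_left _ _))⟩

theorem int_ball {f : ST n → ℝ} (hf : LocallyIntegrable f volume) (R C : ℝ) :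
    Integrable ((Metric.closedBall (0 : ST n) R).indicator fun z => C * |f z|) volume := by
  rw [integrable_indicator_iff Metric.isClosed_closedBall.measurableSet]
  exact ((hf.integrableOn_isCompact (isCompact_closedBall _ _)).abs).const_mul C

theorem joint_bound {f : ST n → ℝ} {k : ℝ → ℝ} {χ : ST n → ℝ} {R1 R2 C1 C2 : ℝ}
    (hR1 : 0 < R1)
    (h1 : ∀ x, R1 < ‖x‖ → k x = 0) (h2 : ∀ x, R2 < ‖x‖ → χ x = 0) (hC1 : ∀ x, |k x| ≤ C1)
    (hC10 : 0 ≤ C1) (hC2 : ∀ x, |χ x| ≤ C2) (hC20 : 0 ≤ C2) (s : ℝ) (z : ST n) :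
    ‖k (z.1 - s) * (f z * χ (s, z.2))‖ ≤
      (Metric.closedBall (0 : ℝ) R2).indicator (fun _ => (1 : ℝ)) s *
        (Metric.closedBall (0 : ST n) (R1 + R2)).indicator (fun z => (C1 * C2) * |f z|) z := by
  by_cases hk0 : R1 < ‖z.1 - s‖
  · rw [h1 _ hk0, zero_mul, norm_zero]
    refine mul_nonneg (indicator_nonneg (fun _ _ => by norm_num) _)
      (indicator_nonneg (fun _ _ => by positivity) _)
  by_cases hk1 : R2 < ‖((s, z.2) : ST n)‖
  · rw [h2 _ hk1, mul_zero, mul_zero, norm_zero]
    refine mul_nonneg (indicator_nonneg (fun _ _ => by norm_num) _)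
      (indicator_nonneg (fun _ _ => by positivity) _)
  rw [not_lt] at hk0 hk1
  have hs : |s| ≤ R2 := (le_max_left _ _).trans hk1
  have hx : ‖z.2‖ ≤ R2 := (le_max_right _ _).trans hk1
  have ht : ‖z.1‖ ≤ R1 + R2 := by
    calc ‖z.1‖ = ‖(z.1 - s) + s‖ := by rw [sub_add_cancel]
      _ ≤ ‖z.1 - s‖ + ‖s‖ := norm_add_le _ _
      _ ≤ _ := add_le_add hk0 hs
  have hz : ‖z‖ ≤ R1 + R2 := max_le ht (hx.trans (by linarith))
  rw [indicator_of_mem (by rw [mem_closedBall_zero_iff]; exact hs),
    indicator_of_mem (by rw [mem_closedBall_zero_iff]; exact hz), one_mul, norm_mul, norm_mul]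
  simp only [Real.norm_eq_abs]
  calc |k (z.1 - s)| * (|f z| * |χ (s, z.2)|) ≤ C1 * (|f z| * C2) := by
        refine mul_le_mul (hC1 _) ?_ (by positivity) hC10
        exact mul_le_mul_of_nonneg_left (hC2 _) (abs_nonneg _)
    _ = _ := by ring

/-- joint integrability -/
theorem joint_int {f : ST n → ℝ} (hf : LocallyIntegrable f volume) {k : ℝ → ℝ}
    (hk : Continuous k) (hkc : HasCompactSupport k) {χ : ST n → ℝ} (hχ : Continuous χ)
    (hχc : HasCompactSupport χ) :
    Integrable (fun p : ℝ × ST n => k (p.2.1 - p.1) * (f p.2 * χ (p.1, p.2.2)))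
      ((volume : Measure ℝ).prod (volume : Measure (ST n))) := by
  obtain ⟨R1, hR1, h1⟩ := cpt_ball hkc
  obtain ⟨R2, hR2, h2⟩ := cpt_ball hχc
  obtain ⟨C1, hC10, hC1⟩ := cc_bdd hk hkc
  obtain ⟨C2, hC20, hC2⟩ := cc_bdd hχ hχc
  have hi : Integrable ((Metric.closedBall (0 : ℝ) R2).indicator (fun _ => (1 : ℝ))) volume := by
    rw [integrable_indicator_iff Metric.isClosed_closedBall.measurableSet]
    exact integrableOn_const (isCompact_closedBall (0 : ℝ) R2).measure_lt_top.ne
  refine (hi.mul_prod (int_ball hf (R1 + R2) (C1 * C2))).mono' ?_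
    (Eventually.of_forall fun p => joint_bound hR1 h1 h2 hC1 hC10 hC2 hC20 p.1 p.2)
  have m1 : Continuous fun p : ℝ × ST n => k (p.2.1 - p.1) := hk.comp (by fun_prop)
  have m2 : Continuous fun p : ℝ × ST n => χ (p.1, p.2.2) := hχ.comp (by fun_prop)
  exact m1.aestronglyMeasurable.mul (hf.aestronglyMeasurable.comp_snd.mul m2.aestronglyMeasurable)

/-- integrability of every slice -/
theorem slice_int {f : ST n → ℝ} (hf : LocallyIntegrable f volume) {k : ℝ → ℝ}
    (hk : Continuous k) (hkc : HasCompactSupport k) {χ : ST n → ℝ} (hχ : Continuous χ)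
    (hχc : HasCompactSupport χ) (s : ℝ) :
    Integrable (fun z : ST n => k (z.1 - s) * (f z * χ (s, z.2))) := by
  obtain ⟨R1, hR1, h1⟩ := cpt_ball hkc
  obtain ⟨R2, hR2, h2⟩ := cpt_ball hχc
  obtain ⟨C1, hC10, hC1⟩ := cc_bdd hk hkc
  obtain ⟨C2, hC20, hC2⟩ := cc_bdd hχ hχc
  refine ((int_ball hf (R1 + R2) (C1 * C2)).const_mul
    ((Metric.closedBall (0 : ℝ) R2).indicator (fun _ => (1 : ℝ)) s)).mono' ?_
    (Eventually.of_forall fun z => joint_bound hR1 h1 h2 hC1 hC10 hC2 hC20 s z)
  have m1 : Continuous fun z : ST n => k (z.1 - s) := hk.comp (by fun_prop)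
  have m2 : Continuous fun z : ST n => χ (s, z.2) := hχ.comp (by fun_prop)
  exact m1.aestronglyMeasurable.mul (hf.aestronglyMeasurable.mul m2.aestronglyMeasurable)

theorem moll_swap {f : ST n → ℝ} (hf : LocallyIntegrable f volume) {k : ℝ → ℝ}
    (hk : Continuous k) (hkc : HasCompactSupport k) {χ : ST n → ℝ} (hχ : Continuous χ)
    (hχc : HasCompactSupport χ) :
    ∫ s, ∫ z : ST n, k (z.1 - s) * (f z * χ (s, z.2)) =
      ∫ z : ST n, f z * ∫ s, k (z.1 - s) * χ (s, z.2) := by
  rw [integral_integral_swap (joint_int hf hk hkc hχ hχc)]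
  refine integral_congr_ae (Eventually.of_forall fun z => ?_)
  simp only
  rw [← integral_const_mul]
  refine integral_congr_ae (Eventually.of_forall fun s => ?_)
  simp only
  ring

theorem moll_tendsto {f : ST n → ℝ} (hf : LocallyIntegrable f volume) {χ : ST n → ℝ}
    (hχ : Continuous χ) (hχc : HasCompactSupport χ) {b : ℕ → ContDiffBump (0 : ℝ)}
    (hb : Tendsto (fun m => (b m).rOut) atTop (𝓝 0)) (hb1 : ∀ m, (b m).rOut ≤ 1) :
    Tendsto (fun m => ∫ s, ∫ z : ST n, (b m).normed volume (z.1 - s) * (f z * χ (s, z.2)))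
      atTop (𝓝 (∫ z, f z * χ z)) := by
  have hk : ∀ m, Continuous ((b m).normed volume) := fun m => (b m).continuous_normed
  have hkc : ∀ m, HasCompactSupport ((b m).normed volume) := fun m =>
    (b m).hasCompactSupport_normed
  simp only [fun m => moll_swap hf (hk m) (hkc m) hχ hχc]
  obtain ⟨R2, hR2, h2⟩ := cpt_ball hχc
  obtain ⟨C2, hC20, hC2⟩ := cc_bdd hχ hχc
  have hg : ∀ z : ST n, Continuous fun s : ℝ => χ (s, z.2) := fun z => hχ.comp (by fun_prop)
  have hI : ∀ m (z : ST n), Integrable fun s => (b m).normed volume (z.1 - s) * χ (s, z.2) := by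
    intro m z
    have hc : HasCompactSupport fun s : ℝ => χ (s, z.2) := by
      refine HasCompactSupport.intro (isCompact_closedBall (0 : ℝ) R2) fun s hs => ?_
      refine h2 _ (lt_of_lt_of_le ?_ (le_max_left _ _))
      rw [mem_closedBall_zero_iff, not_le] at hs
      exact hs
    exact (((hk m).comp (by fun_prop)).mul (hg z)).integrable_of_hasCompactSupport hc.mul_left
  have hbd : ∀ m (z : ST n), |∫ s, (b m).normed volume (z.1 - s) * χ (s, z.2)| ≤
      (Metric.closedBall (0 : ST n) (1 + R2)).indicator (fun _ => C2) z := by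
    intro m z
    by_cases hz : z ∈ Metric.closedBall (0 : ST n) (1 + R2)
    · rw [indicator_of_mem hz]
      have h3 : ∫ s, (b m).normed volume (z.1 - s) = 1 := by
        rw [integral_sub_left_eq_self (fun s => (b m).normed volume s) volume z.1]
        exact (b m).integral_normed
      have h4 : Integrable fun s => (b m).normed volume (z.1 - s) :=
        ((hk m).integrable_of_hasCompactSupport (hkc m)).comp_sub_left z.1
      calc |∫ s, (b m).normed volume (z.1 - s) * χ (s, z.2)|
          ≤ ∫ s, |(b m).normed volume (z.1 - s) * χ (s, z.2)| := abs_integral_le_integral_abs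
        _ ≤ ∫ s, (b m).normed volume (z.1 - s) * C2 := by
            refine integral_mono (hI m z).abs (h4.mul_const _) fun s => ?_
            simp only
            rw [abs_mul, abs_of_nonneg ((b m).nonneg_normed _)]
            exact mul_le_mul_of_nonneg_left (hC2 _) ((b m).nonneg_normed _)
        _ = C2 := by rw [integral_mul_const, h3, one_mul]
    · rw [indicator_of_notMem hz]
      have h3 : ∀ s, (b m).normed volume (z.1 - s) * χ (s, z.2) = 0 := by
        intro s
        by_cases h4 : R2 < ‖((s, z.2) : ST n)‖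
        · rw [h2 _ h4, mul_zero]
        · rw [not_lt] at h4
          have h5 : (z.1 - s) ∉ Function.support ((b m).normed volume) := by
            rw [(b m).support_normed_eq, mem_ball_zero_iff, not_lt]
            rw [mem_closedBall_zero_iff, not_le] at hz
            have hs : |s| ≤ R2 := (le_max_left _ _).trans h4
            have hx : ‖z.2‖ ≤ R2 := (le_max_right _ _).trans h4
            have h6 : 1 + R2 < ‖z.1‖ := by
              have h7 : ‖z‖ = max ‖z.1‖ ‖z.2‖ := rfl
              rw [h7, lt_max_iff] at hz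
              rcases hz with hz | hz
              · exact hz
              · exact absurd hz (not_lt.2 (by linarith))
            have h8 : ‖z.1‖ ≤ ‖z.1 - s‖ + ‖s‖ := by
              calc ‖z.1‖ = ‖(z.1 - s) + s‖ := by rw [sub_add_cancel]
                _ ≤ _ := norm_add_le _ _
            have h9 : ‖s‖ ≤ R2 := hs
            have := hb1 m
            linarith
          rw [Function.notMem_support.1 h5, zero_mul]
      simp only [h3]
      simp
  refine tendsto_integral_of_dominated_convergence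
    ((Metric.closedBall (0 : ST n) (1 + R2)).indicator fun z => C2 * |f z|) ?_
    (int_ball hf (1 + R2) C2) ?_ ?_
  · intro m
    have h3 := (joint_int hf (hk m) (hkc m) hχ hχc).integral_prod_right
    refine h3.aestronglyMeasurable.congr (Eventually.of_forall fun z => ?_)
    simp only
    rw [← integral_const_mul]
    refine integral_congr_ae (Eventually.of_forall fun s => ?_)
    simp only
    ring
  · intro m
    refine Eventually.of_forall fun z => ?_
    have h3 := hbd m z
    rw [norm_mul, Real.norm_eq_abs, Real.norm_eq_abs]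
    by_cases hz : z ∈ Metric.closedBall (0 : ST n) (1 + R2)
    · rw [indicator_of_mem hz] at h3 ⊢
      rw [mul_comm]
      exact mul_le_mul_of_nonneg_right h3 (abs_nonneg _)
    · rw [indicator_of_notMem hz] at h3 ⊢
      have h4 : |∫ s, (b m).normed volume (z.1 - s) * χ (s, z.2)| = 0 :=
        le_antisymm h3 (abs_nonneg _)
      rw [h4, mul_zero]
  · refine Eventually.of_forall fun z => ?_
    refine Tendsto.mul tendsto_const_nhds ?_
    have h3 := ContDiffBump.convolution_tendsto_right_of_continuous (μ := (volume : Measure ℝ))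
      hb (hg z) z.1
    refine h3.congr fun m => ?_
    rw [convolution_eq_swap]
    rfl

theorem moll_deriv {f : ST n → ℝ} (hf : LocallyIntegrable f volume) {χ : ST n → ℝ} (hχ : SC χ)
    (b : ContDiffBump (0 : ℝ)) :
    ∫ s, ∫ z : ST n, deriv (b.normed volume) (z.1 - s) * (f z * χ (s, z.2)) =
      ∫ s, ∫ z : ST n, b.normed volume (z.1 - s) * (f z * dt χ (s, z.2)) := by
  have hk : Continuous (b.normed volume) := b.continuous_normed
  have hkc : HasCompactSupport (b.normed volume) := b.hasCompactSupport_normed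
  have hks : ContDiff ℝ 1 (b.normed (volume : Measure ℝ)) := b.contDiff_normed
  have hk' : Continuous (deriv (b.normed (volume : Measure ℝ))) := hks.continuous_deriv le_rfl
  have hkc' : HasCompactSupport (deriv (b.normed (volume : Measure ℝ))) := hkc.deriv
  rw [moll_swap hf hk' hkc' hχ.smooth.continuous hχ.cpt,
    moll_swap hf hk hkc hχ.dt.smooth.continuous hχ.dt.cpt]
  refine integral_congr_ae (Eventually.of_forall fun z => ?_)
  simp only
  congr 1
  have hu : ∀ s : ℝ, HasDerivAt (fun s => b.normed volume (z.1 - s))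
      (-deriv (b.normed volume) (z.1 - s)) s := by
    intro s
    have h1 : HasDerivAt (b.normed volume) (deriv (b.normed volume) (z.1 - s)) (z.1 - s) :=
      (hks.differentiable (by simp) _).hasDerivAt
    exact h1.comp_const_sub z.1 s
  have hv : ∀ s : ℝ, HasDerivAt (fun s => χ (s, z.2)) (dt χ (s, z.2)) s := by
    intro s
    have h1 : HasFDerivAt χ (fderiv ℝ χ (s, z.2)) (s, z.2) :=
      (hχ.smooth.differentiable (by simp) _).hasFDerivAt
    have h2 : HasDerivAt (fun s : ℝ => ((s, z.2) : ST n)) (1, 0) s :=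
      (hasDerivAt_id s).prodMk (hasDerivAt_const s z.2)
    exact h1.comp_hasDerivAt s h2
  have cc : ∀ {ξ : ST n → ℝ}, SC ξ → HasCompactSupport fun s : ℝ => ξ (s, z.2) := by
    intro ξ hξ
    obtain ⟨R2, hR2, h2⟩ := cpt_ball hξ.cpt
    refine HasCompactSupport.intro (isCompact_closedBall (0 : ℝ) R2) fun s hs => ?_
    refine h2 _ (lt_of_lt_of_le ?_ (le_max_left _ _))
    rw [mem_closedBall_zero_iff, not_le] at hs
    exact hs
  have cs : ∀ {ξ : ST n → ℝ}, SC ξ → Continuous fun s : ℝ => ξ (s, z.2) := fun hξ =>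
    hξ.smooth.continuous.comp (by fun_prop)
  have h1 := integral_mul_deriv_eq_deriv_mul_of_integrable (u := fun s => b.normed volume (z.1 - s))
    (v := fun s => χ (s, z.2)) (u' := fun s => -deriv (b.normed volume) (z.1 - s))
    (v' := fun s => dt χ (s, z.2)) (fun s _ => hu s) (fun s _ => hv s)
    (((hk.comp (by fun_prop)).mul (cs hχ.dt)).integrable_of_hasCompactSupport (cc hχ.dt).mul_left)
    (((hk'.comp (by fun_prop)).neg.mul (cs hχ)).integrable_of_hasCompactSupport (cc hχ).mul_left)
    (((hk.comp (by fun_prop)).mul (cs hχ)).integrable_of_hasCompactSupport (cc hχ).mul_left)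
  rw [h1, ← integral_neg]
  refine integral_congr_ae (Eventually.of_forall fun s => ?_)
  simp only
  ring

/-- from product tests with time mollifiers to general tests -/
theorem diag {f1 f2 : ST n → ℝ} (hf1 : LocallyIntegrable f1 volume)
    (hf2 : LocallyIntegrable f2 volume) {χ1 χ2 : ST n → ℝ} (hχ1 : SC χ1) (hχ2 : SC χ2)
    {g1 g2 : Fin n → ST n → ℝ} (hg1 : ∀ l, LocallyIntegrable (g1 l) volume)
    (hg2 : ∀ l, LocallyIntegrable (g2 l) volume) {ξ1 ξ2 : Fin n → ST n → ℝ}
    (hξ1 : ∀ l, SC (ξ1 l)) (hξ2 : ∀ l, SC (ξ2 l)) {δ0 : ℝ} (hδ0 : 0 < δ0)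
    (h : ∀ b : ContDiffBump (0 : ℝ), b.rOut < δ0 → ∀ s : ℝ,
      ∫ z : ST n, (deriv (b.normed volume) (z.1 - s) * (f1 z * χ1 (s, z.2) - f2 z * χ2 (s, z.2)) +
        b.normed volume (z.1 - s) * ∑ l, (g1 l z * ξ1 l (s, z.2) - g2 l z * ξ2 l (s, z.2))) = 0) :
    (∫ z, f1 z * dt χ1 z) - (∫ z, f2 z * dt χ2 z) +
      ∑ l, ((∫ z, g1 l z * ξ1 l z) - ∫ z, g2 l z * ξ2 l z) = 0 := by
  set δ : ℕ → ℝ := fun m => min δ0 1 / ((m : ℝ) + 2) with hδ
  have hmin : 0 < min δ0 1 := lt_min hδ0 one_pos
  have hδp : ∀ m, 0 < δ m := fun m => by positivity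
  have hδlt : ∀ m, δ m < min δ0 1 := by
    intro m
    rw [hδ]
    simp only
    rw [div_lt_iff₀ (by positivity)]
    have : (0 : ℝ) ≤ m := Nat.cast_nonneg m
    nlinarith
  let b : ℕ → ContDiffBump (0 : ℝ) := fun m => ⟨δ m / 2, δ m, by linarith [hδp m],
    by linarith [hδp m]⟩
  have hb : Tendsto (fun m => (b m).rOut) atTop (𝓝 0) := by
    have h1 : Tendsto (fun m : ℕ => ((m : ℝ) + 2)) atTop atTop :=
      tendsto_atTop_add_const_right _ _ tendsto_natCast_atTop_atTop
    exact h1.const_div_atTop _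
  have hb1 : ∀ m, (b m).rOut ≤ 1 := fun m => (hδlt m).le.trans (min_le_right _ _)
  have hb0 : ∀ m, (b m).rOut < δ0 := fun m => (hδlt m).trans_le (min_le_left _ _)
  have key : ∀ m, (∫ s, ∫ z : ST n, (b m).normed volume (z.1 - s) * (f1 z * dt χ1 (s, z.2))) -
      (∫ s, ∫ z : ST n, (b m).normed volume (z.1 - s) * (f2 z * dt χ2 (s, z.2))) +
      ∑ l, ((∫ s, ∫ z : ST n, (b m).normed volume (z.1 - s) * (g1 l z * ξ1 l (s, z.2))) -
        ∫ s, ∫ z : ST n, (b m).normed volume (z.1 - s) * (g2 l z * ξ2 l (s, z.2))) = 0 := by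
    intro m
    have hk : Continuous ((b m).normed volume) := (b m).continuous_normed
    have hkc : HasCompactSupport ((b m).normed volume) := (b m).hasCompactSupport_normed
    have hks : ContDiff ℝ 1 ((b m).normed (volume : Measure ℝ)) := (b m).contDiff_normed
    have hk' : Continuous (deriv ((b m).normed (volume : Measure ℝ))) :=
      hks.continuous_deriv le_rfl
    have hkc' : HasCompactSupport (deriv ((b m).normed (volume : Measure ℝ))) := hkc.deriv
    rw [← moll_deriv hf1 hχ1, ← moll_deriv hf2 hχ2]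
    have J1 : Integrable fun s => ∫ z : ST n, deriv ((b m).normed volume) (z.1 - s) *
        (f1 z * χ1 (s, z.2)) :=
      (joint_int hf1 hk' hkc' hχ1.smooth.continuous hχ1.cpt).integral_prod_left
    have J2 : Integrable fun s => ∫ z : ST n, deriv ((b m).normed volume) (z.1 - s) *
        (f2 z * χ2 (s, z.2)) :=
      (joint_int hf2 hk' hkc' hχ2.smooth.continuous hχ2.cpt).integral_prod_left
    have J12 : Integrable fun s => (∫ z : ST n, deriv ((b m).normed volume) (z.1 - s) *
        (f1 z * χ1 (s, z.2))) - ∫ z : ST n, deriv ((b m).normed volume) (z.1 - s) *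
        (f2 z * χ2 (s, z.2)) := J1.sub J2
    have J3 := fun l => (joint_int (hg1 l) hk hkc (hξ1 l).smooth.continuous
      (hξ1 l).cpt).integral_prod_left
    have J4 := fun l => (joint_int (hg2 l) hk hkc (hξ2 l).smooth.continuous
      (hξ2 l).cpt).integral_prod_left
    have J5 : ∀ l, Integrable fun s => (∫ z : ST n, (b m).normed volume (z.1 - s) *
        (g1 l z * ξ1 l (s, z.2))) - ∫ z : ST n, (b m).normed volume (z.1 - s) *
        (g2 l z * ξ2 l (s, z.2)) := fun l => (J3 l).sub (J4 l)
    have J6 : ∀ l, (∫ s, ∫ z : ST n, (b m).normed volume (z.1 - s) * (g1 l z * ξ1 l (s, z.2))) -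
        (∫ s, ∫ z : ST n, (b m).normed volume (z.1 - s) * (g2 l z * ξ2 l (s, z.2))) =
        ∫ s, ((∫ z : ST n, (b m).normed volume (z.1 - s) * (g1 l z * ξ1 l (s, z.2))) -
        ∫ z : ST n, (b m).normed volume (z.1 - s) * (g2 l z * ξ2 l (s, z.2))) := fun l =>
      (integral_sub (J3 l) (J4 l)).symm
    simp only [J6]
    rw [← integral_finsetSum _ fun l _ => J5 l, ← integral_sub J1 J2]
    rw [← integral_add J12 (integrable_finsetSum _ fun l _ => J5 l)]
    refine integral_eq_zero_of_ae (Eventually.of_forall fun s => ?_)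
    simp only [Pi.zero_apply]
    refine Eq.trans ?_ (h (b m) (hb0 m) s)
    have S1 := slice_int hf1 hk' hkc' hχ1.smooth.continuous hχ1.cpt s
    have S2 := slice_int hf2 hk' hkc' hχ2.smooth.continuous hχ2.cpt s
    have S3 := fun l => slice_int (hg1 l) hk hkc (hξ1 l).smooth.continuous (hξ1 l).cpt s
    have S4 := fun l => slice_int (hg2 l) hk hkc (hξ2 l).smooth.continuous (hξ2 l).cpt s
    have S12 : Integrable fun z : ST n => deriv ((b m).normed volume) (z.1 - s) *
        (f1 z * χ1 (s, z.2)) - deriv ((b m).normed volume) (z.1 - s) *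
        (f2 z * χ2 (s, z.2)) := S1.sub S2
    have S34 : ∀ l, Integrable fun z : ST n => (b m).normed volume (z.1 - s) *
        (g1 l z * ξ1 l (s, z.2)) - (b m).normed volume (z.1 - s) * (g2 l z * ξ2 l (s, z.2)) :=
      fun l => (S3 l).sub (S4 l)
    have S5 : ∀ l, (∫ z : ST n, (b m).normed volume (z.1 - s) * (g1 l z * ξ1 l (s, z.2))) -
        (∫ z : ST n, (b m).normed volume (z.1 - s) * (g2 l z * ξ2 l (s, z.2))) =
        ∫ z : ST n, ((b m).normed volume (z.1 - s) * (g1 l z * ξ1 l (s, z.2)) -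
          (b m).normed volume (z.1 - s) * (g2 l z * ξ2 l (s, z.2))) := fun l =>
      (integral_sub (S3 l) (S4 l)).symm
    simp only [S5]
    rw [← integral_finsetSum _ fun l _ => S34 l, ← integral_sub S1 S2,
      ← integral_add S12 (integrable_finsetSum _ fun l _ => S34 l)]
    refine integral_congr_ae (Eventually.of_forall fun z => ?_)
    simp only
    rw [Finset.mul_sum]
    congr 1
    · ring
    · exact Finset.sum_congr rfl fun l _ => by ring
  have lim := ((moll_tendsto hf1 hχ1.dt.smooth.continuous hχ1.dt.cpt hb hb1).sub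
    (moll_tendsto hf2 hχ2.dt.smooth.continuous hχ2.dt.cpt hb hb1)).add
    (tendsto_finsetSum Finset.univ fun l _ =>
      (moll_tendsto (hg1 l) (hξ1 l).smooth.continuous (hξ1 l).cpt hb hb1).sub
      (moll_tendsto (hg2 l) (hξ2 l).smooth.continuous (hξ2 l).cpt hb hb1))
  refine tendsto_nhds_unique lim ?_
  simp only [key]
  exact tendsto_const_nhds

end Pool.Agent.Helper44.Vort
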