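import Pool.Agent.Helper44.JefVortB

/-! # Integration by parts in the velocity class, for scalar tests -/

open MeasureTheory Set Filter Topology
open scoped ENNReal ContDiff Convolution

namespace Pool.Agent.Helper44.Vort
open Pool.Agent.Helper42.Jef

variable {n : ℕ} {Ω : Set (Eu n)} {T : ℝ}

theorem comp_mem {ι : Type*} [Fintype ι] {u : ST n → EuclideanSpace ℝ ι}
    (hu : MemLp u 2 volume) (q : ι) : MemLp (fun z => u z q) 2 volume :=
  (EuclideanSpace.proj (𝕜 := ℝ) q).comp_memLp' hu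

theorem int2 {a b : ST n → ℝ} (ha : MemLp a 2 volume) (hb : MemLp b 2 volume) :
    Integrable (fun z => a z * b z) := ha.integrable_mul hb

theorem int3 {a b ζ : ST n → ℝ} (ha : MemLp a 2 volume) (hb : MemLp b 2 volume) (hζ : SC ζ) :
    Integrable (fun z => ζ z * (a z * b z)) := by
  obtain ⟨C, hC⟩ := hζ.bdd
  exact (int2 ha hb).bdd_mul hζ.aesm (Eventually.of_forall hC)

theorem conv_comp {ι : Type*} [Fintype ι] [DecidableEq ι] {us : ℕ → ST n → EuclideanSpace ℝ ι}
    {u : ST n → EuclideanSpace ℝ ι} (h : WC volume us u) {f : ST n → ℝ} (hf : MemLp f 2 volume)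
    (q : ι) : Tendsto (fun k => ∫ z, us k z q * f z) atTop (𝓝 (∫ z, u z q * f z)) := by
  have hg : MemLp (fun z => f z • (EuclideanSpace.single q (1 : ℝ) : EuclideanSpace ℝ ι)) 2
      volume :=
    ((ContinuousLinearMap.id ℝ ℝ).smulRight
      (EuclideanSpace.single q (1 : ℝ) : EuclideanSpace ℝ ι)).comp_memLp' hf
  have h1 := h.conv _ hg
  have e : ∀ a : ST n → EuclideanSpace ℝ ι, ∫ z, inner ℝ (a z) (f z •
      (EuclideanSpace.single q (1 : ℝ) : EuclideanSpace ℝ ι)) = ∫ z, a z q * f z := by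
    intro a
    refine integral_congr_ae (Eventually.of_forall fun z => ?_)
    simp only
    rw [inner_smul_right, EuclideanSpace.inner_single_right]
    simp [mul_comm]
  simp only [e] at h1
  exact h1

theorem elem_line {v : ST n → Eu n} {G : ST n → Mt n} (h : IsElem Ω T v G) {χ : ST n → ℝ}
    (hχ : SC χ) (i l : Fin n) (z : ST n) :
    HasLineDerivAt ℝ (fun z => v z i * χ z) (G z (i, l) * χ z + v z i * dx l χ z) z (0, bv l) := by
  have h1 : HasDerivAt (fun t : ℝ => v (z + t • ((0 : ℝ), (bv l : Eu n))) i) (G z (i, l)) 0 :=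
    h.lineDeriv z i l
  have h2 : HasDerivAt (fun t : ℝ => χ (z + t • ((0 : ℝ), (bv l : Eu n)))) (dx l χ z) 0 :=
    dv_line hχ.smooth (0, bv l) z
  have h3 := h1.mul h2
  simp only [zero_smul, add_zero] at h3
  exact h3

/-- integration by parts -/
theorem vel_ibp {v : ST n → Eu n} {G : ST n → Mt n} (h : IsVel Ω T v G) {χ : ST n → ℝ}
    (hχ : SC χ) (i l : Fin n) : ∫ z, v z i * dx l χ z = - ∫ z, G z (i, l) * χ z := by
  obtain ⟨vs, Gs, he, h1, h2, h3, h4⟩ := h.exists_seq
  have hv : WC volume vs v := wc_of_strong (fun k => (he k).memLp.1) h.memv h1 h3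
  have hG : WC volume Gs G := wc_of_strong (fun k => (he k).memLp.2) h.memG h2 h4
  have l1 := conv_comp hv (hχ.dx l |>.memLp 2) i
  have l2 := (conv_comp hG (hχ.memLp 2) (i, l)).neg
  refine tendsto_nhds_unique l1 (l2.congr fun k => ?_)
  exact ((he k).ibp i l (fun z => dv_line hχ.smooth _ z)
    (int2 (comp_mem (he k).memLp.1 i) ((hχ.dx l).memLp 2))
    (int2 (comp_mem (he k).memLp.2 (i, l)) (hχ.memLp 2))
    (int2 (comp_mem (he k).memLp.1 i) (hχ.memLp 2))).symm

/-- product of two coordinates as a bilinear map -/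
noncomputable def bl {ι κ : Type*} [Fintype ι] [Fintype κ] (p : ι) (q : κ) :
    EuclideanSpace ℝ ι →L[ℝ] EuclideanSpace ℝ κ →L[ℝ] ℝ :=
  (ContinuousLinearMap.mul ℝ ℝ).bilinearComp (EuclideanSpace.proj (𝕜 := ℝ) p)
    (EuclideanSpace.proj (𝕜 := ℝ) q)

theorem bl_apply {ι κ : Type*} [Fintype ι] [Fintype κ] (p : ι) (q : κ) (a : EuclideanSpace ℝ ι)
    (b : EuclideanSpace ℝ κ) : bl p q a b = a p * b q := rfl

theorem elem_div {v : ST n → Eu n} {G : ST n → Mt n} (h : IsElem Ω T v G) {χ : ST n → ℝ}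
    (hχ : SC χ) (i : Fin n) :
    ∑ l, ((∫ z, dx l χ z * (v z l * v z i)) + ∫ z, χ z * (v z l * G z (i, l))) = 0 := by
  have a1 : ∀ l, Integrable fun z => dx l χ z * (v z l * v z i) := fun l =>
    int3 (comp_mem h.memLp.1 l) (comp_mem h.memLp.1 i) (hχ.dx l)
  have a2 : ∀ l, Integrable fun z => χ z * (v z l * G z (i, l)) := fun l =>
    int3 (comp_mem h.memLp.1 l) (comp_mem h.memLp.2 (i, l)) hχ
  have a3 : ∀ l, Integrable fun z => v z l * (G z (i, l) * χ z + v z i * dx l χ z) := by
    intro l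
    refine ((a1 l).add (a2 l)).congr (Eventually.of_forall fun z => ?_)
    simp only [Pi.add_apply]
    ring
  have h1 := h.div (f := fun z => v z i * χ z)
    (f' := fun l z => G z (i, l) * χ z + v z i * dx l χ z) (fun l z => elem_line h hχ i l z) a3
    (fun l => by
      refine (int3 (comp_mem h.memLp.2 (l, l)) (comp_mem h.memLp.1 i) hχ).congr
        (Eventually.of_forall fun z => ?_)
      simp only
      ring)
    (fun l => by
      refine (int3 (comp_mem h.memLp.1 l) (comp_mem h.memLp.1 i) hχ).congr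
        (Eventually.of_forall fun z => ?_)
      simp only
      ring)
  rw [integral_finsetSum _ fun l _ => a3 l] at h1
  rw [← h1]
  refine Finset.sum_congr rfl fun l _ => ?_
  rw [← integral_add (a1 l) (a2 l)]
  refine integral_congr_ae (Eventually.of_forall fun z => ?_)
  simp only
  ring

/-- the convective term -/
theorem vel_div {v : ST n → Eu n} {G : ST n → Mt n} (h : IsVel Ω T v G) {χ : ST n → ℝ}
    (hχ : SC χ) (i : Fin n) :
    ∑ l, ((∫ z, dx l χ z * (v z l * v z i)) + ∫ z, χ z * (v z l * G z (i, l))) = 0 := by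
  obtain ⟨vs, Gs, he, h1, h2, h3, h4⟩ := h.exists_seq
  have hv : WC volume vs v := wc_of_strong (fun k => (he k).memLp.1) h.memv h1 h3
  have hG : WC volume Gs G := wc_of_strong (fun k => (he k).memLp.2) h.memG h2 h4
  obtain ⟨C, hC⟩ := hχ.bdd
  have lim : Tendsto (fun k => ∑ l, ((∫ z, dx l χ z * (vs k z l * vs k z i)) +
      ∫ z, χ z * (vs k z l * Gs k z (i, l)))) atTop
      (𝓝 (∑ l, ((∫ z, dx l χ z * (v z l * v z i)) + ∫ z, χ z * (v z l * G z (i, l))))) := by
    refine tendsto_finsetSum _ fun l _ => Tendsto.add ?_ ?_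
    · obtain ⟨C', hC'⟩ := (hχ.dx l).bdd
      exact wc_mul_strong hv (fun k => (he k).memLp.1) h.memv h1 (bl l i) (dx l χ)
        (hχ.dx l).aesm C' hC'
    · exact wc_mul_strong hv (fun k => (he k).memLp.2) h.memG h2 (bl l (i, l)) χ hχ.aesm C hC
  refine tendsto_nhds_unique lim ?_
  simp only [fun k => elem_div (he k) hχ i]
  exact tendsto_const_nhds

theorem hvec_int {v : ST n → Eu n} {G : ST n → Mt n} (h : IsVel Ω T v G) {χ : ST n → ℝ}
    (hχ : SC χ) (i : Fin n) : Integrable fun z => hvec v G z i * χ z := by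
  have a2 : ∀ l, Integrable fun z => χ z * (v z l * G z (i, l)) := fun l =>
    int3 (comp_mem h.memv l) (comp_mem h.memG (i, l)) hχ
  refine (integrable_finsetSum Finset.univ fun l _ => a2 l).congr
    (Eventually.of_forall fun z => ?_)
  simp only [hvec]
  rw [Finset.sum_mul]
  exact Finset.sum_congr rfl fun l _ => by ring

theorem conv_eq {v : ST n → Eu n} {G : ST n → Mt n} (h : IsVel Ω T v G) {χ : ST n → ℝ}
    (hχ : SC χ) (i : Fin n) :
    ∑ l, (∫ z, dx l χ z * (v z l * v z i)) = -∫ z, hvec v G z i * χ z := by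
  have h1 := vel_div h hχ i
  rw [Finset.sum_add_distrib] at h1
  have a2 : ∀ l, Integrable fun z => χ z * (v z l * G z (i, l)) := fun l =>
    int3 (comp_mem h.memv l) (comp_mem h.memG (i, l)) hχ
  have h2 : ∑ l, ∫ z, χ z * (v z l * G z (i, l)) = ∫ z, hvec v G z i * χ z := by
    rw [← integral_finsetSum _ fun l _ => a2 l]
    refine integral_congr_ae (Eventually.of_forall fun z => ?_)
    simp only [hvec]
    rw [Finset.sum_mul]
    exact Finset.sum_congr rfl fun l _ => by ring
  rw [h2] at h1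
  linarith

/-- the viscous term -/
theorem visc_eq {v : ST n → Eu n} {G : ST n → Mt n} (h : IsVel Ω T v G) {ψ : ST n → ℝ}
    (hψ : SC ψ) (i j l : Fin n) :
    ∫ z, G z (i, l) * dx l (dx j ψ) z = ∫ z, G z (i, j) * dx l (dx l ψ) z := by
  have h1 := vel_ibp h ((hψ.dx j).dx l) i l
  have h2 := vel_ibp h ((hψ.dx l).dx l) i j
  have e : ∀ z, dx l (dx l (dx j ψ)) z = dx j (dx l (dx l ψ)) z := by
    intro z
    have e1 : dx l (dx j ψ) = dx j (dx l ψ) := funext fun y => dv_comm hψ.smooth _ _ y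
    rw [e1]
    exact dv_comm (hψ.dx l).smooth _ _ z
  simp only [e] at h1
  rw [h1] at h2
  linarith

theorem time_eq {v : ST n → Eu n} {G : ST n → Mt n} (h : IsVel Ω T v G) {ψ : ST n → ℝ}
    (hψ : SC ψ) (i j : Fin n) :
    ∫ z, v z i * dt (dx j ψ) z = - ∫ z, G z (i, j) * dt ψ z := by
  have h1 := vel_ibp h hψ.dt i j
  have e : ∀ z, dt (dx j ψ) z = dx j (dt ψ) z := fun z => dv_comm hψ.smooth _ _ z
  simp only [e]
  exact h1

theorem l2_loc {a : ST n → ℝ} (ha : MemLp a 2 volume) : LocallyIntegrable a volume :=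
  ha.locallyIntegrable (by norm_num)

theorem sy_mem {τ : ST n → Mt n} (h : MemLp τ 2 volume) : MemLp (fun z => sy (τ z)) 2 volume :=
  h.of_le ((sy_cont' continuous_id).comp_aestronglyMeasurable h.1)
    (Eventually.of_forall fun z => norm_sy_le _)
where
  sy_cont' {α : Type _} [TopologicalSpace α] {f : α → Mt n} (h : Continuous f) :
    Continuous fun x => sy (f x) := by
    unfold sy tr
    fun_prop

theorem flux_loc {v : ST n → Eu n} {G τ : ST n → Mt n} (hv : MemLp v 2 volume)
    (hG : MemLp G 2 volume) (hτ : MemLp τ 2 volume) (μ c : ℝ) (p l : Fin n) :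
    LocallyIntegrable (flux μ c v G τ p l) volume :=
  (((int2 (comp_mem hv p) (comp_mem hv l)).locallyIntegrable).sub
    (l2_loc ((comp_mem hG (p, l)).const_mul μ))).sub
    (l2_loc ((comp_mem (sy_mem hτ) (p, l)).const_mul c))

/-- splitting of the flux term -/
theorem flux_split {v : ST n → Eu n} {G τ : ST n → Mt n} (hv : MemLp v 2 volume)
    (hG : MemLp G 2 volume) (hτ : MemLp τ 2 volume) (μ c : ℝ) (p l : Fin n) {χ : ST n → ℝ}
    (hχ : SC χ) : (Integrable fun z => flux μ c v G τ p l z * χ z) ∧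
    ∫ z, flux μ c v G τ p l z * χ z = (∫ z, χ z * (v z l * v z p)) - μ * (∫ z, G z (p, l) * χ z) -
      c * ∫ z, sy (τ z) (p, l) * χ z := by
  have a1 : Integrable fun z => χ z * (v z l * v z p) := int3 (comp_mem hv l) (comp_mem hv p) hχ
  have a2 : Integrable fun z => μ * (G z (p, l) * χ z) :=
    (int2 (comp_mem hG (p, l)) (hχ.memLp 2)).const_mul μ
  have a3 : Integrable fun z => c * (sy (τ z) (p, l) * χ z) :=
    (int2 (comp_mem (sy_mem hτ) (p, l)) (hχ.memLp 2)).const_mul c
  have a12 : Integrable fun z => χ z * (v z l * v z p) - μ * (G z (p, l) * χ z) := a1.sub a2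
  have e : ∀ z, flux μ c v G τ p l z * χ z = χ z * (v z l * v z p) - μ * (G z (p, l) * χ z) -
      c * (sy (τ z) (p, l) * χ z) := by
    intro z
    unfold flux
    ring
  simp only [e]
  refine ⟨a12.sub a3, ?_⟩
  rw [integral_sub a12 a3, integral_sub a1 a2, integral_const_mul, integral_const_mul]

end Pool.Agent.Helper44.Vort
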